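import Pool.Agent.TH129.RS.Defs
import Pool.Agent.TH129.ST.Main
import Pool.Agent.W353.AT.Main

/-!
# The size of the tensor square
-/

set_option autoImplicit false

namespace Pool.Agent.TH129.RS

open Complex Filter Topology ComplexConjugate Pool.Agent.H341R2 NumberField IsDedekindDomain
  Pool.Agent.W401.Cheb Pool.Agent.W540.BE Polynomial Pool.Agent.W353.L1
open Pool.Agent.W353.EF (IsFrobenius LFun)
open Pool.Agent.W353.EH (edgePoint size HasOrder)
open Pool.Agent.W353.PV (Eig alp tF pick_spec lim_ord)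
open Pool.Agent.TH129.ST (eulerProduct HasPoleOrder IsUnitSystem)

section
variable {K : Type} [Field K] [NumberField K]

/-- functions with finite support -/
theorem has_fin {φ : HeightOneSpectrum (𝓞 K) → ℝ} {b : ℝ} (hb : ∀ v, |φ v| ≤ b)
    (h : ∀ᶠ v in cofinite, φ v = 0) : Has φ 0 := by
  have hfin := Filter.eventually_cofinite.mp h
  refine ⟨⟨b, hb⟩, ?_⟩
  rw [tendsto_zero_iff_abs_tendsto_zero]
  have h3 : Tendsto (fun ε : ℝ => (hfin.toFinset.card * b : ℝ) / lam ε) (𝓝[>] 0) (𝓝 0) :=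
    tendsto_const_nhds.div_atTop lam_tendsto
  refine squeeze_zero' (Eventually.of_forall fun ε => abs_nonneg _) ?_ h3
  filter_upwards [self_mem_nhdsWithin, lam_tendsto.eventually_gt_atTop 0] with ε hε hε'
  rw [Function.comp_apply, abs_div, abs_of_pos hε']
  refine div_le_div_of_nonneg_right ?_ hε'.le
  refine EP_finsupp normSys hfin.toFinset φ (fun v hv => ?_) _ hb hε
  rw [Set.Finite.mem_toFinset] at hv
  by_contra h
  exact hv h

/-- **The size of an Euler product over unit numbers.** -/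
theorem unit_size {N : ℕ} {B : HeightOneSpectrum (𝓞 K) → ℂ[X]}
    {t : HeightOneSpectrum (𝓞 K) → ℝ} {b : ℝ} (ht : ∀ v, |t v| ≤ b)
    (h : IsUnitSystem N B t) :
    (∀ᶠ ε : ℝ in 𝓝[>] 0, eulerProduct B ((1 : ℂ) + ε) ≠ 0) ∧
    Tendsto (fun ε : ℝ => (EP (nm K) ε t) / lam ε - squareSize B ε) (𝓝[>] 0) (𝓝 0) := by
  classical
  obtain ⟨h1, h2⟩ := h
  have hex : ∀ v : HeightOneSpectrum (𝓞 K), ∃ w : Fin N → ℂ,
      ((∃ w' : Fin N → ℂ, (∀ j, ‖w' j‖ = 1) ∧ (t v : ℂ) = ∑ j, w' j ∧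
        ∀ z : ℂ, (B v).eval z = ∏ j, (1 - w' j * z)) →
      (∀ j, ‖w j‖ = 1) ∧ (t v : ℂ) = ∑ j, w j ∧ ∀ z : ℂ, (B v).eval z = ∏ j, (1 - w j * z)) := by
    intro v
    by_cases hv : ∃ w' : Fin N → ℂ, (∀ j, ‖w' j‖ = 1) ∧ (t v : ℂ) = ∑ j, w' j ∧
        ∀ z : ℂ, (B v).eval z = ∏ j, (1 - w' j * z)
    · obtain ⟨w', hw'⟩ := hv
      exact ⟨w', fun _ => hw'⟩
    · exact ⟨0, fun h => absurd h hv⟩
  choose α hα using hex
  have hgood : ∀ᶠ v in cofinite, (∀ j, ‖α v j‖ = 1) ∧ (t v : ℂ) = ∑ j, α v j ∧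
      ∀ z : ℂ, (B v).eval z = ∏ j, (1 - α v j * z) := h1.mono fun v hv => hα v hv
  haveI : Finite (GK K ⧸ (⊤ : Subgroup (GK K))) := by
    haveI : Subsingleton (GK K ⧸ (⊤ : Subgroup (GK K))) := QuotientGroup.subsingleton_quotient_top
    infer_instance
  choose σ hσ using exists_isFrob (F := K)
  have hdet : ∀ c : ℂ, LinearMap.det ((1 : Module.End ℂ (Fin 1 → ℂ)) -
      c • (1 : Module.End ℂ (Fin 1 → ℂ))) = 1 - c := by
    intro c
    have h3 : ((1 : Module.End ℂ (Fin 1 → ℂ)) - c • (1 : Module.End ℂ (Fin 1 → ℂ))) =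
        (1 - c) • (LinearMap.id : (Fin 1 → ℂ) →ₗ[ℂ] (Fin 1 → ℂ)) := by
      refine LinearMap.ext fun x => ?_
      rw [LinearMap.sub_apply, LinearMap.smul_apply, LinearMap.smul_apply, Module.End.one_apply,
        LinearMap.id_apply, sub_smul, one_smul]
    rw [h3, LinearMap.det_smul, LinearMap.det_id]
    simp
  have h := size_corr (0 : ℝ) α (by
      refine hgood.mono fun v hv j => ?_
      rw [Real.rpow_zero]
      exact hv.1 j) (by
      refine hgood.mono fun v hv => ?_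
      rw [← hv.2.1, Complex.ofReal_im]) (⊤ : Subgroup (GK K))
    (n := 1) (Representation.trivial ℂ (GK K) (Fin 1 → ℂ)) (fun u _ => rfl) 0 B (by
      refine hgood.mono fun v hv σ _ z => ?_
      rw [hv.2.2 z]
      refine Finset.prod_congr rfl fun j _ => ?_
      exact (hdet _).symm) (by
      intro v
      have e : (((0 : ℝ) : ℂ) + 1 + ((0 : ℝ) : ℂ) * I) = 1 := by push_cast; ring
      rw [e]
      exact h2 v) (eulerProduct B) (fun s _ => rfl) σ hσ
  have e1 : ∀ ε : ℝ, (((0 : ℝ) : ℂ) + 1 + ((0 : ℝ) : ℂ) * I + ε) = (1 : ℂ) + ε := by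
    intro ε
    push_cast
    ring
  simp only [e1] at h
  refine ⟨h.1, ?_⟩
  -- the traces
  have hch : ∀ g : GK K, (Representation.trivial ℂ (GK K) (Fin 1 → ℂ)).character g = 1 := by
    intro g
    unfold Representation.character
    have h4 : (Representation.trivial ℂ (GK K) (Fin 1 → ℂ)) g = LinearMap.id := rfl
    rw [h4, LinearMap.trace_id]
    simp
  have hzz : ∀ v : HeightOneSpectrum (𝓞 K), zz (0 : ℝ) v = 1 := by
    intro v
    unfold zz
    simp
  have h5 : ∀ v, ((tr 0 α v : ℂ) * ((Representation.trivial ℂ (GK K) (Fin 1 → ℂ)).character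
      (σ v)⁻¹ * zz 0 v)).re = tr 0 α v := by
    intro v
    rw [hch, hzz, mul_one, mul_one, Complex.ofReal_re]
  have h6 := h.2
  simp only [h5] at h6
  -- finitely many primes
  have h7 : Has (fun v => t v - tr 0 α v) 0 := by
    refine has_fin (b := b + N) (fun v => ?_) ?_
    · exact (abs_sub _ _).trans (add_le_add (ht v) (abs_tr_le _ _ _))
    · filter_upwards [hgood] with v hv
      have h8 := tr_eq (w := 0) (α := α) (v := v) (fun j => by rw [Real.rpow_zero]; exact hv.1 j)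
        (by rw [← hv.2.1, Complex.ofReal_im])
      rw [Complex.ofReal_zero, neg_zero, Complex.cpow_zero, mul_one, ← hv.2.1] at h8
      have h9 : tr 0 α v = t v := by exact_mod_cast h8
      rw [h9, sub_self]
  have h10 := h7.2.add h6
  rw [add_zero] at h10
  refine h10.congr' ?_
  filter_upwards [self_mem_nhdsWithin] with ε hε
  have hε' : (0 : ℝ) < ε := hε
  have h11 : EP (nm K) ε t = EP (nm K) ε (fun v => t v - tr 0 α v) +
      EP (nm K) ε fun v => tr 0 α v := by
    rw [← EP_add normSys hε' (B := b + N) (B' := N) (fun v => (abs_sub _ _).trans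
      (add_le_add (ht v) (abs_tr_le _ _ _))) (fun v => abs_tr_le _ _ _)]
    congr 1
    funext v
    ring
  rw [h11]
  unfold squareSize
  ring

end

section
variable {K : Type} [Field K] [NumberField K] {l : ℕ} {X : Set (MvPolynomial (Fin l) (𝓞 K))}
  {d i N : ℕ}

theorem bound_tF (v : HeightOneSpectrum (𝓞 K)) : |tF X d i N K v| ≤ (N : ℝ) := abs_tr_le _ _ _

theorem bound_sq (v : HeightOneSpectrum (𝓞 K)) : |tF X d i N K v ^ 2| ≤ (N : ℝ) ^ 2 := by
  rw [abs_pow]
  exact pow_le_pow_left₀ (abs_nonneg _) (bound_tF v) 2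

/-- the tensor square as a product over unit numbers -/
theorem sq_unit (hi : i ≤ 2 * d) {B : HeightOneSpectrum (𝓞 K) → ℂ[X]}
    (hB : IsSquareSystem X d i N B) :
    IsUnitSystem (N * N) B (fun v => tF X d i N K v ^ 2) := by
  refine ⟨hB.1.mono fun v hv => ?_, hB.2⟩
  obtain ⟨α, h1, h2⟩ := hv
  have h1' : Eig X d i v α := h1
  have h3 : Eig X d i v (alp X d i N K v) := pick_spec ⟨α, h1⟩
  have hq : (0 : ℝ) < (Ideal.absNorm v.asIdeal : ℝ) := by
    have := nm_pos v
    exact_mod_cast this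
  have hqc : (Ideal.absNorm v.asIdeal : ℂ) ≠ 0 := by
    have := nm_pos v
    exact_mod_cast this.ne'
  set c : ℂ := (Ideal.absNorm v.asIdeal : ℂ) ^ (-((i : ℂ) / 2)) with hc
  have hcc : c * c = (Ideal.absNorm v.asIdeal : ℂ) ^ (-(i : ℂ)) := by
    rw [hc, ← Complex.cpow_add _ _ hqc]
    congr 1
    ring
  have hcn : ‖c‖ = (Ideal.absNorm v.asIdeal : ℝ) ^ (-((i : ℝ) / 2)) := by
    have h4 := Complex.norm_natCast_cpow_of_pos (nm_pos v) (-((i : ℂ) / 2))
    have h5 : (-((i : ℂ) / 2)).re = -((i : ℝ) / 2) := by simp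
    rw [h5] at h4
    exact h4
  have hu : ∀ j, ‖alp X d i N K v j * c‖ = 1 := by
    intro j
    rw [norm_mul, hcn]
    have h4 : ‖alp X d i N K v j‖ = (Ideal.absNorm v.asIdeal : ℝ) ^ ((i : ℝ) / 2) := h3.norm j
    rw [h4, ← Real.rpow_add hq, add_neg_cancel, Real.rpow_zero]
  have hT : (tF X d i N K v : ℂ) = ∑ j, alp X d i N K v j * c := by
    have h5 := tr_eq (w := (i : ℝ) / 2) (α := alp X d i N K) (v := v) (fun j => h3.norm j)
      (h3.im hi)
    have h6 : (tF X d i N K v : ℂ) = (tr ((i : ℝ) / 2) (alp X d i N K) v : ℂ) := rfl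
    rw [h6, h5, Finset.sum_mul]
    refine Finset.sum_congr rfl fun j _ => ?_
    rw [hc]
    congr 2
    push_cast
    ring
  refine ⟨fun x => (alp X d i N K v (finProdFinEquiv.symm x).1 * c) *
    (alp X d i N K v (finProdFinEquiv.symm x).2 * c), fun x => ?_, ?_, fun z => ?_⟩
  · rw [norm_mul, hu, hu, one_mul]
  · push_cast
    rw [hT, sq, Finset.sum_mul_sum, ← Fintype.sum_prod_type']
    exact (Equiv.sum_comp finProdFinEquiv.symm
      (fun y : Fin N × Fin N => (alp X d i N K v y.1 * c) * (alp X d i N K v y.2 * c))).symm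
  · rw [h2 z]
    have h7 : ∏ j, ∏ k, (1 - α j * α k * (Ideal.absNorm v.asIdeal : ℂ) ^ (-(i : ℂ)) * z) =
        ∏ j, ∏ k, (1 - alp X d i N K v j * alp X d i N K v k *
          (Ideal.absNorm v.asIdeal : ℂ) ^ (-(i : ℂ)) * z) := by
      have h4 := congrArg (fun s : Multiset ℂ => (s.map fun a => (s.map fun b =>
        (1 - a * b * (Ideal.absNorm v.asIdeal : ℂ) ^ (-(i : ℂ)) * z)).prod).prod)
        (h1'.unique' hi h3)
      simp only [Multiset.map_map] at h4
      exact h4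
    rw [h7, ← Fintype.prod_prod_type']
    rw [← Equiv.prod_comp finProdFinEquiv.symm]
    refine Finset.prod_congr rfl fun x _ => ?_
    rw [← hcc]
    ring

/-- **The size of the tensor square.** -/
theorem sq_size (hi : i ≤ 2 * d) {B : HeightOneSpectrum (𝓞 K) → ℂ[X]}
    (hB : IsSquareSystem X d i N B) :
    (∀ᶠ ε : ℝ in 𝓝[>] 0, eulerProduct B ((1 : ℂ) + ε) ≠ 0) ∧
    Tendsto (fun ε : ℝ => (EP (nm K) ε fun v => tF X d i N K v ^ 2) / lam ε - squareSize B ε)
      (𝓝[>] 0) (𝓝 0) :=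
  unit_size (fun v => bound_sq v) (sq_unit hi hB)

/-- the size and the order of the pole -/
theorem sq_lim (hi : i ≤ 2 * d) {B : HeightOneSpectrum (𝓞 K) → ℂ[X]}
    (hB : IsSquareSystem X d i N B) {n : ℤ} (hn : HasPoleOrder B n) :
    Tendsto (squareSize B) (𝓝[>] 0) (𝓝 (n : ℝ)) := by
  obtain ⟨Λ, h1, h2, h3⟩ := hn
  have h4 := lim_ord (L := eulerProduct B) (s₀ := 1) (sq_size hi hB).1 h1 (h2.mono fun s hs hs' => hs (by
    rw [Complex.one_re] at hs'
    exact hs')) h3
  have e : -(((-n : ℤ) : ℝ)) = (n : ℝ) := by push_cast; ring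
  rw [e] at h4
  exact h4

end

end Pool.Agent.TH129.RS
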