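import Pool.Agent.TH129.RS.Zeta
import Pool.Agent.TH129.RS.Size

/-!
# Real-analytic functions with a logarithmic singularity
-/

set_option autoImplicit false

namespace Pool.Agent.TH129.RS

open Filter Topology NumberField IsDedekindDomain Polynomial
open Pool.Agent.H921R2.TatePole (nm two_le_nm nm_summable ZK ZK_tendsto dedekindZeta_real)
open Pool.Agent.W189.TP (DS DS_diff DS_real summ_cplx norm_term)
open Pool.Agent.TH129.ST (eulerProduct HasPoleOrder IsUnitSystem unit_edge)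
open Pool.Agent.TH129.EM (nq nq_places Edge)

/-- `φ(σ) = -k log(σ - 1) + g(σ)` for `σ > 1` near `1`, with `g` real-analytic at `1` -/
def AL (φ : ℝ → ℝ) (k : ℝ) : Prop :=
  ∃ g : ℝ → ℝ, AnalyticAt ℝ g 1 ∧ ∀ᶠ σ : ℝ in 𝓝[>] 1, φ σ = -k * Real.log (σ - 1) + g σ

theorem AL.add {φ ψ : ℝ → ℝ} {k l : ℝ} (h : AL φ k) (h' : AL ψ l) :
    AL (fun σ => φ σ + ψ σ) (k + l) := by
  obtain ⟨g, hg, h1⟩ := h
  obtain ⟨g', hg', h2⟩ := h'
  refine ⟨fun σ => g σ + g' σ, hg.add hg', ?_⟩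
  filter_upwards [h1, h2] with σ h3 h4
  rw [h3, h4]
  ring

theorem AL.const_mul {φ : ℝ → ℝ} {k : ℝ} (h : AL φ k) (c : ℝ) :
    AL (fun σ => c * φ σ) (c * k) := by
  obtain ⟨g, hg, h1⟩ := h
  refine ⟨fun σ => c * g σ, analyticAt_const.mul hg, ?_⟩
  filter_upwards [h1] with σ h3
  rw [h3]
  ring

theorem AL.congr {φ ψ : ℝ → ℝ} {k : ℝ} (h : AL φ k) (he : ∀ᶠ σ : ℝ in 𝓝[>] 1, φ σ = ψ σ) :
    AL ψ k := by
  obtain ⟨g, hg, h1⟩ := h
  refine ⟨g, hg, ?_⟩
  filter_upwards [h1, he] with σ h3 h4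
  rw [← h4, h3]

theorem AL.of_analytic {g : ℝ → ℝ} (h : AnalyticAt ℝ g 1) : AL g 0 :=
  ⟨g, h, Eventually.of_forall fun σ => by ring⟩

theorem AL.sum {ι : Type*} (S : Finset ι) {φ : ι → ℝ → ℝ} (h : ∀ i ∈ S, AL (φ i) 0) :
    AL (fun σ => ∑ i ∈ S, φ i σ) 0 := by
  classical
  induction S using Finset.induction_on with
  | empty =>
    simp only [Finset.sum_empty]
    exact AL.of_analytic analyticAt_const
  | insert a s ha ih =>
    have h1 := (h a (Finset.mem_insert_self a s)).add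
      (ih fun i hi => h i (Finset.mem_insert_of_mem hi))
    rw [add_zero] at h1
    refine h1.congr (Eventually.of_forall fun σ => ?_)
    rw [Finset.sum_insert ha]

/-- the logarithm of the absolute value of a holomorphic function -/
theorem analytic_log_norm {g : ℂ → ℂ} (hg : AnalyticAt ℂ g 1) (h0 : g 1 ≠ 0) :
    AnalyticAt ℝ (fun σ : ℝ => Real.log ‖g (σ : ℂ)‖) 1 := by
  have hg' : AnalyticAt ℂ g ((1 : ℝ) : ℂ) := by rwa [Complex.ofReal_one]
  have hre : AnalyticAt ℝ (fun σ : ℝ => (g (σ : ℂ)).re) 1 := hg'.re_ofReal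
  have him : AnalyticAt ℝ (fun σ : ℝ => (g (σ : ℂ)).im) 1 := hg'.im_ofReal
  have h1 : AnalyticAt ℝ (fun σ : ℝ => (g (σ : ℂ)).re * (g (σ : ℂ)).re +
      (g (σ : ℂ)).im * (g (σ : ℂ)).im) 1 := (hre.mul hre).add (him.mul him)
  have h2 : ∀ σ : ℝ, (g (σ : ℂ)).re * (g (σ : ℂ)).re + (g (σ : ℂ)).im * (g (σ : ℂ)).im =
      ‖g (σ : ℂ)‖ ^ 2 := by
    intro σ
    rw [← Complex.normSq_eq_norm_sq, Complex.normSq_apply]
  have h3 : 0 < (g ((1 : ℝ) : ℂ)).re * (g ((1 : ℝ) : ℂ)).re + (g ((1 : ℝ) : ℂ)).im *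
      (g ((1 : ℝ) : ℂ)).im := by
    rw [h2, Complex.ofReal_one]
    exact pow_pos (norm_pos_iff.mpr h0) 2
  have h4 := (analyticAt_const (v := (1 / 2 : ℝ))).mul (h1.log h3)
  refine h4.congr (Eventually.of_forall fun σ => ?_)
  simp only [Pi.mul_apply]
  rw [h2, Real.log_pow]
  push_cast
  ring

section
variable {K : Type} [Field K] [NumberField K]

/-- the real series of the logarithm of the zeta function -/
noncomputable def Phr (K : Type) [Field K] [NumberField K] (σ : ℝ) : ℝ :=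
  ∑' p : HeightOneSpectrum (𝓞 K) × ℕ, cz p * Real.exp (-(σ * Lq p))

/-- **The zeta function.** -/
theorem AL_zeta : AL (Phr K) 1 := by
  obtain ⟨C, hC, hz⟩ := zeta_eq (K := K)
  obtain ⟨g, hg, hgz⟩ := Pool.Agent.H484R2.continuation (K := K) 0
  have e1 : (1 : ℂ) + ((0 : ℝ) : ℂ) * Complex.I = 1 := by push_cast; ring
  rw [e1] at hg hgz
  have hpath : Tendsto (fun σ : ℝ => (σ : ℂ)) (𝓝[>] 1) (𝓝 1) := by
    have h1 : Tendsto (fun σ : ℝ => (σ : ℂ)) (𝓝 1) (𝓝 ((1 : ℝ) : ℂ)) :=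
      (Complex.continuous_ofReal).tendsto 1
    rw [Complex.ofReal_one] at h1
    exact h1.mono_left nhdsWithin_le_nhds
  have hev : ∀ᶠ σ : ℝ in 𝓝[>] 1, g σ = ((σ : ℂ) - 1) * dedekindZeta K σ := by
    filter_upwards [hpath.eventually hgz, self_mem_nhdsWithin] with σ h1 h2
    exact h1 (by rw [Complex.ofReal_re]; exact h2)
  have hg1 : g 1 ≠ 0 := by
    have h1 : Tendsto (fun σ : ℝ => g σ) (𝓝[>] 1) (𝓝 (g 1)) := hg.continuousAt.tendsto.comp hpath
    have h2 := tendsto_sub_one_mul_dedekindZeta_nhdsGT K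
    have h3 := tendsto_nhds_unique (h1.congr' hev) h2
    rw [h3]
    exact_mod_cast dedekindZeta_residue_ne_zero K
  refine ⟨fun σ => Real.log ‖g (σ : ℂ)‖ - Real.log ‖C‖, (analytic_log_norm hg hg1).sub
    analyticAt_const, ?_⟩
  have hgne : ∀ᶠ σ : ℝ in 𝓝[>] 1, g σ ≠ 0 :=
    (hg.continuousAt.tendsto.comp hpath).eventually_ne hg1
  filter_upwards [hev, self_mem_nhdsWithin, hgne] with σ h1 h2 h3
  have hσ : (1 : ℝ) < σ := h2
  have h4 : dedekindZeta K σ = C * Complex.exp ((Phr K σ : ℝ) : ℂ) := by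
    rw [hz _ (by rw [Complex.ofReal_re]; exact hσ)]
    congr 2
    exact DS_real σ
  have h5 : ‖dedekindZeta K σ‖ = ‖C‖ * Real.exp (Phr K σ) := by
    rw [h4, norm_mul, Complex.norm_exp, Complex.ofReal_re]
  have h6 : ‖g σ‖ = (σ - 1) * (‖C‖ * Real.exp (Phr K σ)) := by
    rw [h1, norm_mul, h5]
    congr 1
    have : (σ : ℂ) - 1 = ((σ - 1 : ℝ) : ℂ) := by push_cast; ring
    rw [this, Complex.norm_real, Real.norm_of_nonneg (by linarith)]
  rw [h6, Real.log_mul (by linarith) (mul_ne_zero (norm_ne_zero_iff.mpr hC) (Real.exp_ne_zero _)),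
    Real.log_mul (norm_ne_zero_iff.mpr hC) (Real.exp_ne_zero _), Real.log_exp]
  ring

/-- the logarithm of an Euler product with a continuation -/
theorem AL_pole {B : HeightOneSpectrum (𝓞 K) → ℂ[X]} {k : ℤ} (hk : HasPoleOrder B k) :
    AL (fun σ => Real.log ‖eulerProduct B (σ : ℂ)‖) k := by
  obtain ⟨Λ, hΛ, he, hord⟩ := hk
  obtain ⟨g, hg1, hg2, hg3⟩ := (meromorphicOrderAt_eq_int_iff hΛ).mp hord
  have hpath : Tendsto (fun σ : ℝ => (σ : ℂ)) (𝓝[>] 1) (𝓝[≠] 1) := by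
    rw [tendsto_nhdsWithin_iff]
    constructor
    · have h1 : Tendsto (fun σ : ℝ => (σ : ℂ)) (𝓝 1) (𝓝 ((1 : ℝ) : ℂ)) :=
        (Complex.continuous_ofReal).tendsto 1
      rw [Complex.ofReal_one] at h1
      exact h1.mono_left nhdsWithin_le_nhds
    · filter_upwards [self_mem_nhdsWithin] with σ hσ
      have hσ1 : (1 : ℝ) < σ := hσ
      rw [Set.mem_compl_iff, Set.mem_singleton_iff]
      intro h
      have : σ = 1 := by exact_mod_cast h
      linarith
  refine ⟨fun σ => Real.log ‖g (σ : ℂ)‖, analytic_log_norm hg1 hg2, ?_⟩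
  have hgne : ∀ᶠ σ : ℝ in 𝓝[>] 1, g σ ≠ 0 :=
    (hg1.continuousAt.tendsto.comp (tendsto_nhds_of_tendsto_nhdsWithin hpath)).eventually_ne hg2
  filter_upwards [hpath.eventually hg3, (tendsto_nhds_of_tendsto_nhdsWithin hpath).eventually he,
    self_mem_nhdsWithin, hgne] with σ h2 h3 hσ h4
  have hσ1 : (1 : ℝ) < σ := hσ
  have h5 : Λ σ = eulerProduct B σ := h3 (by rw [Complex.ofReal_re]; exact hσ1)
  have h6 : (σ : ℂ) - 1 = ((σ - 1 : ℝ) : ℂ) := by push_cast; ring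
  rw [← h5, h2, norm_smul, norm_zpow, h6, Complex.norm_real, Real.norm_of_nonneg (by linarith),
    Real.log_mul (zpow_ne_zero _ (by linarith)) (norm_ne_zero_iff.mpr h4), Real.log_zpow]
  push_cast
  ring

/-- a local factor -/
theorem AL_local {P : ℂ[X]} (v : HeightOneSpectrum (𝓞 K))
    (h : P.eval ((Ideal.absNorm v.asIdeal : ℂ) ^ (-(1 : ℂ))) ≠ 0) :
    AL (fun σ => Real.log ‖P.eval ((Ideal.absNorm v.asIdeal : ℂ) ^ (-(σ : ℂ)))‖⁻¹) 0 := by
  have hq : (Ideal.absNorm v.asIdeal : ℂ) ≠ 0 := by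
    have h2 : 2 ≤ Ideal.absNorm v.asIdeal := two_le_nm v
    have : Ideal.absNorm v.asIdeal ≠ 0 := by omega
    exact_mod_cast this
  have h1 : AnalyticAt ℂ (fun s : ℂ => P.eval ((Ideal.absNorm v.asIdeal : ℂ) ^ (-s))) 1 := by
    have h2 : Differentiable ℂ (fun s : ℂ => P.eval ((Ideal.absNorm v.asIdeal : ℂ) ^ (-s))) := by
      refine P.differentiable.comp ?_
      intro s
      exact ((differentiableAt_id.neg).const_cpow (Or.inl hq))
    exact h2.analyticAt 1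
  have h3 := (analytic_log_norm h1 h).neg
  refine (AL.of_analytic h3).congr (Eventually.of_forall fun σ => ?_)
  simp only [Pi.neg_apply]
  rw [Real.log_inv]

/-- the logarithm of a product of linear factors -/
theorem log_prod {N : ℕ} {w : Fin N → ℂ} (hw : ∀ j, ‖w j‖ = 1) {x : ℝ} (hx0 : 0 < x)
    (hx : x ≤ 1 / 2) :
    HasSum (fun k : ℕ => (∑ j, w j ^ (k + 1)).re / ((k : ℝ) + 1) * x ^ (k + 1))
      (Real.log ‖∏ j, (1 - w j * (x : ℂ))‖⁻¹) := by
  have h1 : ∀ j, ‖w j * (x : ℂ)‖ < 1 := by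
    intro j
    rw [norm_mul, hw, one_mul, Complex.norm_real, Real.norm_of_nonneg hx0.le]
    linarith
  have h2 : ∀ j, HasSum (fun k : ℕ => ((w j * (x : ℂ)) ^ (k + 1) / ((k : ℂ) + 1)).re)
      (-Complex.log (1 - w j * (x : ℂ))).re := by
    intro j
    have h3 := Complex.hasSum_taylorSeries_neg_log (h1 j)
    have h4 := (hasSum_nat_add_iff' 1).mpr h3
    simp only [Finset.range_one, Finset.sum_singleton, pow_zero, Nat.cast_zero, div_zero,
      sub_zero] at h4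
    have h5 := Complex.hasSum_re h4
    refine h5.congr_fun ?_ |> fun h => h
    all_goals first | exact fun k => by push_cast; rfl | skip
  have h3 := hasSum_sum (s := Finset.univ) fun j _ => h2 j
  have h4 : ∑ j, (-Complex.log (1 - w j * (x : ℂ))).re = Real.log ‖∏ j, (1 - w j * (x : ℂ))‖⁻¹ := by
    rw [Real.log_inv, norm_prod, Real.log_prod]
    · rw [← Finset.sum_neg_distrib]
      refine Finset.sum_congr rfl fun j _ => ?_
      rw [Complex.neg_re, Complex.log_re]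
    · intro j _ h0
      rw [norm_eq_zero, sub_eq_zero] at h0
      have := h1 j
      rw [← h0, norm_one] at this
      exact lt_irrefl _ this
  rw [h4] at h3
  have h5 : (fun k : ℕ => ∑ j, ((w j * (x : ℂ)) ^ (k + 1) / ((k : ℂ) + 1)).re) =
      fun k : ℕ => (∑ j, w j ^ (k + 1)).re / ((k : ℝ) + 1) * x ^ (k + 1) := by
    funext k
    rw [Complex.re_sum, Finset.sum_div, Finset.sum_mul]
    refine Finset.sum_congr rfl fun j _ => ?_
    have h6 : (w j * (x : ℂ)) ^ (k + 1) / ((k : ℂ) + 1) =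
        ((x ^ (k + 1) / ((k : ℝ) + 1) : ℝ) : ℂ) * w j ^ (k + 1) := by
      push_cast
      rw [mul_pow]
      ring
    rw [h6, Complex.re_ofReal_mul]
    ring
  rw [h5] at h3
  exact h3

end

end Pool.Agent.TH129.RS
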