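import Pool.Agent.TH129.RS.Gram
import Pool.Agent.TH129.EM.Div4
import Pool.Agent.TH553.GP.Fld
import Pool.Agent.W353.SP.Tw

/-!
# Number fields and the distribution of the traces
-/

set_option autoImplicit false

namespace Pool.Agent.TH129.RS

open Filter Topology NumberField IsDedekindDomain Polynomial
open Pool.Agent.W353.SP (Bd Mn Hs EN mnN bd_fixn)
open Pool.Agent.W353.FB (EA mnA)
open Pool.Agent.W353.EF (IsFrobenius OrderOver)
open Pool.Agent.W353.PV (Eig alp tF pick_spec)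
open Pool.Agent.W353.NF (act act_apply fixn fixn_conj fixn_mul_ker fixn_le ker_act_open fixn_self)
open Pool.Agent.W401.Cheb Pool.Agent.W540.BE Pool.Agent.W353.L1
open Pool.Agent.TH129.EM (order_EA bd_tF)
open Pool.Agent.TH129.ST (eulerProduct HasPoleOrder IsUnitSystem poleOrder_EA logMean logMean_iff
  unit unit_norm)
open Pool.Agent.TH553.GP (po sum_fix sum_fix2)

section
variable {K : Type} [Field K] [NumberField K]

theorem pairOrbits_eq (F : Type) [Field F] [NumberField F] [Algebra K F] :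
    pairOrbits K F = po K F := by
  unfold pairOrbits po
  refine Nat.card_congr (Quot.congrRight fun p q => ?_)
  rfl

variable {ι : Type} {l : Filter ι} {E : ι → (HeightOneSpectrum (𝓞 K) → ℝ) → ℝ}

/-- real class functions -/
theorem hs_class (h : Mn l E) (U : Subgroup (GK K)) [U.Normal] [Finite (GK K ⧸ U)]
    (hU : IsOpen (U : Set (GK K))) {Ψ : GK K → ℝ}
    (h1 : ∀ g, ∀ u ∈ U, Ψ (g * u) = Ψ g) (h2 : ∀ g k, Ψ (k * g * k⁻¹) = Ψ g)
    {σ : HeightOneSpectrum (𝓞 K) → GK K} (hσ : ∀ v, IsFrob v (σ v)) :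
    Hs l E (fun v => Ψ (σ v)) ((∑ᶠ q : GK K ⧸ U, Ψ q.out) / Nat.card (GK K ⧸ U)) := by
  classical
  let _ : Fintype (GK K ⧸ U) := Fintype.ofFinite _
  have hout : ∀ g : GK K, Ψ (QuotientGroup.mk g : GK K ⧸ U).out = Ψ g := by
    intro g
    have e2 : (QuotientGroup.mk (QuotientGroup.mk g : GK K ⧸ U).out : GK K ⧸ U) =
        QuotientGroup.mk g := QuotientGroup.out_eq' _
    have e3 := h1 (QuotientGroup.mk g : GK K ⧸ U).out _ (QuotientGroup.eq.1 e2)
    rw [← e3]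
    congr 1
    group
  refine ⟨⟨∑ q : GK K ⧸ U, |Ψ q.out|, fun v => ?_⟩, ?_⟩
  · change |Ψ (σ v)| ≤ _
    rw [← hout (σ v)]
    exact Finset.single_le_sum (f := fun q : GK K ⧸ U => |Ψ q.out|) (fun q _ => abs_nonneg _)
      (Finset.mem_univ _)
  · have h3 := h.cheb U hU (fun q => ((Ψ q.out : ℝ) : ℂ)) (fun a g => by
      obtain ⟨a, rfl⟩ := QuotientGroup.mk_surjective a
      obtain ⟨g, rfl⟩ := QuotientGroup.mk_surjective g
      rw [← QuotientGroup.mk_mul, ← QuotientGroup.mk_inv, ← QuotientGroup.mk_mul, hout, hout, h2])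
      ((∑ᶠ q : GK K ⧸ U, Ψ q.out) / Nat.card (GK K ⧸ U)) (by
        unfold avC
        rw [finsum_eq_sum_of_fintype, finsum_eq_sum_of_fintype]
        push_cast
        rw [inv_mul_eq_div]) σ hσ
    refine h3.congr fun i => ?_
    congr 1
    funext v
    rw [Complex.ofReal_re, hout]

theorem hs_fix (h : Mn l E) (F : Type) [Field F] [NumberField F] [Algebra K F]
    {σ : HeightOneSpectrum (𝓞 K) → GK K} (hσ : ∀ v, IsFrob v (σ v)) :
    Hs l E (fun v => (fixn K F (σ v) : ℝ)) 1 := by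
  have h1 := hs_class h (act K F).ker (ker_act_open K F) (Ψ := fun g => (fixn K F g : ℝ))
    (fun g u hu => by rw [fixn_mul_ker K F g u (MonoidHom.mem_ker.1 hu)])
    (fun g k => by rw [fixn_conj]) hσ
  rw [sum_fix] at h1
  have h2 : (Nat.card (GK K ⧸ (act K F).ker) : ℝ) ≠ 0 := by exact_mod_cast Nat.card_pos.ne'
  rwa [div_self h2] at h1

theorem hs_fix2 (h : Mn l E) (F : Type) [Field F] [NumberField F] [Algebra K F]
    {σ : HeightOneSpectrum (𝓞 K) → GK K} (hσ : ∀ v, IsFrob v (σ v)) :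
    Hs l E (fun v => (fixn K F (σ v) : ℝ) ^ 2) (pairOrbits K F) := by
  have h1 := hs_class h (act K F).ker (ker_act_open K F) (Ψ := fun g => (fixn K F g : ℝ) ^ 2)
    (fun g u hu => by rw [fixn_mul_ker K F g u (MonoidHom.mem_ker.1 hu)])
    (fun g k => by rw [fixn_conj]) hσ
  rw [sum_fix2] at h1
  have h2 : (Nat.card (GK K ⧸ (act K F).ker) : ℝ) ≠ 0 := by exact_mod_cast Nat.card_pos.ne'
  rw [mul_div_assoc, div_self h2, mul_one] at h1
  rw [pairOrbits_eq]
  exact h1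

theorem hs_nonneg [l.NeBot] (h : Mn l E) {f : HeightOneSpectrum (𝓞 K) → ℝ} {m : ℝ}
    (hf : Hs l E f m) (h0 : ∀ v, 0 ≤ f v) : 0 ≤ m := by
  have h1 := h.hsZero
  refine le_of_tendsto_of_tendsto h1.2 hf.2 ?_
  exact h.mono _ _ h1.1 hf.1 h0

end

section
variable {K : Type} [Field K] [NumberField K] {l : ℕ} {X : Set (MvPolynomial (Fin l) (𝓞 K))}
  {d i N : ℕ}

/-- the normalised trace -/
theorem trace_eq (hi : i ≤ 2 * d) {v : HeightOneSpectrum (𝓞 K)}
    {α : HeightOneSpectrum (𝓞 K) → Fin N → ℂ} (h : IsFrobenius X d i v (α v)) :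
    (∑ j, unit i α v j).re = tF X d i N K v := by
  have h1 : Eig X d i v (α v) := h
  have h3 : Eig X d i v (alp X d i N K v) := pick_spec ⟨α v, h1⟩
  have h4 := congrArg Multiset.sum (h1.unique' hi h3)
  change ∑ j, α v j = ∑ j, alp X d i N K v j at h4
  have h5 := tr_eq (w := (i : ℝ) / 2) (α := alp X d i N K) (v := v) (fun j => h3.norm j)
    (h3.im hi)
  have h6 : (tF X d i N K v : ℂ) = (tr ((i : ℝ) / 2) (alp X d i N K) v : ℂ) := rfl
  have h7 : ∑ j, unit i α v j = (tF X d i N K v : ℂ) := by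
    rw [h6, h5, ← h4, Finset.sum_mul]
    refine Finset.sum_congr rfl fun j _ => ?_
    unfold unit
    congr 2
    push_cast
    ring
  rw [h7, Complex.ofReal_re]

theorem hs_sq (hi : i ≤ 2 * d) {n : ℤ} (hn : SquarePole X d i N n) :
    Hs (𝓝[>] 1) (EA K) (fun v => tF X d i N K v ^ 2) n := by
  obtain ⟨B₂, hB₂, hn⟩ := hn
  have hb : Bd fun v => tF X d i N K v ^ 2 := ⟨_, fun v => bound_sq v⟩
  exact ⟨hb, poleOrder_EA hb (sq_unit hi hB₂) hn⟩

/-- **Number fields and traces.** -/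
theorem fieldInequality (hi : i ≤ 2 * d) {n : ℤ} (hn : SquarePole X d i N n) :
    FieldInequality X d i N n := by
  classical
  intro m hm
  choose σ hσ using exists_isFrob (F := K)
  have hM := mnA K
  set T : HeightOneSpectrum (𝓞 K) → ℝ := tF X d i N K with hT
  have hTb : Bd T := bd_tF X d i N K
  have hT1 : Hs (𝓝[>] 1) (EA K) T (-(m : ℝ)) := by
    refine ⟨hTb, ?_⟩
    have h1 := order_EA (X := X) (d := d) (N := N) hσ hi hm
    simp only [fixn_self, Nat.cast_one, mul_one] at h1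
    exact h1
  have hT2 : Hs (𝓝[>] 1) (EA K) (fun v => T v ^ 2) n := hs_sq hi hn
  have hmain : ∀ (F : Type) [Field F] [Algebra K F] (k : ℤ), OrderOver X d i N F k →
      ((k : ℝ) - m) ^ 2 ≤ ((n : ℝ) - m ^ 2) * ((pairOrbits K F : ℝ) - 1) := by
    intro F _ _ k hk
    obtain ⟨hF, -⟩ := id hk
    have h1 : Hs (𝓝[>] 1) (EA K) (fun v => (fixn K F (σ v) : ℝ)) 1 := hs_fix hM F hσ
    have h2 : Hs (𝓝[>] 1) (EA K) (fun v => (fixn K F (σ v) : ℝ) ^ 2) (pairOrbits K F) :=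
      hs_fix2 hM F hσ
    have h3 : Hs (𝓝[>] 1) (EA K) (fun v => T v * fixn K F (σ v)) (-(k : ℝ)) :=
      ⟨hTb.mul h1.1, order_EA (X := X) (d := d) (N := N) hσ hi hk⟩
    have h4 : ∀ s : ℝ, 0 ≤ ((pairOrbits K F : ℝ) - 1) * (s * s) +
        (2 * ((k : ℝ) - m)) * s + ((n : ℝ) - m ^ 2) := by
      intro s
      have h5 := hM.hsAdd hT2 (hM.hsAdd (hM.hsMul hT1 (2 * (m : ℝ) + 2 * s))
        (hM.hsAdd (hM.hsMul h3 (-2 * s)) (hM.hsAdd (hM.hsMul h2 (s ^ 2))
          (hM.hsAdd (hM.hsMul h1 (-2 * s ^ 2 - 2 * s * m))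
            (hM.hsMul hM.hsOne ((m : ℝ) ^ 2 + s ^ 2 + 2 * s * m))))))
      have h6 := hs_nonneg hM h5 (fun v => by
        have h7 : T v ^ 2 + ((2 * (m : ℝ) + 2 * s) * T v + (-2 * s * (T v * fixn K F (σ v)) +
            (s ^ 2 * (fixn K F (σ v) : ℝ) ^ 2 + ((-2 * s ^ 2 - 2 * s * m) * (fixn K F (σ v) : ℝ) +
              ((m : ℝ) ^ 2 + s ^ 2 + 2 * s * m) * 1)))) =
            ((T v + m) - s * ((fixn K F (σ v) : ℝ) - 1)) ^ 2 := by ring
        rw [h7]
        exact sq_nonneg _)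
      linarith
    have h5 := discrim_le_zero h4
    rw [discrim] at h5
    nlinarith
  intro F _ _ k hk
  have h1 := hmain F k hk
  exact_mod_cast h1

end

end Pool.Agent.TH129.RS
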