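import Pool.Agent.TH129.RS.Unit
import Pool.Agent.TH129.RS.Fields
import Pool.Agent.TH129.ST.Words

/-!
# The equality case: the traces are close to a constant with a power saving
-/

set_option autoImplicit false

namespace Pool.Agent.TH129.RS

open Filter Topology NumberField IsDedekindDomain Polynomial
open Pool.Agent.H921R2.TatePole (nm two_le_nm)
open Pool.Agent.TH129.ST (eulerProduct HasPoleOrder unit unit_norm)
open Pool.Agent.W353.EF (IsFrobenius OrderOver LFun)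
open Pool.Agent.W353.PV (Eig)

section
variable {K : Type} [Field K] [NumberField K] {l : ℕ} {X : Set (MvPolynomial (Fin l) (𝓞 K))}
  {d i N : ℕ}

theorem q_ne (v : HeightOneSpectrum (𝓞 K)) : (Ideal.absNorm v.asIdeal : ℂ) ≠ 0 := by
  have h2 : 2 ≤ Ideal.absNorm v.asIdeal := two_le_nm v
  have : Ideal.absNorm v.asIdeal ≠ 0 := by omega
  exact_mod_cast this

/-- the normalising factor is real -/
theorem conj_c (v : HeightOneSpectrum (𝓞 K)) : (starRingEnd ℂ)
    ((Ideal.absNorm v.asIdeal : ℂ) ^ (-((i : ℂ) / 2))) =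
      (Ideal.absNorm v.asIdeal : ℂ) ^ (-((i : ℂ) / 2)) := by
  have h1 := cpow_real v ((i : ℝ) / 2)
  have h2 : (-(((i : ℝ) / 2 : ℝ) : ℂ)) = -((i : ℂ) / 2) := by push_cast; ring
  rw [h2] at h1
  rw [h1, Complex.conj_ofReal]

/-- the power sums are real -/
theorem ps_im (hi : i ≤ 2 * d) {v : HeightOneSpectrum (𝓞 K)}
    {α : HeightOneSpectrum (𝓞 K) → Fin N → ℂ} (h : IsFrobenius X d i v (α v)) (k : ℕ) :
    (∑ j, unit i α v j ^ k).im = 0 := by
  have h1 : Eig X d i v (α v) := h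
  have h2 := congrArg (fun s : Multiset ℂ => (s.map fun a =>
    (a * (Ideal.absNorm v.asIdeal : ℂ) ^ (-((i : ℂ) / 2))) ^ k).sum) (h1.unique' hi h1.conj)
  simp only [Multiset.map_map] at h2
  have h3 : ∑ j, unit i α v j ^ k = ∑ j, ((starRingEnd ℂ) (α v j) *
      (Ideal.absNorm v.asIdeal : ℂ) ^ (-((i : ℂ) / 2))) ^ k := h2
  have h4 : ∑ j, ((starRingEnd ℂ) (α v j) *
      (Ideal.absNorm v.asIdeal : ℂ) ^ (-((i : ℂ) / 2))) ^ k =
      (starRingEnd ℂ) (∑ j, unit i α v j ^ k) := by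
    rw [map_sum]
    refine Finset.sum_congr rfl fun j _ => ?_
    unfold unit
    rw [map_pow, map_mul, conj_c]
  rw [h4] at h3
  exact Complex.conj_eq_iff_im.1 h3.symm

/-- the order at `i/2 + 1`, in the normalisation with the edge `Re s = 1` -/
theorem shift_order (hi : i ≤ 2 * d) {m : ℤ} (h : OrderOver X d i N K m)
    {α : HeightOneSpectrum (𝓞 K) → Fin N → ℂ}
    (hα : ∀ᶠ v in cofinite, IsFrobenius X d i v (α v)) :
    ∃ B : HeightOneSpectrum (𝓞 K) → ℂ[X],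
      (∀ᶠ v in cofinite, ∀ z : ℂ, (B v).eval z = ∏ j, (1 - unit i α v j * z)) ∧
      (∀ v, (B v).eval ((Ideal.absNorm v.asIdeal : ℂ) ^ (-(1 : ℂ))) ≠ 0) ∧
      HasPoleOrder B (-m) := by
  obtain ⟨_, B, hB, Λ, h1, h2, h3⟩ := h
  have hev : ∀ (v : HeightOneSpectrum (𝓞 K)) (z : ℂ), ((B v).comp
      (C ((Ideal.absNorm v.asIdeal : ℂ) ^ (-((i : ℂ) / 2))) * Polynomial.X)).eval z =
        (B v).eval ((Ideal.absNorm v.asIdeal : ℂ) ^ (-((i : ℂ) / 2)) * z) := by
    intro v z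
    rw [eval_comp, eval_mul, eval_C, eval_X]
  refine ⟨fun v => (B v).comp (C ((Ideal.absNorm v.asIdeal : ℂ) ^ (-((i : ℂ) / 2))) * Polynomial.X),
    ?_, fun v => ?_, fun s => Λ (s + (i : ℂ) / 2), ?_, ?_, ?_⟩
  · filter_upwards [hB.1, hα] with v hv hv' z
    obtain ⟨β, h4, h5⟩ := hv
    rw [hev, h5]
    have h6 : Eig X d i v β := h4
    have h7 : Eig X d i v (α v) := hv'
    have h8 := congrArg (fun s : Multiset ℂ => (s.map fun a =>
      (1 - a * ((Ideal.absNorm v.asIdeal : ℂ) ^ (-((i : ℂ) / 2)) * z))).prod) (h6.unique' hi h7)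
    simp only [Multiset.map_map] at h8
    have h9 : ∏ j, (1 - β j * ((Ideal.absNorm v.asIdeal : ℂ) ^ (-((i : ℂ) / 2)) * z)) =
      ∏ j, (1 - α v j * ((Ideal.absNorm v.asIdeal : ℂ) ^ (-((i : ℂ) / 2)) * z)) := h8
    rw [h9]
    refine Finset.prod_congr rfl fun j _ => ?_
    unfold unit
    ring
  · rw [hev, ← Complex.cpow_add _ _ (q_ne v)]
    have h4 := hB.2 v
    have e : -((i : ℂ) / 2) + -1 = -((i : ℂ) / 2 + 1) := by ring
    rw [e]
    exact h4
  · have h4 : MeromorphicAt Λ (1 + (i : ℂ) / 2) := by rwa [add_comm]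
    exact (meromorphicAt_fun_comp_add_const_iff_meromorphicAt (c := (i : ℂ) / 2)).mpr h4
  · have h4 : Tendsto (fun s : ℂ => s + (i : ℂ) / 2) (𝓝 1) (𝓝 ((i : ℂ) / 2 + 1)) := by
      have h5 : Continuous fun s : ℂ => s + (i : ℂ) / 2 := by fun_prop
      have h6 := h5.tendsto 1
      rwa [add_comm (1 : ℂ)] at h6
    filter_upwards [h4.eventually h2] with s hs hs1
    rw [hs (by
      rw [Complex.add_re]
      have : ((i : ℂ) / 2).re = (i : ℝ) / 2 := by simp
      rw [this]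
      linarith)]
    unfold LFun eulerProduct
    refine tprod_congr fun v => ?_
    rw [hev, ← Complex.cpow_add _ _ (q_ne v)]
    congr 3
    ring
  · rw [meromorphicOrderAt_fun_comp_add_const_eq_meromorphicOrderAt (c := (i : ℂ) / 2), add_comm,
      neg_neg]
    exact h3

/-- the tensor square -/
theorem square_eval (hi : i ≤ 2 * d) {B : HeightOneSpectrum (𝓞 K) → ℂ[X]}
    (hB : IsSquareSystem X d i N B) {α : HeightOneSpectrum (𝓞 K) → Fin N → ℂ}
    (hα : ∀ᶠ v in cofinite, IsFrobenius X d i v (α v)) :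
    ∀ᶠ v in cofinite, ∀ z : ℂ, (B v).eval z = ∏ x : Fin (N * N),
      (1 - (unit i α v (finProdFinEquiv.symm x).1 * unit i α v (finProdFinEquiv.symm x).2) * z) := by
  filter_upwards [hB.1, hα] with v hv hv' z
  obtain ⟨β, h4, h5⟩ := hv
  have h6 : Eig X d i v β := h4
  have h7 : Eig X d i v (α v) := hv'
  rw [h5 z]
  have h8 : ∏ j, ∏ k, (1 - β j * β k * (Ideal.absNorm v.asIdeal : ℂ) ^ (-(i : ℂ)) * z) =
      ∏ j, ∏ k, (1 - α v j * α v k * (Ideal.absNorm v.asIdeal : ℂ) ^ (-(i : ℂ)) * z) := by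
    have h9 := congrArg (fun s : Multiset ℂ => (s.map fun a => (s.map fun b =>
      (1 - a * b * (Ideal.absNorm v.asIdeal : ℂ) ^ (-(i : ℂ)) * z)).prod).prod)
      (h6.unique' hi h7)
    simp only [Multiset.map_map] at h9
    exact h9
  rw [h8, ← Fintype.prod_prod_type', ← Equiv.prod_comp finProdFinEquiv.symm]
  refine Finset.prod_congr rfl fun x _ => ?_
  have hcc : (Ideal.absNorm v.asIdeal : ℂ) ^ (-(i : ℂ)) =
      (Ideal.absNorm v.asIdeal : ℂ) ^ (-((i : ℂ) / 2)) *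
        (Ideal.absNorm v.asIdeal : ℂ) ^ (-((i : ℂ) / 2)) := by
    rw [← Complex.cpow_add _ _ (q_ne v)]
    congr 1
    ring
  rw [hcc]
  unfold unit
  ring

/-- the power sums of the products -/
theorem ps_sq (u : Fin N → ℂ) (k : ℕ) (h : (∑ j, u j ^ k).im = 0) :
    (∑ x : Fin (N * N), (u (finProdFinEquiv.symm x).1 * u (finProdFinEquiv.symm x).2) ^ k).re =
      (∑ j, u j ^ k).re ^ 2 := by
  have h1 : ∑ x : Fin (N * N), (u (finProdFinEquiv.symm x).1 * u (finProdFinEquiv.symm x).2) ^ k =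
      (∑ j, u j ^ k) * ∑ j, u j ^ k := by
    rw [Finset.sum_mul_sum, ← Fintype.sum_prod_type']
    rw [← Equiv.sum_comp finProdFinEquiv.symm]
    exact Finset.sum_congr rfl fun x _ => mul_pow _ _ _
  rw [h1, Complex.mul_re, h, mul_zero, sub_zero, sq]

/-- the real power sums -/
noncomputable def ps (i : ℕ) (α : HeightOneSpectrum (𝓞 K) → Fin N → ℂ)
    (p : HeightOneSpectrum (𝓞 K) × ℕ) : ℝ := (∑ j, unit i α p.1 j ^ (p.2 + 1)).re

open Classical in
/-- **The equality case.** -/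
theorem power_saving (hi : i ≤ 2 * d) {n m : ℤ} (hn : SquarePole X d i N n)
    (hm : OrderOver X d i N K m) (hmn : m ^ 2 = n) {α : HeightOneSpectrum (𝓞 K) → Fin N → ℂ}
    (hα : ∀ᶠ v in cofinite, IsFrobenius X d i v (α v)) :
    ∃ S : Finset (HeightOneSpectrum (𝓞 K)), (∀ v ∉ S, IsFrobenius X d i v (α v)) ∧
      ∃ t < (1 : ℝ), Summable fun p : HeightOneSpectrum (𝓞 K) × ℕ =>
        (if p.1 ∈ S then 0 else (ps i α p + m) ^ 2 / ((p.2 : ℝ) + 1)) * Real.exp (-(t * Lq p)) := by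
  obtain ⟨B₂, hB₂, hn⟩ := hn
  obtain ⟨B₁, hB₁, hne, hm1⟩ := shift_order hi hm hα
  have hall := (hα.and (hB₁.and (square_eval hi hB₂ hα)))
  set S : Finset (HeightOneSpectrum (𝓞 K)) := (Filter.eventually_cofinite.mp hall).toFinset with hS
  have hgood : ∀ v ∉ S, IsFrobenius X d i v (α v) ∧
      (∀ z : ℂ, (B₁ v).eval z = ∏ j, (1 - unit i α v j * z)) ∧
      ∀ z : ℂ, (B₂ v).eval z = ∏ x : Fin (N * N),
        (1 - (unit i α v (finProdFinEquiv.symm x).1 * unit i α v (finProdFinEquiv.symm x).2) * z) := by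
    intro v hv
    rw [hS, Set.Finite.mem_toFinset, Set.mem_ofPred_eq, not_not] at hv
    exact hv
  refine ⟨S, fun v hv => (hgood v hv).1, ?_⟩
  set w₂ : HeightOneSpectrum (𝓞 K) → Fin (N * N) → ℂ := fun v x =>
    unit i α v (finProdFinEquiv.symm x).1 * unit i α v (finProdFinEquiv.symm x).2 with hw₂
  have hu : ∀ v ∉ S, ∀ j, ‖unit i α v j‖ = 1 := fun v hv j => unit_norm (hgood v hv).1 j
  have hu2 : ∀ v ∉ S, ∀ x, ‖w₂ v x‖ = 1 := fun v hv x => by
    simp only [hw₂]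
    rw [norm_mul, hu v hv, hu v hv, one_mul]
  have hA1 : AL (fun σ => ∑' p, cw S (unit i α) p * Real.exp (-(σ * Lq p))) ((-m : ℤ) : ℝ) := by
    refine AL_unit (fun v hv => ⟨hu v hv, ?_, (hgood v hv).2.1⟩) hne hm1
    have h1 := ps_im hi (hgood v hv).1 1
    simpa using h1
  have hA2 : AL (fun σ => ∑' p, cw S w₂ p * Real.exp (-(σ * Lq p))) ((n : ℤ) : ℝ) := by
    refine AL_unit (fun v hv => ⟨hu2 v hv, ?_, (hgood v hv).2.2⟩) hB₂.2 hn
    have h1 := ps_im hi (hgood v hv).1 1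
    simp only [pow_one] at h1
    have h2 : ∑ x, w₂ v x = (∑ j, unit i α v j) * ∑ j, unit i α v j := by
      rw [Finset.sum_mul_sum, ← Fintype.sum_prod_type', ← Equiv.sum_comp finProdFinEquiv.symm]
    rw [h2, Complex.mul_im, h1, mul_zero, zero_mul, add_zero]
  have hA0 := AL_zeta_drop (K := K) S
  set c : HeightOneSpectrum (𝓞 K) × ℕ → ℝ := fun p =>
    if p.1 ∈ S then 0 else (ps i α p + m) ^ 2 / ((p.2 : ℝ) + 1) with hc
  have hceq : ∀ p, c p = cw S w₂ p + (2 * (m : ℝ)) * cw S (unit i α) p +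
      (m : ℝ) ^ 2 * cw S (fun _ (_ : Fin 1) => 1) p := by
    intro p
    simp only [hc]
    unfold cw
    by_cases hp : p.1 ∈ S
    · simp only [if_pos hp]
      ring
    · simp only [if_neg hp]
      have h1 : (∑ x, w₂ p.1 x ^ (p.2 + 1)).re = ps i α p ^ 2 :=
        ps_sq (unit i α p.1) (p.2 + 1) (ps_im hi (hgood p.1 hp).1 (p.2 + 1))
      have h2 : (∑ j, unit i α p.1 j ^ (p.2 + 1)).re = ps i α p := rfl
      rw [h1, h2]
      simp only [one_pow, Finset.sum_const, Finset.card_univ, Fintype.card_fin, one_smul,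
        Complex.one_re]
      ring
  have hsum : ∀ {M : ℕ} {w : HeightOneSpectrum (𝓞 K) → Fin M → ℂ} (_ : ∀ v ∉ S, ∀ j, ‖w v j‖ = 1)
      {σ : ℝ} (_ : 1 < σ), Summable fun p => cw S w p * Real.exp (-(σ * Lq p)) := by
    intro M w hw σ hσ
    refine Summable.of_norm ?_
    refine (summ_bdd (abs_cw_le hw) hσ).congr fun p => ?_
    rw [norm_mul, Real.norm_eq_abs, Real.norm_of_nonneg (Real.exp_pos _).le]
  have hsz := fun {σ : ℝ} (hσ : 1 < σ) => hsum (w := fun _ (_ : Fin 1) => (1 : ℂ))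
    (fun v _ j => norm_one) hσ
  have hcs : ∀ σ : ℝ, 1 < σ → HasSum (fun p => c p * Real.exp (-(σ * Lq p)))
      (∑' p, cw S w₂ p * Real.exp (-(σ * Lq p)) +
        (2 * (m : ℝ)) * ∑' p, cw S (unit i α) p * Real.exp (-(σ * Lq p)) +
        (m : ℝ) ^ 2 * ∑' p, cw S (fun _ (_ : Fin 1) => 1) p * Real.exp (-(σ * Lq p))) := by
    intro σ hσ
    have h1 := ((hsum hu2 hσ).hasSum.add ((hsum hu hσ).hasSum.mul_left (2 * (m : ℝ)))).add
      ((hsz hσ).hasSum.mul_left ((m : ℝ) ^ 2))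
    have h2 : (fun p => c p * Real.exp (-(σ * Lq p))) = fun p =>
        cw S w₂ p * Real.exp (-(σ * Lq p)) +
          (2 * (m : ℝ)) * (cw S (unit i α) p * Real.exp (-(σ * Lq p))) +
          (m : ℝ) ^ 2 * (cw S (fun _ (_ : Fin 1) => 1) p * Real.exp (-(σ * Lq p))) := by
      funext p
      rw [hceq]
      ring
    rw [h2]
    exact h1
  have hAL := (hA2.add (hA1.const_mul (2 * (m : ℝ)))).add (hA0.const_mul ((m : ℝ) ^ 2))
  have hk : ((n : ℤ) : ℝ) + 2 * (m : ℝ) * ((-m : ℤ) : ℝ) + (m : ℝ) ^ 2 * 1 = 0 := by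
    rw [← hmn]
    push_cast
    ring
  rw [hk] at hAL
  obtain ⟨g, hg, hgeq⟩ := hAL
  have : Countable (HeightOneSpectrum (𝓞 K)) := countable_pr
  refine Pool.Agent.W189.TP.landau_sum (c := c) (L := Lq) (s := 1) (g := g) (fun p => ?_)
    Lq_nonneg hg (fun t ht => (hcs t ht).summable) ?_
  · simp only [hc]
    split_ifs
    · exact le_rfl
    · positivity
  · filter_upwards [hgeq, self_mem_nhdsWithin] with σ h1 hσ
    have hσ1 : (1 : ℝ) < σ := hσ
    rw [(hcs σ hσ1).tsum_eq, h1]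
    ring

end

end Pool.Agent.TH129.RS
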