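import Pool.Agent.TH129.RS.Dim
import Pool.Agent.TH129.RS.Landau

/-!
# Concentration of the normalised traces in the equality case
-/

set_option autoImplicit false

namespace Pool.Agent.TH129.RS

open Complex Filter Topology ComplexConjugate Pool.Agent.H341R2 NumberField IsDedekindDomain
  Pool.Agent.W401.Cheb Pool.Agent.W540.BE Polynomial Pool.Agent.W353.L1
open Pool.Agent.W353.EF (IsFrobenius LFun)
open Pool.Agent.W353.EH (edgePoint size HasOrder)
open Pool.Agent.W353.PV (Eig alp tF pick_spec lim_ord)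
open Pool.Agent.W353.AT (IsArtin IsTwistedSystem TwistOrder tw_size tw_lim exists_common edgeBessel)
open Pool.Agent.TH129.ST (eulerProduct HasPoleOrder IsUnitSystem unit)

section
variable {K : Type} [Field K] [NumberField K]

/-- subsets -/
theorem DensityZero.mono {A A' : Set (HeightOneSpectrum (𝓞 K))} (h : DensityZero A')
    (hA : A ⊆ A') : DensityZero A := by
  classical
  refine squeeze_zero' ?_ ?_ h
  · filter_upwards [self_mem_nhdsWithin, Ioo_mem_nhdsGT (zero_lt_one (α := ℝ))] with ε hε hε1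
    have h1 : 0 ≤ Real.log (1 / ε) := Real.log_nonneg (by
      rw [one_div]
      exact (one_le_inv₀ hε1.1).mpr hε1.2.le)
    exact div_nonneg (tsum_nonneg fun v => by positivity) h1
  · filter_upwards [self_mem_nhdsWithin, Ioo_mem_nhdsGT (zero_lt_one (α := ℝ))] with ε hε hε1
    have h1 : 0 ≤ Real.log (1 / ε) := Real.log_nonneg (by
      rw [one_div]
      exact (one_le_inv₀ hε1.1).mpr hε1.2.le)
    have hε0 : (0 : ℝ) < ε := hε
    refine div_le_div_of_nonneg_right ?_ h1
    have hs : Summable fun v : HeightOneSpectrum (𝓞 K) =>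
        (Ideal.absNorm v.asIdeal : ℝ) ^ (-(1 + ε)) :=
      (normSys (F := K)).summable (-(1 + ε)) (by linarith)
    rw [tsum_subtype A fun v => (Ideal.absNorm v.asIdeal : ℝ) ^ (-(1 + ε)),
      tsum_subtype A' fun v => (Ideal.absNorm v.asIdeal : ℝ) ^ (-(1 + ε))]
    refine Summable.tsum_le_tsum (fun v => ?_) (hs.indicator A) (hs.indicator A')
    exact Set.indicator_le_indicator_of_subset hA (fun v => by positivity) v

/-- a set on which a nonnegative function with the mean value zero is large -/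
theorem density_of_has {φ : HeightOneSpectrum (𝓞 K) → ℝ} (h : Has φ 0) (h0 : ∀ v, 0 ≤ φ v)
    {η : ℝ} (hη : 0 < η) {A : Set (HeightOneSpectrum (𝓞 K))}
    (hA : ∀ᶠ v in cofinite, v ∈ A → η ≤ φ v) : DensityZero A := by
  classical
  set bad : HeightOneSpectrum (𝓞 K) → ℝ := fun v => if v ∈ A → η ≤ φ v then 0 else 1 with hbad
  set ψ : HeightOneSpectrum (𝓞 K) → ℝ := fun v => if v ∈ A then 1 else 0 with hψ
  have h1 : Has bad 0 := by
    refine has_fin (b := 1) (fun v => ?_) (hA.mono fun v hv => ?_)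
    · simp only [hbad]
      split_ifs <;> simp
    · simp only [hbad]
      rw [if_pos hv]
  have h2 := (h.const_mul η⁻¹).add h1
  rw [mul_zero, add_zero] at h2
  obtain ⟨⟨b, hb⟩, h3⟩ := h2
  have hψ1 : ∀ v, |ψ v| ≤ 1 := by
    intro v
    simp only [hψ]
    split_ifs <;> simp
  have hle : ∀ v, ψ v ≤ η⁻¹ * φ v + bad v := by
    intro v
    have h4 : 0 ≤ η⁻¹ * φ v := mul_nonneg (inv_nonneg.mpr hη.le) (h0 v)
    simp only [hψ, hbad]
    by_cases hv : v ∈ A
    · rw [if_pos hv]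
      by_cases hv2 : η ≤ φ v
      · rw [if_pos fun _ => hv2, add_zero]
        rw [inv_mul_eq_div, le_div_iff₀ hη, one_mul]
        exact hv2
      · rw [if_neg fun h => hv2 (h hv)]
        linarith
    · rw [if_neg hv, if_pos fun h => absurd h hv, add_zero]
      exact h4
  obtain ⟨C, hC⟩ := lam_bounded
  have hlog : Tendsto (fun ε : ℝ => -Real.log ε) (𝓝[>] 0) atTop :=
    tendsto_neg_atBot_atTop.comp Real.tendsto_log_nhdsGT_zero
  have h5 : Tendsto (fun ε : ℝ => 2 * ((EP (nm K) ε fun v => η⁻¹ * φ v + bad v) / lam ε))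
      (𝓝[>] 0) (𝓝 0) := by
    have := h3.const_mul 2
    rwa [mul_zero] at this
  refine squeeze_zero' ?_ ?_ h5
  · filter_upwards [Ioo_mem_nhdsGT (zero_lt_one (α := ℝ))] with ε hε1
    have h1 : 0 ≤ Real.log (1 / ε) := Real.log_nonneg (by
      rw [one_div]
      exact (one_le_inv₀ hε1.1).mpr hε1.2.le)
    exact div_nonneg (tsum_nonneg fun v => by positivity) h1
  · filter_upwards [self_mem_nhdsWithin, hC, hlog.eventually_ge_atTop |C|,
      hlog.eventually_gt_atTop 0, lam_tendsto.eventually_gt_atTop 0] with ε hε h6 h7 h8 h9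
    have hε0 : (0 : ℝ) < ε := hε
    have h10 : Real.log (1 / ε) = -Real.log ε := by rw [one_div, Real.log_inv]
    have h11 : lam ε ≤ 2 * Real.log (1 / ε) := by
      have h12 := (abs_le.1 h6).2
      have h13 := le_abs_self C
      rw [h10]
      linarith
    have h12 : (∑' v : A, (Ideal.absNorm v.1.asIdeal : ℝ) ^ (-(1 + ε))) = EP (nm K) ε ψ := by
      rw [tsum_subtype A fun v => (Ideal.absNorm v.asIdeal : ℝ) ^ (-(1 + ε))]
      unfold EP
      refine tsum_congr fun v => ?_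
      simp only [hψ, Set.indicator_apply, ite_mul, one_mul, zero_mul]
      rfl
    have h13 : EP (nm K) ε ψ ≤ EP (nm K) ε fun v => η⁻¹ * φ v + bad v :=
      EP_mono hψ1 hb hle hε0
    have h14 : 0 ≤ EP (nm K) ε ψ := EP_nonneg fun v => by
      simp only [hψ]
      split_ifs <;> norm_num
    rw [h12]
    have hL : 0 < Real.log (1 / ε) := by rw [h10]; exact h8
    rw [div_le_iff₀ hL]
    have h15 : EP (nm K) ε ψ ≤ (EP (nm K) ε fun v => η⁻¹ * φ v + bad v) / lam ε *
        (2 * Real.log (1 / ε)) := by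
      calc EP (nm K) ε ψ ≤ EP (nm K) ε fun v => η⁻¹ * φ v + bad v := h13
        _ = (EP (nm K) ε fun v => η⁻¹ * φ v + bad v) / lam ε * lam ε := by
            rw [div_mul_cancel₀ _ h9.ne']
        _ ≤ _ := mul_le_mul_of_nonneg_left h11 (div_nonneg (h14.trans h13) h9.le)
    linarith

end

section
variable {K : Type} [Field K] [NumberField K] {l : ℕ} {X : Set (MvPolynomial (Fin l) (𝓞 K))}
  {d i N : ℕ}

/-- the normalised trace for a given list of eigenvalues -/
theorem tF_unit (hi : i ≤ 2 * d) {α : HeightOneSpectrum (𝓞 K) → Fin N → ℂ}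
    {v : HeightOneSpectrum (𝓞 K)} (h : IsFrobenius X d i v (α v)) :
    (tF X d i N K v : ℂ) = ∑ j, unit i α v j := by
  have h1 : Eig X d i v (α v) := h
  have h3 : Eig X d i v (alp X d i N K v) := pick_spec ⟨α v, h⟩
  have h5 := tr_eq (w := (i : ℝ) / 2) (α := alp X d i N K) (v := v) (fun j => h3.norm j)
    (h3.im hi)
  have h6 : (tF X d i N K v : ℂ) = (tr ((i : ℝ) / 2) (alp X d i N K) v : ℂ) := rfl
  have h4 := congrArg (fun s : Multiset ℂ => (s.map fun a =>
    a * (Ideal.absNorm v.asIdeal : ℂ) ^ (-((i : ℂ) / 2))).sum) (h1.unique' hi h3)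
  simp only [Multiset.map_map] at h4
  have h7 : ∑ j, α v j * (Ideal.absNorm v.asIdeal : ℂ) ^ (-((i : ℂ) / 2)) =
      ∑ j, alp X d i N K v j * (Ideal.absNorm v.asIdeal : ℂ) ^ (-((i : ℂ) / 2)) := h4
  have h8 : ∑ j, unit i α v j = ∑ j, α v j * (Ideal.absNorm v.asIdeal : ℂ) ^ (-((i : ℂ) / 2)) :=
    rfl
  rw [h6, h5, h8, h7, ← Finset.sum_mul]
  congr 2
  push_cast
  ring

/-- **The mean value of the defect.** -/
theorem has_defect (hi : i ≤ 2 * d) {n : ℤ} (hn : SquarePole X d i N n) (κ : Type) [Fintype κ]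
    (r : κ → ℕ) (ρ : ∀ k, Representation ℂ Gal(AlgebraicClosure K/K) (Fin (r k) → ℂ)) (τ : κ → ℝ)
    (hA : ∀ k, IsArtin (ρ k)) (hirr : ∀ k, (ρ k).IsIrreducible)
    (hne : ∀ k l, k ≠ l → τ k = τ l → IsEmpty ((ρ k).Equiv (ρ l)))
    (m : κ → ℤ) (hm : ∀ k, TwistOrder X d i N (ρ k) (τ k) (m k))
    (σ : HeightOneSpectrum (𝓞 K) → GK K) (hσ : ∀ v, IsFrob v (σ v)) :
    Has (fun v => ‖(tF X d i N K v : ℂ) + ∑ k, (m k : ℂ) *
      ((ρ k).character (σ v)⁻¹ * zz (τ k) v)‖ ^ 2) ((n : ℝ) - ∑ k, (m k : ℝ) ^ 2) := by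
  classical
  choose B hB hm using hm
  obtain ⟨U, hUn, hU, hρ⟩ := exists_common ρ hA
  have hfin : Finite (GK K ⧸ U) := Subgroup.quotient_finite_of_isOpen U hU
  have h1 := has_sq hi hn
  have h2 : ∀ k, Has (fun v => tF X d i N K v * RR (ρ k) (τ k) σ v) (-(m k : ℝ)) := by
    intro k
    refine ⟨⟨N * r k, fun v => ?_⟩, ?_⟩
    · rw [abs_mul]
      exact mul_le_mul (bound_tF v) (abs_RR_le U (ρ k) (hρ k) _ _ _) (abs_nonneg _)
        (Nat.cast_nonneg _)
    · have h3 := (tw_size hi U (ρ k) (hρ k) (τ k) (B k) (hB k) σ hσ).2.add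
        (tw_lim hi U (ρ k) (hρ k) (τ k) (B k) (hB k) (hm k))
      rw [zero_add] at h3
      exact h3.congr fun ε => by ring
  have hPh : ∀ p : κ × κ, Has (PP U ρ hρ τ σ p.1 p.2) (if p.1 = p.2 then 1 else 0) := by
    rintro ⟨k, m⟩
    have h3 := ((chF U ρ hρ k).mul (chF U ρ hρ m).star).has hU σ hσ (τ k - τ m)
    refine h3.congr (fun v => rfl) ?_
    by_cases hkm : k = m
    · subst hkm
      rw [sub_self, if_pos rfl, if_pos rfl]
      have h4 := avC_ortho U ρ hρ (hirr k) (hirr k)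
      rw [if_pos ⟨Representation.Equiv.refl _⟩] at h4
      have h5 : avC U ((chF U ρ hρ k).mul (chF U ρ hρ k).star).f = 1 := h4
      rw [h5, Complex.one_re]
    · rw [if_neg hkm]
      by_cases ht : τ k - τ m = 0
      · rw [if_pos ht]
        have h4 := avC_ortho U ρ hρ (hirr k) (hirr m)
        rw [if_neg (by
          rw [not_nonempty_iff]
          exact hne k m hkm (sub_eq_zero.1 ht))] at h4
        have h5 : avC U ((chF U ρ hρ k).mul (chF U ρ hρ m).star).f = 0 := h4
        rw [h5, Complex.zero_re]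
      · rw [if_neg ht]
  set c : κ → ℝ := fun k => -(m k : ℝ) with hc
  have h4 := h1.add ((Pool.Agent.W353.AT.Has.sum Finset.univ fun k _ =>
    (h2 k).const_mul (-2 * c k)).add
    (Pool.Agent.W353.AT.Has.sum Finset.univ fun p _ => (hPh p).const_mul (c p.1 * c p.2)))
  refine h4.congr (fun v => ?_) ?_
  · rw [pt_eq U ρ hρ τ σ (tF X d i N K v) c v]
    congr 2
    rw [sub_eq_add_neg, ← Finset.sum_neg_distrib]
    congr 1
    refine Finset.sum_congr rfl fun k _ => ?_
    have h5 : (chF U ρ hρ k).f (QuotientGroup.mk (σ v)) = (ρ k).character (σ v)⁻¹ := rfl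
    rw [h5, hc]
    push_cast
    ring
  · have h6 : ∑ p : κ × κ, c p.1 * c p.2 * (if p.1 = p.2 then (1 : ℝ) else 0) =
        ∑ k, (m k : ℝ) ^ 2 := by
      rw [Fintype.sum_prod_type]
      refine Finset.sum_congr rfl fun k _ => ?_
      simp only [mul_ite, mul_one, mul_zero]
      rw [Finset.sum_ite_eq, if_pos (Finset.mem_univ _), hc]
      ring
    have h7 : ∑ k, -2 * c k * -(m k : ℝ) = -2 * ∑ k, (m k : ℝ) ^ 2 := by
      rw [Finset.mul_sum]
      refine Finset.sum_congr rfl fun k _ => ?_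
      rw [hc]
      ring
    rw [h6, h7]
    ring

/-- **Concentration.** -/
theorem concentration (hi : i ≤ 2 * d) {n : ℤ} (hn : SquarePole X d i N n) :
    Concentration X d i N n := by
  classical
  intro κ _ r ρ τ hA hirr hne m hm hmn α hα σ hσ η hη
  have h1 := has_defect hi hn κ r ρ τ hA hirr hne m hm σ hσ
  have h2 : (n : ℝ) - ∑ k, (m k : ℝ) ^ 2 = 0 := by
    rw [← hmn]
    push_cast
    ring
  rw [h2] at h1
  refine density_of_has h1 (fun v => sq_nonneg _) (pow_pos hη 2) (hα.mono fun v hv hvA => ?_)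
  have h3 : η ≤ ‖∑ j, unit i α v j + ∑ k, (m k : ℂ) *
      ((ρ k).character (σ v)⁻¹ * (Ideal.absNorm v.asIdeal : ℂ) ^ (-(τ k * Complex.I)))‖ := hvA
  rw [← tF_unit hi hv] at h3
  exact pow_le_pow_left₀ hη.le h3 2

end

end Pool.Agent.TH129.RS
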