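import Pool.Agent.TH129.RS.Landau

/-!
# The equality case: Euler products to the left of the edge
-/

set_option autoImplicit false

namespace Pool.Agent.TH129.RS

open Filter Topology NumberField IsDedekindDomain Polynomial
open Pool.Agent.H921R2.TatePole (nm two_le_nm)
open Pool.Agent.TH129.ST (unit unit_norm)
open Pool.Agent.W353.EF (IsFrobenius OrderOver LFun)

/-- the logarithm -/
theorem log_one {w z : ℂ} (hw : ‖w‖ = 1) (hz : ‖z‖ < 1) :
    HasSum (fun k : ℕ => w ^ (k + 1) / ((k : ℂ) + 1) * z ^ (k + 1)) (-Complex.log (1 - w * z)) := by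
  have h1 : ‖w * z‖ < 1 := by rw [norm_mul, hw, one_mul]; exact hz
  have h3 := Complex.hasSum_taylorSeries_neg_log h1
  have h4 := (hasSum_nat_add_iff' 1).mpr h3
  simp only [Finset.range_one, Finset.sum_singleton, pow_zero, Nat.cast_zero, div_zero,
    sub_zero] at h4
  have e : (fun k : ℕ => w ^ (k + 1) / ((k : ℂ) + 1) * z ^ (k + 1)) =
      fun k : ℕ => (w * z) ^ (k + 1) / ((k + 1 : ℕ) : ℂ) := by
    funext k
    rw [mul_pow]
    push_cast
    ring
  rw [e]
  exact h4

/-- the local logarithm -/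
theorem local_sum {N r : ℕ} {u : Fin N → ℂ} {e : Fin r → ℂ} (hu : ∀ j, ‖u j‖ = 1)
    (he : ∀ a, ‖e a‖ = 1) (m : ℤ) {z : ℂ} (hz : ‖z‖ < 1) :
    HasSum (fun k : ℕ => (∑ a, e a ^ (k + 1)) * ((∑ j, u j ^ (k + 1)) + m) / ((k : ℂ) + 1) *
      z ^ (k + 1))
      (∑ a, ((∑ j, -Complex.log (1 - e a * u j * z)) + m * (-Complex.log (1 - e a * z)))) := by
  have h1 : ∀ a, HasSum (fun k : ℕ => (∑ j, (e a * u j) ^ (k + 1) / ((k : ℂ) + 1) * z ^ (k + 1)) +
      m * (e a ^ (k + 1) / ((k : ℂ) + 1) * z ^ (k + 1)))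
      ((∑ j, -Complex.log (1 - e a * u j * z)) + m * (-Complex.log (1 - e a * z))) := by
    intro a
    refine (hasSum_sum fun j _ => log_one ?_ hz).add ((log_one (he a) hz).mul_left _)
    rw [norm_mul, he, hu, one_mul]
  have h2 := hasSum_sum (s := Finset.univ) fun a _ => h1 a
  have h3 : (fun k : ℕ => (∑ a, e a ^ (k + 1)) * ((∑ j, u j ^ (k + 1)) + m) / ((k : ℂ) + 1) *
      z ^ (k + 1)) = fun k : ℕ => ∑ a, ((∑ j, (e a * u j) ^ (k + 1) / ((k : ℂ) + 1) * z ^ (k + 1)) +
      m * (e a ^ (k + 1) / ((k : ℂ) + 1) * z ^ (k + 1))) := by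
    funext k
    rw [Finset.sum_mul, Finset.sum_div, Finset.sum_mul]
    refine Finset.sum_congr rfl fun a _ => ?_
    have h4 : ∑ j, (e a * u j) ^ (k + 1) / ((k : ℂ) + 1) * z ^ (k + 1) =
        e a ^ (k + 1) * (∑ j, u j ^ (k + 1)) / ((k : ℂ) + 1) * z ^ (k + 1) := by
      rw [Finset.mul_sum, Finset.sum_div, Finset.sum_mul]
      exact Finset.sum_congr rfl fun j _ => by rw [mul_pow]
    rw [h4]
    ring
  rw [h3]
  exact h2

/-- its exponential -/
theorem local_exp {N r : ℕ} {u : Fin N → ℂ} {e : Fin r → ℂ} (hu : ∀ j, ‖u j‖ = 1)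
    (he : ∀ a, ‖e a‖ = 1) (m : ℤ) {z : ℂ} (hz : ‖z‖ < 1) :
    Complex.exp (∑ a, ((∑ j, -Complex.log (1 - e a * u j * z)) +
      m * (-Complex.log (1 - e a * z)))) =
      ∏ a, ((∏ j, (1 - e a * u j * z))⁻¹ * ((1 - e a * z)⁻¹) ^ m) := by
  have hne : ∀ w : ℂ, ‖w‖ = 1 → 1 - w * z ≠ 0 := by
    intro w hw h0
    rw [sub_eq_zero] at h0
    have h1 : ‖w * z‖ < 1 := by rw [norm_mul, hw, one_mul]; exact hz
    rw [← h0, norm_one] at h1
    exact lt_irrefl _ h1
  rw [Complex.exp_sum]
  refine Finset.prod_congr rfl fun a _ => ?_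
  rw [Complex.exp_add, Complex.exp_sum, Complex.exp_int_mul, Complex.exp_neg,
    Complex.exp_log (hne _ (he a)), ← Finset.prod_inv_distrib]
  congr 1
  refine Finset.prod_congr rfl fun j _ => ?_
  rw [Complex.exp_neg, Complex.exp_log (hne _ (by rw [norm_mul, he, hu, one_mul]))]

section
variable {K : Type} [Field K] [NumberField K]

theorem norm_exp_term (c : HeightOneSpectrum (𝓞 K) × ℕ → ℂ) (s : ℂ)
    (p : HeightOneSpectrum (𝓞 K) × ℕ) :
    ‖c p * Complex.exp (-(s * Lq p))‖ = ‖c p‖ * Real.exp (-(s.re * Lq p)) := by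
  rw [norm_mul, Complex.norm_exp]
  simp

/-- a Dirichlet series is holomorphic -/
theorem ds_diff {c : HeightOneSpectrum (𝓞 K) × ℕ → ℂ} {σ : ℝ}
    (hs : ∀ t, σ < t → Summable fun p => ‖c p‖ * Real.exp (-(t * Lq p))) :
    DifferentiableOn ℂ (fun s : ℂ => ∑' p, c p * Complex.exp (-(s * Lq p))) {s | σ < s.re} := by
  intro s hs1
  have h2 : σ < (σ + s.re) / 2 := by
    have : σ < s.re := hs1
    linarith
  have h3 : DifferentiableOn ℂ (fun s : ℂ => ∑' p, c p * Complex.exp (-(s * Lq p)))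
      {w | (σ + s.re) / 2 < w.re} := by
    refine Complex.differentiableOn_tsum_of_summable_norm (hs _ h2) (fun i => ?_)
      (isOpen_lt continuous_const Complex.continuous_re) fun i w hw => ?_
    · fun_prop
    · rw [norm_exp_term]
      have := Lq_nonneg i
      have hw' : (σ + s.re) / 2 < w.re := hw
      gcongr
  refine (h3.differentiableAt ((isOpen_lt continuous_const Complex.continuous_re).mem_nhds
    ?_)).differentiableWithinAt
  have : σ < s.re := hs1
  show (σ + s.re) / 2 < s.re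
  linarith

theorem cexp_Lq (s : ℂ) (v : HeightOneSpectrum (𝓞 K)) (k : ℕ) :
    Complex.exp (-(s * Lq (v, k))) = ((Ideal.absNorm v.asIdeal : ℂ) ^ (-s)) ^ (k + 1) := by
  rw [Complex.cpow_def_of_ne_zero (q_ne v), ← Complex.exp_nat_mul, ← Complex.natCast_log]
  congr 1
  unfold Lq
  have : (Real.log (nm v) : ℂ) = ((Real.log (Ideal.absNorm v.asIdeal : ℝ) : ℝ) : ℂ) := rfl
  push_cast at this ⊢
  rw [this]
  ring

end

section
variable {K : Type} [Field K] [NumberField K] {l : ℕ} {X : Set (MvPolynomial (Fin l) (𝓞 K))}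
  {d i N : ℕ}

/-- **The equality case.** -/
theorem equality_case (hi : i ≤ 2 * d) {n m : ℤ} (hn : SquarePole X d i N n)
    (hm : OrderOver X d i N K m) (hmn : m ^ 2 = n) {α : HeightOneSpectrum (𝓞 K) → Fin N → ℂ}
    (hα : ∀ᶠ v in cofinite, IsFrobenius X d i v (α v)) :
    ∃ (S : Finset (HeightOneSpectrum (𝓞 K))) (δ : ℝ), 0 < δ ∧
      (∀ v ∉ S, IsFrobenius X d i v (α v)) ∧
      (Summable fun v : {v : HeightOneSpectrum (𝓞 K) // v ∉ S} =>
        ((∑ j, unit i α v.1 j).re + m) ^ 2 * (Ideal.absNorm v.1.asIdeal : ℝ) ^ (δ - 1)) ∧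
      ∀ (r : ℕ) (e : HeightOneSpectrum (𝓞 K) → Fin r → ℂ), (∀ v ∉ S, ∀ a, ‖e v a‖ = 1) →
        ∃ H : ℂ → ℂ, DifferentiableOn ℂ H {s | (i : ℝ) / 2 + 1 - δ < s.re} ∧
          ∀ s : ℂ, (i : ℝ) / 2 + 1 - δ < s.re → H s ≠ 0 ∧
            HasProd (fun v : {v : HeightOneSpectrum (𝓞 K) // v ∉ S} =>
              ∏ a, ((∏ j, (1 - e v.1 a * α v.1 j * (Ideal.absNorm v.1.asIdeal : ℂ) ^ (-s)))⁻¹ *
                ((1 - e v.1 a * (Ideal.absNorm v.1.asIdeal : ℂ) ^ ((i : ℂ) / 2 - s))⁻¹) ^ m))
              (H s) := by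
  classical
  obtain ⟨S, hS, t₀, ht₀, hsum⟩ := power_saving hi hn hm hmn hα
  set δ : ℝ := min ((1 - t₀) / 2) (1 / 2) with hδ
  have hδ0 : 0 < δ := lt_min (by linarith) (by norm_num)
  have hδ1 : δ ≤ (1 - t₀) / 2 := min_le_left _ _
  have hδ2 : δ ≤ 1 / 2 := min_le_right _ _
  -- absolute convergence
  have habs : ∀ t : ℝ, 1 - δ < t → Summable fun p : HeightOneSpectrum (𝓞 K) × ℕ =>
      (if p.1 ∈ S then 0 else |ps i α p + m| / ((p.2 : ℝ) + 1)) * Real.exp (-(t * Lq p)) := by
    intro t ht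
    have ht2 : 1 < 2 * t - t₀ := by linarith
    refine Summable.of_nonneg_of_le (fun p => ?_) (fun p => ?_) (hsum.add (summ_pow ht2))
    · have := Real.exp_pos (-(t * Lq p))
      split_ifs
      · rw [zero_mul]
      · positivity
    · by_cases hp : p.1 ∈ S
      · simp only [if_pos hp, zero_mul, zero_add]
        exact (Real.exp_pos _).le
      · simp only [if_neg hp]
        set x := |ps i α p + m| with hx
        have hx2 : (ps i α p + m) ^ 2 = x ^ 2 := (sq_abs _).symm
        rw [hx2]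
        have hk : (1 : ℝ) ≤ (p.2 : ℝ) + 1 := by
          have : (0 : ℝ) ≤ p.2 := Nat.cast_nonneg _
          linarith
        have hk0 : (0 : ℝ) < (p.2 : ℝ) + 1 := by linarith
        set A := Real.exp (-(t₀ * Lq p) / 2) with hA
        set B := Real.exp (-((2 * t - t₀) * Lq p) / 2) with hB
        have hA2 : Real.exp (-(t₀ * Lq p)) = A ^ 2 := by
          rw [hA, ← Real.exp_nat_mul]
          congr 1
          push_cast
          ring
        have hB2 : Real.exp (-((2 * t - t₀) * Lq p)) = B ^ 2 := by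
          rw [hB, ← Real.exp_nat_mul]
          congr 1
          push_cast
          ring
        have hAB : Real.exp (-(t * Lq p)) = A * B := by
          rw [hA, hB, ← Real.exp_add]
          congr 1
          ring
        rw [hA2, hB2, hAB]
        have h1 : x * (A * B) ≤ x ^ 2 * A ^ 2 + B ^ 2 := by
          nlinarith [sq_nonneg (x * A - B), sq_nonneg (x * A), sq_nonneg B, sq_nonneg (x * A + B)]
        calc x / ((p.2 : ℝ) + 1) * (A * B) = (x * (A * B)) / ((p.2 : ℝ) + 1) := by ring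
          _ ≤ (x ^ 2 * A ^ 2 + B ^ 2) / ((p.2 : ℝ) + 1) := by gcongr
          _ = x ^ 2 / ((p.2 : ℝ) + 1) * A ^ 2 + B ^ 2 / ((p.2 : ℝ) + 1) := by ring
          _ ≤ x ^ 2 / ((p.2 : ℝ) + 1) * A ^ 2 + B ^ 2 := by
              have := div_le_self (sq_nonneg B) hk
              linarith
  refine ⟨S, δ, hδ0, hS, ?_, fun r e he => ?_⟩
  · have h1 : Summable fun v : HeightOneSpectrum (𝓞 K) =>
        (if v ∈ S then 0 else (ps i α (v, 0) + m) ^ 2 / (((0 : ℕ) : ℝ) + 1)) *
          Real.exp (-(t₀ * Lq (v, 0))) :=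
      hsum.comp_injective (i := fun v : HeightOneSpectrum (𝓞 K) => (v, 0))
        fun a b h => (Prod.ext_iff.1 h).1
    have h2 := h1.comp_injective (i := fun v : {v : HeightOneSpectrum (𝓞 K) // v ∉ S} => v.1)
      Subtype.val_injective
    refine Summable.of_nonneg_of_le (fun v => ?_) (fun v => ?_) h2
    · have : (0 : ℝ) ≤ (Ideal.absNorm v.1.asIdeal : ℝ) ^ (δ - 1) :=
        Real.rpow_nonneg (Nat.cast_nonneg _) _
      positivity
    · simp only [Function.comp_apply, if_neg v.2]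
      have h3 : ps i α (v.1, 0) = (∑ j, unit i α v.1 j).re := by
        unfold ps
        simp
      rw [h3, Nat.cast_zero, zero_add, div_one, exp_Lq, pow_one]
      refine mul_le_mul_of_nonneg_left ?_ (sq_nonneg _)
      have h4 : (1 : ℝ) ≤ (nm v.1 : ℝ) := by
        exact_mod_cast (by have := two_le_nm v.1; omega : 1 ≤ nm v.1)
      exact Real.rpow_le_rpow_of_exponent_le h4 (by linarith)
  · set c : HeightOneSpectrum (𝓞 K) × ℕ → ℂ := fun p => if p.1 ∈ S then 0 else
      (∑ a, e p.1 a ^ (p.2 + 1)) * ((∑ j, unit i α p.1 j ^ (p.2 + 1)) + m) / ((p.2 : ℂ) + 1)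
      with hc
    have hcn : ∀ t : ℝ, 1 - δ < t → Summable fun p => ‖c p‖ * Real.exp (-(t * Lq p)) := by
      intro t ht
      refine Summable.of_nonneg_of_le (fun p => by positivity) (fun p => ?_)
        ((habs t ht).mul_left (r : ℝ))
      rw [← mul_assoc]
      refine mul_le_mul_of_nonneg_right ?_ (Real.exp_pos _).le
      simp only [hc]
      by_cases hp : p.1 ∈ S
      · simp [if_pos hp]
      · simp only [if_neg hp]
        have h1 : (∑ j, unit i α p.1 j ^ (p.2 + 1)) = ((ps i α p : ℝ) : ℂ) := by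
          refine Complex.ext ?_ ?_
          · rw [Complex.ofReal_re]
            rfl
          · rw [Complex.ofReal_im]
            exact ps_im hi (hS p.1 hp) _
        have h2 : ‖((ps i α p : ℝ) : ℂ) + m‖ = |ps i α p + m| := by
          rw [← Real.norm_eq_abs, ← Complex.norm_real]
          push_cast
          rfl
        have h3 : ‖((p.2 : ℂ) + 1)‖ = (p.2 : ℝ) + 1 := by
          have : ((p.2 : ℂ) + 1) = (((p.2 : ℝ) + 1 : ℝ) : ℂ) := by push_cast; ring
          rw [this, Complex.norm_real, Real.norm_of_nonneg (by positivity)]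
        rw [h1, norm_div, norm_mul, h2, h3, mul_div_assoc]
        refine mul_le_mul_of_nonneg_right ?_ (by positivity)
        refine (norm_sum_le _ _).trans ?_
        refine (Finset.sum_le_sum fun a _ => (show ‖e p.1 a ^ (p.2 + 1)‖ ≤ 1 from ?_)).trans ?_
        · rw [norm_pow, he p.1 hp a, one_pow]
        · simp
    have hdiff := ds_diff hcn
    refine ⟨fun s => Complex.exp (∑' p, c p * Complex.exp (-((s - (i : ℂ) / 2) * Lq p))), ?_,
      fun s hs => ⟨Complex.exp_ne_zero _, ?_⟩⟩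
    · refine DifferentiableOn.cexp ?_
      refine hdiff.comp (f := fun s : ℂ => s - (i : ℂ) / 2) (by fun_prop) fun s hs => ?_
      have hs' : (i : ℝ) / 2 + 1 - δ < s.re := hs
      show 1 - δ < (s - (i : ℂ) / 2).re
      rw [Complex.sub_re]
      have : ((i : ℂ) / 2).re = (i : ℝ) / 2 := by simp
      rw [this]
      linarith
    · set s' : ℂ := s - (i : ℂ) / 2 with hs'
      have hre : 1 - δ < s'.re := by
        rw [hs', Complex.sub_re]
        have : ((i : ℂ) / 2).re = (i : ℝ) / 2 := by simp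
        rw [this]
        linarith
      have h1 : Summable fun p => c p * Complex.exp (-(s' * Lq p)) := by
        refine Summable.of_norm ((hcn s'.re hre).congr fun p => ?_)
        rw [norm_exp_term]
      have hz : ∀ v : HeightOneSpectrum (𝓞 K), ‖(Ideal.absNorm v.asIdeal : ℂ) ^ (-s')‖ < 1 := by
        intro v
        have h2 : 2 ≤ Ideal.absNorm v.asIdeal := two_le_nm v
        rw [Complex.norm_natCast_cpow_of_pos (by omega)]
        have h3 : (1 : ℝ) < (Ideal.absNorm v.asIdeal : ℝ) := by exact_mod_cast (by omega)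
        refine Real.rpow_lt_one_of_one_lt_of_neg h3 ?_
        rw [Complex.neg_re]
        linarith
      set ℓ : HeightOneSpectrum (𝓞 K) → ℂ := fun v => if v ∈ S then 0 else
        ∑ a, ((∑ j, -Complex.log (1 - e v a * unit i α v j *
          (Ideal.absNorm v.asIdeal : ℂ) ^ (-s'))) +
          m * (-Complex.log (1 - e v a * (Ideal.absNorm v.asIdeal : ℂ) ^ (-s')))) with hℓ
      have h2 : HasSum ℓ (∑' p, c p * Complex.exp (-(s' * Lq p))) := by
        refine h1.hasSum.prod_fiberwise fun v => ?_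
        by_cases hv : v ∈ S
        · simp only [hℓ, hc, if_pos hv, zero_mul]
          exact hasSum_zero
        · simp only [hℓ, hc, if_neg hv]
          have h3 := local_sum (fun j => unit_norm (hS v hv) j) (he v hv) m (hz v)
          simp only [cexp_Lq]
          exact h3
      have h3 := h2.cexp
      have h4 := (Subtype.val_injective (p := fun v : HeightOneSpectrum (𝓞 K) => v ∉ S)).hasProd_iff
        (f := Complex.exp ∘ ℓ) (a := Complex.exp (∑' p, c p * Complex.exp (-(s' * Lq p)))) (by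
          intro v hv
          have hv' : v ∈ S := by
            by_contra h
            exact hv ⟨⟨v, h⟩, rfl⟩
          simp only [Function.comp_apply, hℓ, if_pos hv', Complex.exp_zero])
      have h5 := h4.mpr h3
      have h6 : (fun v : {v : HeightOneSpectrum (𝓞 K) // v ∉ S} =>
          ∏ a, ((∏ j, (1 - e v.1 a * α v.1 j * (Ideal.absNorm v.1.asIdeal : ℂ) ^ (-s)))⁻¹ *
            ((1 - e v.1 a * (Ideal.absNorm v.1.asIdeal : ℂ) ^ ((i : ℂ) / 2 - s))⁻¹) ^ m)) =
          (Complex.exp ∘ ℓ) ∘ Subtype.val := by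
        funext v
        simp only [Function.comp_apply, hℓ, if_neg v.2]
        rw [local_exp (fun j => unit_norm (hS v.1 v.2) j) (he v.1 v.2) m (hz v.1)]
        have h7 : (i : ℂ) / 2 - s = -s' := by rw [hs']; ring
        have h8 : (Ideal.absNorm v.1.asIdeal : ℂ) ^ (-((i : ℂ) / 2)) *
            (Ideal.absNorm v.1.asIdeal : ℂ) ^ (-s') = (Ideal.absNorm v.1.asIdeal : ℂ) ^ (-s) := by
          rw [← Complex.cpow_add _ _ (q_ne v.1)]
          congr 1
          rw [hs']
          ring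
        rw [h7]
        refine Finset.prod_congr rfl fun a _ => ?_
        congr 2
        refine Finset.prod_congr rfl fun j _ => ?_
        rw [← h8]
        unfold unit
        ring
      rw [h6]
      exact h5

end

end Pool.Agent.TH129.RS
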