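import Pool.Agent.W353.AT.Defs
import Pool.Agent.TH129.ST.Defs

/-!
# The Rankin-Selberg inequality on the edge line: definitions

`X` is a smooth projective variety over a number field `K`, `i` an integer and `N` the `i`-th Betti
number.
-/

set_option autoImplicit false

namespace Pool.Agent.TH129.RS

open NumberField IsDedekindDomain Filter Topology Polynomial
open Pool.Agent.W353.EF (IsFrobenius LFun)
open Pool.Agent.W353.EH (edgePoint size)
open Pool.Agent.W353.AT (IsArtin IsTwistedSystem TwistOrder)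
open Pool.Agent.TH129.ST (eulerProduct HasPoleOrder unit)

section
variable {K : Type} [Field K] [NumberField K] {l : ℕ}

/-- `B v` is the Euler factor of `L(H^i(X) ⊗ H^i(X), s + i)`: it is `∏ (1 - α_j α_k q_v^{-i} z)` at almost
all primes `v`, for the Frobenius eigenvalues `α_1, …, α_N` on `H^i(X)`; at the others it is any polynomial
different from zero at `q_v⁻¹`.  The edge of absolute convergence is the line `Re s = 1`. -/
def IsSquareSystem (X : Set (MvPolynomial (Fin l) (𝓞 K))) (d i N : ℕ)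
    (B : HeightOneSpectrum (𝓞 K) → ℂ[X]) : Prop :=
  (∀ᶠ v in cofinite, ∃ α : Fin N → ℂ, IsFrobenius X d i v α ∧
    ∀ z : ℂ, (B v).eval z =
      ∏ j, ∏ k, (1 - α j * α k * (Ideal.absNorm v.asIdeal : ℂ) ^ (-(i : ℂ)) * z)) ∧
  ∀ v, (B v).eval ((Ideal.absNorm v.asIdeal : ℂ) ^ (-(1 : ℂ))) ≠ 0

/-- `L(H^i(X) ⊗ H^i(X), s)` has a meromorphic continuation to a neighbourhood of the point `i + 1`, with a
pole of order `n` there. -/
def SquarePole (X : Set (MvPolynomial (Fin l) (𝓞 K))) (d i N : ℕ) (n : ℤ) : Prop :=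
  ∃ B : HeightOneSpectrum (𝓞 K) → ℂ[X], IsSquareSystem X d i N B ∧ HasPoleOrder B n

/-- `log |L(H^i(X) ⊗ H^i(X), i + 1 + ε)| / log(1/ε)` -/
noncomputable def squareSize (B : HeightOneSpectrum (𝓞 K) → ℂ[X]) (ε : ℝ) : ℝ :=
  Real.log ‖eulerProduct B ((1 : ℂ) + ε)‖ / Real.log (1 / ε)

/-- The representation `ρ` and the height `τ` are not self-dual: `τ ≠ 0` or the character of `ρ` is not
real. -/
def NotSelfDual {n : ℕ} (ρ : Representation ℂ Gal(AlgebraicClosure K/K) (Fin n → ℂ)) (τ : ℝ) : Prop :=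
  τ ≠ 0 ∨ ∃ g, (ρ.character g).im ≠ 0

/-- **The inequality between the sizes; no continuation is assumed here.**  Let `(ρ_k, τ_k)`, `k` in a finite
set, be pairs of an irreducible Artin representation and a real number, with `ρ_k` not isomorphic to `ρ_l`
if `k ≠ l` and `τ_k = τ_l`; `s_k = i/2 + 1 + iτ_k`, `x_k(ε) = log |L(H^i(X) ⊗ ρ_k, s_k + ε)| / log(1/ε)` and
`x(ε) = log |L(H^i(X) ⊗ H^i(X), i + 1 + ε)| / log(1/ε)`.  Then for every `η > 0` and all small `ε > 0`,
`∑ x_k(ε)² ≤ x(ε) + η`, and `2 x_k(ε)² ≤ x(ε) + η` for all `k` such that `(ρ_k, τ_k)` is not self-dual. -/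
def SizeInequality (X : Set (MvPolynomial (Fin l) (𝓞 K))) (d i N : ℕ) : Prop :=
  ∀ B₂ : HeightOneSpectrum (𝓞 K) → ℂ[X], IsSquareSystem X d i N B₂ →
  ∀ (κ : Type) [Fintype κ] (r : κ → ℕ)
    (ρ : ∀ k, Representation ℂ Gal(AlgebraicClosure K/K) (Fin (r k) → ℂ)) (τ : κ → ℝ),
    (∀ k, IsArtin (ρ k)) → (∀ k, (ρ k).IsIrreducible) →
    (∀ k l, k ≠ l → τ k = τ l → IsEmpty ((ρ k).Equiv (ρ l))) →
    ∀ B : κ → HeightOneSpectrum (𝓞 K) → ℂ[X], (∀ k, IsTwistedSystem X d i N (ρ k) (τ k) (B k)) →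
      ∀ η : ℝ, 0 < η →
        (∀ᶠ ε : ℝ in 𝓝[>] 0, ∑ k, (size i (τ k) (B k) ε) ^ 2 ≤ squareSize B₂ ε + η) ∧
        ∀ k, NotSelfDual (ρ k) (τ k) →
          ∀ᶠ ε : ℝ in 𝓝[>] 0, 2 * (size i (τ k) (B k) ε) ^ 2 ≤ squareSize B₂ ε + η

/-- **The inequality between the orders.**  Let `(ρ_k, τ_k)` be as above, and suppose that
`L(H^i(X) ⊗ ρ_k, s)` has a meromorphic continuation to a neighbourhood of `i/2 + 1 + iτ_k`, of order `m_k`
there (`m_k > 0` for a zero, `m_k < 0` for a pole).  Then `∑ m_k² ≤ n`, and `2 m_k² ≤ n` for all `k` such that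
`(ρ_k, τ_k)` is not self-dual. -/
def OrderInequality (X : Set (MvPolynomial (Fin l) (𝓞 K))) (d i N : ℕ) (n : ℤ) : Prop :=
  ∀ (κ : Type) [Fintype κ] (r : κ → ℕ)
    (ρ : ∀ k, Representation ℂ Gal(AlgebraicClosure K/K) (Fin (r k) → ℂ)) (τ : κ → ℝ),
    (∀ k, IsArtin (ρ k)) → (∀ k, (ρ k).IsIrreducible) →
    (∀ k l, k ≠ l → τ k = τ l → IsEmpty ((ρ k).Equiv (ρ l))) →
    ∀ m : κ → ℤ, (∀ k, TwistOrder X d i N (ρ k) (τ k) (m k)) →
      ∑ k, m k ^ 2 ≤ n ∧ ∀ k, NotSelfDual (ρ k) (τ k) → 2 * m k ^ 2 ≤ n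

open Classical in
/-- **The Gram inequality between the orders.**  For Artin representations `ρ_k`, irreducible or not, real
numbers `τ_k` and the orders `m_k` of `L(H^i(X) ⊗ ρ_k, s)` at `i/2 + 1 + iτ_k`,
`(∑ c_k m_k)² ≤ n ∑ c_k c_l dim Hom(ρ_k, ρ_l)`, where the last sum is over all `k, l` with `τ_k = τ_l`. -/
def GramInequality (X : Set (MvPolynomial (Fin l) (𝓞 K))) (d i N : ℕ) (n : ℤ) : Prop :=
  ∀ (κ : Type) [Fintype κ] (r : κ → ℕ)
    (ρ : ∀ k, Representation ℂ Gal(AlgebraicClosure K/K) (Fin (r k) → ℂ)) (τ : κ → ℝ),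
    (∀ k, IsArtin (ρ k)) → ∀ m : κ → ℤ, (∀ k, TwistOrder X d i N (ρ k) (τ k) (m k)) →
      ∀ c : κ → ℝ, (∑ k, c k * m k) ^ 2 ≤ n * ∑ k, ∑ l, c k * c l *
        (if τ k = τ l then (Module.finrank ℂ ((ρ k).IntertwiningMap (ρ l)) : ℝ) else 0)

open Classical in
/-- **Rigidity.**  If for one irreducible Artin representation `ρ` and one `τ` the order `m` of
`L(H^i(X) ⊗ ρ, s)` at `i/2 + 1 + iτ` has the largest possible size, `m² = n`, then `|m| dim ρ ≤ N`, the
`i`-th Betti number, and all orders are known: the order of `L(H^i(X) ⊗ ψ, s)` at `i/2 + 1 + iτ'` is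
`m dim Hom(ρ, ψ)` if `τ' = τ`, and zero if `τ' ≠ τ`, for all Artin representations `ψ` (irreducible or not)
and all `τ'` for which there is a continuation. -/
def Rigidity (X : Set (MvPolynomial (Fin l) (𝓞 K))) (d i N : ℕ) (n : ℤ) : Prop :=
  ∀ (r : ℕ) (ρ : Representation ℂ Gal(AlgebraicClosure K/K) (Fin r → ℂ)) (τ : ℝ) (m : ℤ),
    IsArtin ρ → ρ.IsIrreducible → TwistOrder X d i N ρ τ m → m ^ 2 = n →
    |m| * r ≤ N ∧
    ∀ (r' : ℕ) (ψ : Representation ℂ Gal(AlgebraicClosure K/K) (Fin r' → ℂ)) (τ' : ℝ) (m' : ℤ),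
      IsArtin ψ → TwistOrder X d i N ψ τ' m' →
        m' = if τ = τ' then m * Module.finrank ℂ (ρ.IntertwiningMap ψ) else 0

/-- The number of the orbits of the absolute Galois group of `K` on the pairs of embeddings of `F` into the
algebraic closure; it is at most `[F : K]`, and `2` if the Galois group is doubly transitive. -/
noncomputable def pairOrbits (K F : Type) [Field K] [Field F] [Algebra K F] : ℕ :=
  Nat.card (Quot fun p q : (F →ₐ[K] AlgebraicClosure K) × (F →ₐ[K] AlgebraicClosure K) =>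
    ∃ σ : Gal(AlgebraicClosure K/K), (σ : AlgebraicClosure K →ₐ[K] AlgebraicClosure K).comp p.1 = q.1 ∧
      (σ : AlgebraicClosure K →ₐ[K] AlgebraicClosure K).comp p.2 = q.2)

/-- **Number fields.**  Let `L(H^i(X), s)` have a meromorphic continuation to a neighbourhood of
`s₀ = i/2 + 1`, of order `m` there.  For every number field `F ⊇ K` such that `L(H^i(X_F), s)` has one, of
order `k`, `(k - m)² ≤ (n - m²) (R - 1)`, with the number `R` of the orbits on the pairs of embeddings of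
`F`. -/
def FieldInequality (X : Set (MvPolynomial (Fin l) (𝓞 K))) (d i N : ℕ) (n : ℤ) : Prop :=
  ∀ m : ℤ, Pool.Agent.W353.EF.OrderOver X d i N K m →
    ∀ (F : Type) [Field F] [Algebra K F] (k : ℤ), Pool.Agent.W353.EF.OrderOver X d i N F k →
      (k - m) ^ 2 ≤ (n - m ^ 2) * (pairOrbits K F - 1)

/-- **The equality case.**  Let `L(H^i(X), s)` have a meromorphic continuation to a neighbourhood of
`s₀ = i/2 + 1`, of order `m` there, and let `m² = n`.  Then there are a finite set `S` of primes and `δ > 0`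
such that
* the normalised traces `t_v = ∑ α_j / q_v^{i/2}` are close to `-m` with a power saving:
  `∑ (t_v + m)² q_v^{δ - 1}` converges (`v` outside `S`);
* for every family of complex numbers `e_{v,a}` of absolute value `1`, `a = 1, …, r`, for example the
  eigenvalues of Frobenius on an Artin representation, the Euler product of
  `L(H^i(X) ⊗ e, s) L(e, s - i/2)^m` over the primes outside `S`, with the factors
  `∏_a (∏_j (1 - e_{v,a} α_j q_v^{-s})⁻¹ (1 - e_{v,a} q_v^{i/2 - s})^{-m})`, converges for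
  `Re s > s₀ - δ`, to a holomorphic function without zeros.  The number `δ` does not depend on the
  family.

In particular, `L(H^i(X), s)` has a meromorphic continuation to `Re s > s₀ - δ`; it is
`ζ_K(s - i/2)^{-m}` times a function without zeros and poles (up to the factors at `S`). -/
def EqualityCase (X : Set (MvPolynomial (Fin l) (𝓞 K))) (d i N : ℕ) (n : ℤ) : Prop :=
  ∀ m : ℤ, Pool.Agent.W353.EF.OrderOver X d i N K m → m ^ 2 = n →
    ∀ α : HeightOneSpectrum (𝓞 K) → Fin N → ℂ, (∀ᶠ v in cofinite, IsFrobenius X d i v (α v)) →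
    ∃ (S : Finset (HeightOneSpectrum (𝓞 K))) (δ : ℝ), 0 < δ ∧
      (∀ v ∉ S, IsFrobenius X d i v (α v)) ∧
      (Summable fun v : {v : HeightOneSpectrum (𝓞 K) // v ∉ S} =>
        ((∑ j, unit i α v.1 j).re + m) ^ 2 * (Ideal.absNorm v.1.asIdeal : ℝ) ^ (δ - 1)) ∧
      ∀ (r : ℕ) (e : HeightOneSpectrum (𝓞 K) → Fin r → ℂ), (∀ v ∉ S, ∀ a, ‖e v a‖ = 1) →
        ∃ H : ℂ → ℂ, DifferentiableOn ℂ H {s | (i : ℝ) / 2 + 1 - δ < s.re} ∧
          ∀ s : ℂ, (i : ℝ) / 2 + 1 - δ < s.re → H s ≠ 0 ∧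
            HasProd (fun v : {v : HeightOneSpectrum (𝓞 K) // v ∉ S} =>
              ∏ a, ((∏ j, (1 - e v.1 a * α v.1 j * (Ideal.absNorm v.1.asIdeal : ℂ) ^ (-s)))⁻¹ *
                ((1 - e v.1 a * (Ideal.absNorm v.1.asIdeal : ℂ) ^ ((i : ℂ) / 2 - s))⁻¹) ^ m))
              (H s)

open Classical in
/-- **Simple poles: at most one zero or pole.**  Suppose that for an irreducible Artin representation `ρ` and
a real `τ` the function `L(H^i(X) ⊗ ρ, s)` has a zero or a pole at `i/2 + 1 + iτ`, of order `m`.  Then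
`m = ± 1`, `τ = 0`, the character of `ρ` is real, the dimension of `ρ` is at most the `i`-th Betti number
`N`, and for all Artin representations `ψ` and all `τ'` the order of `L(H^i(X) ⊗ ψ, s)` at `i/2 + 1 + iτ'` is
`m dim Hom(ρ, ψ)` if `τ' = 0`, and zero if `τ' ≠ 0`.  So among all pairs of an irreducible Artin
representation and a point of the edge line at most one gives a zero or a pole. -/
def AtMostOne (X : Set (MvPolynomial (Fin l) (𝓞 K))) (d i N : ℕ) : Prop :=
  ∀ (r : ℕ) (ρ : Representation ℂ Gal(AlgebraicClosure K/K) (Fin r → ℂ)) (τ : ℝ) (m : ℤ),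
    IsArtin ρ → ρ.IsIrreducible → TwistOrder X d i N ρ τ m → m ≠ 0 →
    (m = 1 ∨ m = -1) ∧ τ = 0 ∧ (∀ g, (ρ.character g).im = 0) ∧ r ≤ N ∧
    ∀ (r' : ℕ) (ψ : Representation ℂ Gal(AlgebraicClosure K/K) (Fin r' → ℂ)) (τ' : ℝ) (m' : ℤ),
      IsArtin ψ → TwistOrder X d i N ψ τ' m' →
        m' = if τ' = 0 then m * Module.finrank ℂ (ρ.IntertwiningMap ψ) else 0

/-- **Non-vanishing at `s₀ = i/2 + 1`.**  Let `m` be the order of `L(H^i(X), s)` at `s₀`.  Then `|m| ≤ 1`; and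
`L(H^i(X), s)` does not vanish at `s₀` in each of the following cases:
* for one number field `F ⊇ K` the order of `L(H^i(X_F), s)` at `s₀` is not `1`;
* for one irreducible Artin representation `ρ`, not the trivial one, and one `τ`, `L(H^i(X) ⊗ ρ, s)` has a
  zero or a pole at `i/2 + 1 + iτ` (then `m = 0`);
* the normalised traces `t_v = ∑ α_j / q_v^{i/2}` are not close to `-1` with a power saving: the series
  `∑ (t_v + 1)² q_v^{δ - 1}` over the primes outside a finite set diverges, whatever the finite set and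
  `δ > 0`. -/
def NonVanishing (X : Set (MvPolynomial (Fin l) (𝓞 K))) (d i N : ℕ) : Prop :=
  ∀ m : ℤ, Pool.Agent.W353.EF.OrderOver X d i N K m →
    |m| ≤ 1 ∧
    (∀ (F : Type) [Field F] [Algebra K F] (k : ℤ), Pool.Agent.W353.EF.OrderOver X d i N F k →
      k ≠ 1 → m ≤ 0) ∧
    (∀ (r : ℕ) (ρ : Representation ℂ Gal(AlgebraicClosure K/K) (Fin r → ℂ)) (τ : ℝ) (k : ℤ),
      IsArtin ρ → ρ.IsIrreducible → (∃ g, ρ g ≠ 1) → TwistOrder X d i N ρ τ k → k ≠ 0 → m = 0) ∧
    ∀ α : HeightOneSpectrum (𝓞 K) → Fin N → ℂ, (∀ᶠ v in cofinite, IsFrobenius X d i v (α v)) →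
      (∀ (S : Finset (HeightOneSpectrum (𝓞 K))) (δ : ℝ), 0 < δ →
        ¬ Summable fun v : {v : HeightOneSpectrum (𝓞 K) // v ∉ S} =>
          ((∑ j, unit i α v.1 j).re + 1) ^ 2 * (Ideal.absNorm v.1.asIdeal : ℝ) ^ (δ - 1)) → m ≤ 0

/-- The set `A` of primes has Dirichlet density zero: `∑ q_v^{-1-ε}` over `v ∈ A`, divided by `log(1/ε)`, tends
to zero as `ε → 0+`. -/
def DensityZero (A : Set (HeightOneSpectrum (𝓞 K))) : Prop :=
  Tendsto (fun ε : ℝ => (∑' v : A, (Ideal.absNorm v.1.asIdeal : ℝ) ^ (-(1 + ε))) /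
    Real.log (1 / ε)) (𝓝[>] 0) (𝓝 0)

/-- **Concentration.**  Let `(ρ_k, τ_k)` be a finite set of pairs as in `OrderInequality`, and suppose that
`∑ m_k² = n` for the orders `m_k`.  Then the normalised traces `t_v = ∑ α_j / q_v^{i/2}` are close to
`-∑ m_k χ_k(σ_v⁻¹) q_v^{-iτ_k}`, where `χ_k` is the character of `ρ_k` and `σ_v` a Frobenius element at `v`:
for every `η > 0` the primes at which the distance is at least `η` have Dirichlet density zero. -/
def Concentration (X : Set (MvPolynomial (Fin l) (𝓞 K))) (d i N : ℕ) (n : ℤ) : Prop :=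
  ∀ (κ : Type) [Fintype κ] (r : κ → ℕ)
    (ρ : ∀ k, Representation ℂ Gal(AlgebraicClosure K/K) (Fin (r k) → ℂ)) (τ : κ → ℝ),
    (∀ k, IsArtin (ρ k)) → (∀ k, (ρ k).IsIrreducible) →
    (∀ k l, k ≠ l → τ k = τ l → IsEmpty ((ρ k).Equiv (ρ l))) →
    ∀ m : κ → ℤ, (∀ k, TwistOrder X d i N (ρ k) (τ k) (m k)) → ∑ k, m k ^ 2 = n →
      ∀ α : HeightOneSpectrum (𝓞 K) → Fin N → ℂ, (∀ᶠ v in cofinite, IsFrobenius X d i v (α v)) →
      ∀ σ : HeightOneSpectrum (𝓞 K) → Gal(AlgebraicClosure K/K),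
        (∀ v, Pool.Agent.W353.AT.IsFrobeniusElement v (σ v)) → ∀ η : ℝ, 0 < η →
          DensityZero {v | η ≤ ‖∑ j, unit i α v j + ∑ k, (m k : ℂ) *
            ((ρ k).character (σ v)⁻¹ * (Ideal.absNorm v.asIdeal : ℂ) ^ (-(τ k * Complex.I)))‖}

/-- **No zeros and no poles.**  Suppose that the normalised traces `t_v = ∑ α_j / q_v^{i/2}` are not
concentrated at finitely many numbers: for every finite set `A` of real numbers there is `η > 0` such that
the primes with `|t_v - a| ≥ η` for all `a ∈ A` are not a set of Dirichlet density zero.  Then, for all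
irreducible Artin representations `ρ`, the function `L(H^i(X) ⊗ ρ, s)` has no zero and no pole on the whole
line `Re s = i/2 + 1`. -/
def NoZeros (X : Set (MvPolynomial (Fin l) (𝓞 K))) (d i N : ℕ) : Prop :=
  ∀ α : HeightOneSpectrum (𝓞 K) → Fin N → ℂ, (∀ᶠ v in cofinite, IsFrobenius X d i v (α v)) →
    (∀ A : Finset ℝ, ∃ η : ℝ, 0 < η ∧
      ¬ DensityZero {v | ∀ a ∈ A, η ≤ |(∑ j, unit i α v j).re - a|}) →
    ∀ (r : ℕ) (ρ : Representation ℂ Gal(AlgebraicClosure K/K) (Fin r → ℂ)) (τ : ℝ) (m : ℤ),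
      IsArtin ρ → ρ.IsIrreducible → TwistOrder X d i N ρ τ m → m = 0

end

end Pool.Agent.TH129.RS
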