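import Pool.Agent.TH129.RS.Gram

/-!
# The dimension of an extremal twist
-/

set_option autoImplicit false

namespace Pool.Agent.TH129.RS

open Complex Filter Topology ComplexConjugate Pool.Agent.H341R2 NumberField IsDedekindDomain
  Pool.Agent.W401.Cheb Pool.Agent.W540.BE Polynomial Pool.Agent.W353.L1
open Pool.Agent.W353.EF (IsFrobenius LFun)
open Pool.Agent.W353.EH (edgePoint size HasOrder)
open Pool.Agent.W353.PV (Eig alp tF pick_spec lim_ord)
open Pool.Agent.W353.AT (IsArtin IsTwistedSystem TwistOrder tw_size tw_lim exists_common edgeBessel)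
open Pool.Agent.TH129.ST (eulerProduct HasPoleOrder IsUnitSystem)

section
variable {K : Type} [Field K] [NumberField K]
variable (U : Subgroup (GK K)) [U.Normal] [Finite (GK K ⧸ U)]
  {κ : Type} [Fintype κ] {n : κ → ℕ}
  (ρ : ∀ k, Representation ℂ (GK K) (Fin (n k) → ℂ)) (hρ : ∀ k, ∀ u ∈ U, ρ k u = 1)
  (τ : κ → ℝ) (σ : HeightOneSpectrum (𝓞 K) → GK K)

/-- the quadratic form as a square -/
theorem pt_eq (T : ℝ) (c : κ → ℝ) (v : HeightOneSpectrum (𝓞 K)) :
    T ^ 2 + (∑ k, (-2 * c k) * (T * RR (ρ k) (τ k) σ v) +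
      ∑ p : κ × κ, (c p.1 * c p.2) * PP U ρ hρ τ σ p.1 p.2 v) =
    ‖(T : ℂ) - ∑ k, (c k : ℂ) *
      ((chF U ρ hρ k).f (QuotientGroup.mk (σ v)) * zz (τ k) v)‖ ^ 2 := by
  set g : ℂ := ∑ k, (c k : ℂ) *
    ((chF U ρ hρ k).f (QuotientGroup.mk (σ v)) * zz (τ k) v) with hg
  have h1 : g.re = ∑ k, c k * RR (ρ k) (τ k) σ v := by
    rw [hg, Complex.re_sum]
    refine Finset.sum_congr rfl fun k _ => ?_
    rw [Complex.re_ofReal_mul]
    rfl
  have h2 : ‖g‖ ^ 2 = ∑ p : κ × κ, (c p.1 * c p.2) * PP U ρ hρ τ σ p.1 p.2 v := by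
    have h1 : (‖g‖ ^ 2 : ℝ) = (g * conj g).re := by
      rw [Complex.mul_conj, Complex.normSq_eq_norm_sq, Complex.ofReal_re]
    rw [h1, hg, map_sum, Finset.sum_mul_sum, Complex.re_sum,
      Fintype.sum_prod_type (f := fun p : κ × κ => (c p.1 * c p.2) * PP U ρ hρ τ σ p.1 p.2 v)]
    refine Finset.sum_congr rfl fun k _ => ?_
    rw [Complex.re_sum]
    refine Finset.sum_congr rfl fun l _ => ?_
    have h2 : (c k : ℂ) * ((chF U ρ hρ k).f (QuotientGroup.mk (σ v)) * zz (τ k) v) *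
        conj ((c l : ℂ) * ((chF U ρ hρ l).f (QuotientGroup.mk (σ v)) * zz (τ l) v)) =
        ((c k * c l : ℝ) : ℂ) * (((chF U ρ hρ k).f (QuotientGroup.mk (σ v)) *
          conj ((chF U ρ hρ l).f (QuotientGroup.mk (σ v)))) * zz (τ k - τ l) v) := by
      rw [map_mul, map_mul, Complex.conj_ofReal, conj_zz, sub_eq_add_neg, zz_add]
      push_cast
      ring
    rw [h2, Complex.re_ofReal_mul]
    rfl
  have h3 : ∑ k, (-2 * c k) * (T * RR (ρ k) (τ k) σ v) = -2 * T * g.re := by
    rw [h1, Finset.mul_sum]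
    exact Finset.sum_congr rfl fun k _ => by ring
  have h4 : ‖(T : ℂ) - g‖ ^ 2 = T ^ 2 - 2 * T * g.re + ‖g‖ ^ 2 := by
    rw [← Complex.normSq_eq_norm_sq, ← Complex.normSq_eq_norm_sq, Complex.normSq_apply,
      Complex.normSq_apply, Complex.sub_re, Complex.sub_im, Complex.ofReal_re, Complex.ofReal_im]
    ring
  rw [h3, ← h2, h4]
  ring

open Classical in
/-- the indicator function of the neutral element -/
noncomputable def oneF : CF U where
  f q := if q = 1 then 1 else 0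
  cls a x := by simp only [conj_eq_one_iff]
  herm q := by
    simp only [inv_eq_one]
    split_ifs <;> simp

end

section
variable {K : Type} [Field K] [NumberField K] {l : ℕ} {X : Set (MvPolynomial (Fin l) (𝓞 K))}
  {d i N : ℕ}

/-- **The dimension of an extremal twist.** -/
theorem dim_le (hi : i ≤ 2 * d) {n : ℤ} (hn : SquarePole X d i N n) {r : ℕ}
    {ρ : Representation ℂ Gal(AlgebraicClosure K/K) (Fin r → ℂ)} {τ : ℝ} {m : ℤ}
    (hA : IsArtin ρ) (hirr : ρ.IsIrreducible) (hm : TwistOrder X d i N ρ τ m) (hmn : m ^ 2 = n) :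
    |m| * r ≤ N := by
  classical
  by_contra hlt
  obtain ⟨B, hB, hm⟩ := hm
  let R : Unit → Representation ℂ (GK K) (Fin r → ℂ) := fun _ => ρ
  obtain ⟨U, hUn, hU, hρ⟩ := exists_common (κ := Unit) (n := fun _ => r) R fun _ => hA
  have hfin : Finite (GK K ⧸ U) := Subgroup.quotient_finite_of_isOpen U hU
  let _ : Fintype (GK K ⧸ U) := Fintype.ofFinite _
  choose σ hσ using exists_isFrob (F := K)
  have h11 : Module.finrank ℂ (ρ.IntertwiningMap ρ) = 1 :=
    Representation.IsIrreducible.finrank_intertwiningMap_self ρ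
  set c : ℝ := -(m : ℝ) with hc
  have h1 := has_sq hi hn
  have h2 : Has (fun v => tF X d i N K v * RR ρ τ σ v) (-(m : ℝ)) := by
    refine ⟨⟨N * r, fun v => ?_⟩, ?_⟩
    · rw [abs_mul]
      exact mul_le_mul (bound_tF v) (abs_RR_le U ρ (hρ ()) _ _ _) (abs_nonneg _)
        (Nat.cast_nonneg _)
    · have h3 := (tw_size hi U ρ (hρ ()) τ B hB σ hσ).2.add
        (tw_lim hi U ρ (hρ ()) τ B hB hm)
      rw [zero_add] at h3
      exact h3.congr fun ε => by ring
  have h3 : Has (PP U R hρ (fun _ => τ) σ () ()) 1 := by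
    have h4 := has_PP U hU R hρ (fun _ => τ) σ hσ () ()
    rw [if_pos rfl] at h4
    exact h4.congr (fun v => rfl) (by
      change ((Module.finrank ℂ (ρ.IntertwiningMap ρ) : ℕ) : ℝ) = 1
      rw [h11, Nat.cast_one])
  have h4 := (h1.add (h2.const_mul (-2 * c))).add (h3.const_mul (c * c))
  set b : ℝ := (|(m : ℝ)| * r - N) ^ 2 with hb
  have hgap : 0 < |(m : ℝ)| * r - N := by
    have h5 : (N : ℤ) < |m| * r := not_le.mp hlt
    have h6 : ((N : ℤ) : ℝ) < ((|m| * r : ℤ) : ℝ) := by exact_mod_cast h5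
    push_cast at h6
    linarith
  have hb0 : 0 < b := pow_pos hgap 2
  have h5 := (oneF U).has hU σ hσ 0
  rw [if_pos rfl] at h5
  have hav : avC U (oneF U).f = ((Nat.card (GK K ⧸ U) : ℝ)⁻¹ : ℝ) := by
    unfold avC
    rw [finsum_eq_sum_of_fintype]
    change (Nat.card (GK K ⧸ U) : ℂ)⁻¹ * ∑ q : GK K ⧸ U, (if q = 1 then (1 : ℂ) else 0) = _
    rw [Finset.sum_ite_eq' Finset.univ (1 : GK K ⧸ U), if_pos (Finset.mem_univ _), mul_one]
    push_cast
    rfl
  rw [hav, Complex.ofReal_re] at h5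
  have h6 := h4.add (h5.const_mul (-b))
  have h7 : 0 ≤ (n : ℝ) + -2 * c * -(m : ℝ) + c * c * 1 + -b * (Nat.card (GK K ⧸ U) : ℝ)⁻¹ := by
    refine Has.nonneg h6 fun v => ?_
    have h8 := pt_eq U R hρ (fun _ => τ) σ (tF X d i N K v) (fun _ => c) v
    simp only [Finset.univ_unique, Finset.sum_singleton, Finset.univ_product_univ,
      Fintype.sum_prod_type, PUnit.default_eq_unit] at h8
    have h9 : tF X d i N K v ^ 2 + -2 * c * (tF X d i N K v * RR ρ τ σ v) +
        c * c * PP U R hρ (fun _ => τ) σ () () v =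
        ‖(tF X d i N K v : ℂ) - (c : ℂ) *
          ((chF U R hρ ()).f (QuotientGroup.mk (σ v)) * zz τ v)‖ ^ 2 := by
      rw [← h8]
      ring
    rw [h9]
    have h10 : (oneF U).R 0 σ v = if (QuotientGroup.mk (σ v) : GK K ⧸ U) = 1 then 1 else 0 := by
      unfold CF.R
      have hz : zz (0 : ℝ) v = 1 := by
        unfold zz
        simp
      rw [hz, mul_one]
      change (if (QuotientGroup.mk (σ v) : GK K ⧸ U) = 1 then (1 : ℂ) else 0).re = _
      split_ifs <;> simp
    rw [h10]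
    split_ifs with hq
    · have h12 : (chF U R hρ ()).f (QuotientGroup.mk (σ v)) = r := by
        rw [hq]
        change (qrep U (R ()) (hρ ())).character 1⁻¹ = r
        rw [inv_one, Representation.char_one]
        simp
      rw [h12]
      have h13 : ‖(c : ℂ) * ((r : ℂ) * zz τ v)‖ = |(m : ℝ)| * r := by
        rw [norm_mul, norm_mul, norm_zz, mul_one, Complex.norm_real, Complex.norm_natCast,
          Real.norm_eq_abs, hc, abs_neg]
      have h14 : ‖(tF X d i N K v : ℂ)‖ ≤ N := by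
        rw [Complex.norm_real, Real.norm_eq_abs]
        exact bound_tF v
      have h15 : |(m : ℝ)| * r - N ≤ ‖(tF X d i N K v : ℂ) - (c : ℂ) * ((r : ℂ) * zz τ v)‖ := by
        have h16 := norm_sub_norm_le ((c : ℂ) * ((r : ℂ) * zz τ v)) (tF X d i N K v : ℂ)
        rw [norm_sub_rev] at h16
        rw [h13] at h16
        linarith
      have h16 := pow_le_pow_left₀ hgap.le h15 2
      rw [hb]
      linarith
    · rw [mul_zero, add_zero]
      exact sq_nonneg _
  have h8 : (n : ℝ) = (m : ℝ) ^ 2 := by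
    rw [← hmn]
    push_cast
    ring
  have h9 : (0 : ℝ) < (Nat.card (GK K ⧸ U) : ℝ)⁻¹ := by
    have : 0 < Nat.card (GK K ⧸ U) := Nat.card_pos
    positivity
  have h10 := mul_pos hb0 h9
  rw [h8, hc] at h7
  nlinarith

/-- **Rigidity.** -/
theorem rigidity (hi : i ≤ 2 * d) {n : ℤ} (hn : SquarePole X d i N n) : Rigidity X d i N n :=
  fun r ρ τ m hA hirr hm hmn => ⟨dim_le hi hn hA hirr hm hmn, fun r' ψ τ' m' hA' hm' => by
    classical
    have h := rigidity_orders hi hn r ρ τ m hA hirr hm hmn r' ψ τ' m' hA' hm'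
    rw [h]⟩

end

end Pool.Agent.TH129.RS
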