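import Pool.Agent.TH129.RS.Ineq
import Pool.Agent.W540.BE.Core2

/-!
# The Gram inequality and rigidity
-/

set_option autoImplicit false

namespace Pool.Agent.TH129.RS

open Complex Filter Topology ComplexConjugate Pool.Agent.H341R2 NumberField IsDedekindDomain
  Pool.Agent.W401.Cheb Pool.Agent.W540.BE Polynomial Pool.Agent.W353.L1
open Pool.Agent.W353.EF (IsFrobenius LFun)
open Pool.Agent.W353.EH (edgePoint size HasOrder)
open Pool.Agent.W353.PV (Eig alp tF pick_spec lim_ord)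
open Pool.Agent.W353.AT (IsArtin IsTwistedSystem TwistOrder tw_size tw_lim exists_common edgeBessel)
open Pool.Agent.TH129.ST (eulerProduct HasPoleOrder IsUnitSystem)

section
variable {K : Type} [Field K] [NumberField K]
variable (U : Subgroup (GK K)) [U.Normal] (hU : IsOpen (U : Set (GK K))) [Finite (GK K ⧸ U)]
  {κ : Type} [Fintype κ] {n : κ → ℕ}
  (ρ : ∀ k, Representation ℂ (GK K) (Fin (n k) → ℂ)) (hρ : ∀ k, ∀ u ∈ U, ρ k u = 1)
  (τ : κ → ℝ) (σ : HeightOneSpectrum (𝓞 K) → GK K) (hσ : ∀ v, IsFrob v (σ v))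

include hU hσ in
/-- the mean value of the product of two terms -/
theorem has_PP (k l : κ) [Decidable (τ k = τ l)] : Has (PP U ρ hρ τ σ k l)
    (if τ k = τ l then (Module.finrank ℂ ((ρ l).IntertwiningMap (ρ k)) : ℝ) else 0) := by
  classical
  let _ : Fintype (GK K ⧸ U) := Fintype.ofFinite _
  have h3 := ((chF U ρ hρ k).mul (chF U ρ hρ l).star).has hU σ hσ (τ k - τ l)
  refine h3.congr (fun v => rfl) ?_
  by_cases ht : τ k = τ l
  · rw [if_pos ht, if_pos (sub_eq_zero.mpr ht)]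
    have h1 := ortho2 U (ρ k) (hρ k) (ρ l) (hρ l)
    have h2 : avC U ((chF U ρ hρ k).mul (chF U ρ hρ l).star).f =
        (Module.finrank ℂ ((ρ l).IntertwiningMap (ρ k)) : ℂ) := by
      unfold avC
      have e : ∑ᶠ q, ((chF U ρ hρ k).mul (chF U ρ hρ l).star).f q =
          ∑ᶠ q : GK K ⧸ U, (qrep U (ρ k) (hρ k)).character q *
          (qrep U (ρ l) (hρ l)).character q⁻¹ := by
        rw [finsum_eq_sum_of_fintype, finsum_eq_sum_of_fintype, ← Equiv.sum_comp (Equiv.inv _)]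
        refine Finset.sum_congr rfl fun q _ => ?_
        change (qrep U (ρ k) (hρ k)).character (q⁻¹)⁻¹ *
          conj ((qrep U (ρ l) (hρ l)).character (q⁻¹)⁻¹) = _
        rw [inv_inv, ← char_inv (qrep U (ρ l) (hρ l)) q]
      rw [e, h1]
    rw [h2, Complex.natCast_re]
  · rw [if_neg ht, if_neg (sub_ne_zero.mpr ht)]

/-- symmetry -/
theorem PP_symm (k l : κ) (v : HeightOneSpectrum (𝓞 K)) :
    PP U ρ hρ τ σ k l v = PP U ρ hρ τ σ l k v := by
  have h1 : ∀ k l, PP U ρ hρ τ σ k l v = (((chF U ρ hρ k).f (QuotientGroup.mk (σ v)) * zz (τ k) v) *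
      conj ((chF U ρ hρ l).f (QuotientGroup.mk (σ v)) * zz (τ l) v)).re := by
    intro k l
    rw [map_mul, conj_zz]
    have h2 : PP U ρ hρ τ σ k l v = (((chF U ρ hρ k).f (QuotientGroup.mk (σ v)) *
      conj ((chF U ρ hρ l).f (QuotientGroup.mk (σ v)))) * zz (τ k - τ l) v).re := rfl
    rw [h2, sub_eq_add_neg, zz_add]
    congr 1
    ring
  have h3 : ∀ a b : ℂ, (a * conj b).re = (b * conj a).re := by
    intro a b
    simp only [Complex.mul_re, Complex.conj_re, Complex.conj_im]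
    ring
  rw [h1, h1]
  exact h3 _ _

end

section
variable {K : Type} [Field K] [NumberField K] {l : ℕ} {X : Set (MvPolynomial (Fin l) (𝓞 K))}
  {d i N : ℕ}

theorem Has.nonneg {φ : HeightOneSpectrum (𝓞 K) → ℝ} {m : ℝ} (h : Has φ m) (hφ : ∀ v, 0 ≤ φ v) :
    0 ≤ m := by
  refine ge_of_tendsto h.2 ?_
  filter_upwards [lam_tendsto.eventually_gt_atTop 0] with ε hε
  exact div_nonneg (EP_nonneg hφ) hε.le

theorem Has.unique {φ : HeightOneSpectrum (𝓞 K) → ℝ} {m m' : ℝ} (h : Has φ m) (h' : Has φ m') :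
    m = m' := tendsto_nhds_unique h.2 h'.2

theorem has_sq (hi : i ≤ 2 * d) {n : ℤ} (hn : SquarePole X d i N n) :
    Has (fun v => tF X d i N K v ^ 2) n := by
  obtain ⟨B₂, hB₂, hn⟩ := hn
  refine ⟨⟨_, fun v => bound_sq v⟩, ?_⟩
  have h1 := (sq_size hi hB₂).2.add (sq_lim hi hB₂ hn)
  rw [zero_add] at h1
  exact h1.congr fun ε => by ring

open Classical in
/-- **The quadratic form is nonnegative.** -/
theorem form_nonneg (hi : i ≤ 2 * d) {n : ℤ} (hn : SquarePole X d i N n) (κ : Type) [Fintype κ]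
    (r : κ → ℕ) (ρ : ∀ k, Representation ℂ Gal(AlgebraicClosure K/K) (Fin (r k) → ℂ)) (τ : κ → ℝ)
    (hA : ∀ k, IsArtin (ρ k)) (m : κ → ℤ) (hm : ∀ k, TwistOrder X d i N (ρ k) (τ k) (m k))
    (c : κ → ℝ) :
    0 ≤ (n : ℝ) + (∑ k, (-2 * c k) * (-(m k : ℝ)) + ∑ p : κ × κ, (c p.1 * c p.2) *
      (if τ p.1 = τ p.2 then (Module.finrank ℂ ((ρ p.2).IntertwiningMap (ρ p.1)) : ℝ) else 0)) := by
  choose B hB hm using hm
  obtain ⟨U, hUn, hU, hρ⟩ := exists_common ρ hA
  have hfin : Finite (GK K ⧸ U) := Subgroup.quotient_finite_of_isOpen U hU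
  choose σ hσ using exists_isFrob (F := K)
  have h1 := has_sq hi hn
  have h2 : ∀ k, Has (fun v => tF X d i N K v * RR (ρ k) (τ k) σ v) (-(m k : ℝ)) := by
    intro k
    refine ⟨⟨N * r k, fun v => ?_⟩, ?_⟩
    · rw [abs_mul]
      exact mul_le_mul (bound_tF v) (abs_RR_le U (ρ k) (hρ k) _ _ _) (abs_nonneg _)
        (Nat.cast_nonneg _)
    · have h3 := (tw_size hi U (ρ k) (hρ k) (τ k) (B k) (hB k) σ hσ).2.add
        (tw_lim hi U (ρ k) (hρ k) (τ k) (B k) (hB k) (hm k))
      rw [zero_add] at h3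
      exact h3.congr fun ε => by ring
  have h3 : ∀ p : κ × κ, Has (PP U ρ hρ τ σ p.1 p.2) (if τ p.1 = τ p.2 then
      (Module.finrank ℂ ((ρ p.2).IntertwiningMap (ρ p.1)) : ℝ) else 0) := fun p =>
    has_PP U hU ρ hρ τ σ hσ p.1 p.2
  have h4 := h1.add ((Pool.Agent.W353.AT.Has.sum Finset.univ fun k _ =>
    (h2 k).const_mul (-2 * c k)).add
    (Pool.Agent.W353.AT.Has.sum Finset.univ fun p _ => (h3 p).const_mul (c p.1 * c p.2)))
  exact Has.nonneg h4 fun v => pos_pt U ρ hρ τ σ (tF X d i N K v) c v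

open Classical in
/-- symmetry of the dimensions -/
theorem finrank_symm {r r' : ℕ}
    (ρ : Representation ℂ Gal(AlgebraicClosure K/K) (Fin r → ℂ))
    (ψ : Representation ℂ Gal(AlgebraicClosure K/K) (Fin r' → ℂ)) (h1 : IsArtin ρ)
    (h2 : IsArtin ψ) : Module.finrank ℂ (ρ.IntertwiningMap ψ) =
      Module.finrank ℂ (ψ.IntertwiningMap ρ) := by
  let n : Bool → ℕ := fun b => if b then r else r'
  let R : ∀ b : Bool, Representation ℂ (GK K) (Fin (n b) → ℂ) := fun b =>
    match b with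
    | true => ρ
    | false => ψ
  have hA : ∀ b, IsArtin (R b) := fun b =>
    match b with
    | true => h1
    | false => h2
  obtain ⟨U, hUn, hU, hρ⟩ := exists_common R hA
  have hfin : Finite (GK K ⧸ U) := Subgroup.quotient_finite_of_isOpen U hU
  choose σ hσ using exists_isFrob (F := K)
  have h3 := has_PP U hU R hρ (fun _ => 0) σ hσ true false
  have h4 := has_PP U hU R hρ (fun _ => 0) σ hσ false true
  rw [if_pos rfl] at h3 h4
  have h5 := Has.unique h3 (h4.congr (fun v => PP_symm U R hρ (fun _ => 0) σ false true v) rfl)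
  have h6 : Module.finrank ℂ ((R false).IntertwiningMap (R true)) =
      Module.finrank ℂ ((R true).IntertwiningMap (R false)) := by exact_mod_cast h5
  exact h6.symm

/-- **The Gram inequality.** -/
theorem gramInequality (hi : i ≤ 2 * d) {n : ℤ} (hn : SquarePole X d i N n) :
    GramInequality X d i N n := by
  classical
  intro κ _ r ρ τ hA m hm c
  set G : ℝ := ∑ p : κ × κ, (c p.1 * c p.2) *
    (if τ p.1 = τ p.2 then (Module.finrank ℂ ((ρ p.2).IntertwiningMap (ρ p.1)) : ℝ) else 0) with hG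
  have h1 : G = ∑ k, ∑ l, c k * c l *
      (if τ k = τ l then (Module.finrank ℂ ((ρ k).IntertwiningMap (ρ l)) : ℝ) else 0) := by
    rw [hG, Fintype.sum_prod_type]
    refine Finset.sum_congr rfl fun k _ => Finset.sum_congr rfl fun m _ => ?_
    rw [finrank_symm (ρ m) (ρ k) (hA m) (hA k)]
  have h2 : ∀ s : ℝ, 0 ≤ G * (s * s) + (2 * ∑ k, c k * m k) * s + (n : ℝ) := by
    intro s
    have h3 := form_nonneg hi hn κ r ρ τ hA m hm fun k => s * c k
    have h4 : ∑ k, (-2 * (s * c k)) * (-(m k : ℝ)) = (2 * ∑ k, c k * m k) * s := by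
      rw [Finset.mul_sum, Finset.sum_mul]
      exact Finset.sum_congr rfl fun k _ => by ring
    have h5 : ∑ p : κ × κ, ((s * c p.1) * (s * c p.2)) * (if τ p.1 = τ p.2 then
        (Module.finrank ℂ ((ρ p.2).IntertwiningMap (ρ p.1)) : ℝ) else 0) = G * (s * s) := by
      rw [hG, Finset.sum_mul]
      exact Finset.sum_congr rfl fun p _ => by ring
    rw [h4, h5] at h3
    linarith
  have h3 := discrim_le_zero h2
  rw [discrim] at h3
  rw [← h1]
  nlinarith

open Classical in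
/-- **Rigidity.** -/
theorem rigidity_orders (hi : i ≤ 2 * d) {n : ℤ} (hn : SquarePole X d i N n) (r : ℕ)
    (ρ : Representation ℂ Gal(AlgebraicClosure K/K) (Fin r → ℂ)) (τ : ℝ) (m : ℤ)
    (hA : IsArtin ρ) (hirr : ρ.IsIrreducible) (hm : TwistOrder X d i N ρ τ m) (hmn : m ^ 2 = n)
    (r' : ℕ) (ψ : Representation ℂ Gal(AlgebraicClosure K/K) (Fin r' → ℂ)) (τ' : ℝ) (m' : ℤ)
    (hA' : IsArtin ψ) (hm' : TwistOrder X d i N ψ τ' m') :
    m' = if τ = τ' then m * Module.finrank ℂ (ρ.IntertwiningMap ψ) else 0 := by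
  let nn : Bool → ℕ := fun b => if b then r else r'
  let R : ∀ b : Bool, Representation ℂ (GK K) (Fin (nn b) → ℂ) := fun b =>
    match b with
    | true => ρ
    | false => ψ
  let tt : Bool → ℝ := fun b => if b then τ else τ'
  let mm : Bool → ℤ := fun b => if b then m else m'
  have hAR : ∀ b, IsArtin (R b) := fun b =>
    match b with
    | true => hA
    | false => hA'
  have hmR : ∀ b, TwistOrder X d i N (R b) (tt b) (mm b) := fun b =>
    match b with
    | true => hm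
    | false => hm'
  have h1 := gramInequality hi hn Bool nn R tt hAR mm hmR
  have h11 : Module.finrank ℂ (ρ.IntertwiningMap ρ) = 1 :=
    Representation.IsIrreducible.finrank_intertwiningMap_self ρ
  set g : ℝ := if τ = τ' then (Module.finrank ℂ (ρ.IntertwiningMap ψ) : ℝ) else 0 with hg
  set g' : ℝ := (Module.finrank ℂ (ψ.IntertwiningMap ψ) : ℝ) with hg'
  have h2 : ∀ s : ℝ, (s * m + m') ^ 2 ≤ n * (s ^ 2 + 2 * s * g + g') := by
    intro s
    have h3 := h1 fun b => if b then s else 1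
    rw [Fintype.sum_bool, Fintype.sum_bool, Fintype.sum_bool, Fintype.sum_bool] at h3
    have e1 : (if τ' = τ then (Module.finrank ℂ (ψ.IntertwiningMap ρ) : ℝ) else 0) = g := by
      rw [hg]
      by_cases ht : τ = τ'
      · rw [if_pos ht, if_pos ht.symm, finrank_symm ψ ρ hA' hA]
      · rw [if_neg ht, if_neg fun h => ht h.symm]
    have e2 : (if τ = τ then (Module.finrank ℂ (ρ.IntertwiningMap ρ) : ℝ) else 0) = 1 := by
      rw [if_pos rfl, h11, Nat.cast_one]
    have e3 : (if τ' = τ' then (Module.finrank ℂ (ψ.IntertwiningMap ψ) : ℝ) else 0) = g' := by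
      rw [if_pos rfl]
    have h4 : (s * (m : ℝ) + 1 * (m' : ℝ)) ^ 2 ≤ n * ((s * s *
        (if τ = τ then (Module.finrank ℂ (ρ.IntertwiningMap ρ) : ℝ) else 0) + s * 1 *
        (if τ = τ' then (Module.finrank ℂ (ρ.IntertwiningMap ψ) : ℝ) else 0)) + (1 * s *
        (if τ' = τ then (Module.finrank ℂ (ψ.IntertwiningMap ρ) : ℝ) else 0) + 1 * 1 *
        (if τ' = τ' then (Module.finrank ℂ (ψ.IntertwiningMap ψ) : ℝ) else 0))) := h3
    rw [e1, e2, e3, ← hg] at h4
    have h5 : (n : ℝ) * ((s * s * 1 + s * 1 * g) + (1 * s * g + 1 * 1 * g')) =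
        n * (s ^ 2 + 2 * s * g + g') := by ring
    rw [h5, one_mul] at h4
    exact h4
  have hmn' : (n : ℝ) = (m : ℝ) ^ 2 := by
    rw [← hmn]
    push_cast
    ring
  have h3 : ∀ s : ℝ, 2 * s * (m * m' - m ^ 2 * g) ≤ m ^ 2 * g' - m' ^ 2 := by
    intro s
    have h4 := h2 s
    rw [hmn'] at h4
    nlinarith
  have h4 : (m : ℝ) * m' - m ^ 2 * g = 0 := by
    by_contra h
    have h5 := h3 ((m ^ 2 * g' - m' ^ 2 + 1) / (2 * ((m : ℝ) * m' - m ^ 2 * g)))
    have h6 : 2 * ((m ^ 2 * g' - m' ^ 2 + 1) / (2 * ((m : ℝ) * m' - m ^ 2 * g))) *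
        (m * m' - m ^ 2 * g) = m ^ 2 * g' - m' ^ 2 + 1 := by
      have h7 : ∀ A B : ℝ, B ≠ 0 → 2 * (A / (2 * B)) * B = A := by
        intro A B hB
        field_simp
      exact h7 _ _ h
    rw [h6] at h5
    linarith
  have h5 : (m' : ℝ) = m * g := by
    by_cases hm0 : (m : ℝ) = 0
    · have h6 := h2 0
      rw [hmn', hm0] at h6
      have h7 : (m' : ℝ) ^ 2 ≤ 0 := by nlinarith
      have h8 : (m' : ℝ) = 0 := by
        have := sq_nonneg (m' : ℝ)
        exact pow_eq_zero_iff (two_ne_zero) |>.1 (le_antisymm h7 this)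
      rw [h8, hm0, zero_mul]
    · have h6 : (m : ℝ) * (m' - m * g) = 0 := by
        have : (m : ℝ) * (m' - m * g) = m * m' - m ^ 2 * g := by ring
        rw [this, h4]
      have h7 := (mul_eq_zero.mp h6).resolve_left hm0
      linarith
  rw [hg] at h5
  by_cases ht : τ = τ'
  · rw [if_pos ht] at h5 ⊢
    exact_mod_cast h5
  · rw [if_neg ht, mul_zero] at h5
    rw [if_neg ht]
    exact_mod_cast h5

end

end Pool.Agent.TH129.RS
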