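import Pool.Agent.TH129.RS.Size

/-!
# The Rankin-Selberg inequality for Artin twists
-/

set_option autoImplicit false

namespace Pool.Agent.TH129.RS

open Complex Filter Topology ComplexConjugate Pool.Agent.H341R2 NumberField IsDedekindDomain
  Pool.Agent.W401.Cheb Pool.Agent.W540.BE Polynomial Pool.Agent.W353.L1
open Pool.Agent.W353.EF (IsFrobenius LFun)
open Pool.Agent.W353.EH (edgePoint size HasOrder)
open Pool.Agent.W353.PV (Eig alp tF pick_spec lim_ord)
open Pool.Agent.W353.AT (IsArtin IsTwistedSystem TwistOrder tw_size tw_lim exists_common edgeBessel)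
open Pool.Agent.TH129.ST (eulerProduct HasPoleOrder IsUnitSystem)

/-- a nonreal irreducible character is orthogonal to its conjugate -/
theorem sum_sq_char {Q : Type} [Group Q] [Fintype Q] {n : ℕ}
    (ρ : Representation ℂ Q (Fin n → ℂ)) (hirr : ρ.IsIrreducible)
    (hne : ∃ g, (ρ.character g).im ≠ 0) (hinv : ∀ g, ρ.character g⁻¹ = conj (ρ.character g)) :
    ∑ g : Q, ρ.character g * ρ.character g = 0 := by
  classical
  have hcard : (Nat.card Q : ℂ) ≠ 0 := by
    have : Nat.card Q ≠ 0 := Nat.card_pos.ne'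
    exact_mod_cast this
  letI : Invertible (Nat.card Q : ℂ) := invertibleOfNonzero hcard
  have h1 := Representation.card_inv_mul_sum_char_mul_char_eq_finrank ρ.dual ρ
  have h2 : ∀ g : Q, ρ.character g * ρ.dual.character g⁻¹ = ρ.character g * ρ.character g := by
    intro g
    rw [Representation.char_dual, inv_inv]
  simp only [h2] at h1
  have h3 : Module.finrank ℂ (Representation.IntertwiningMap ρ.dual ρ) = 0 := by
    have h4 : Subsingleton (Representation.IntertwiningMap ρ.dual ρ) := by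
      refine ⟨fun f g => ?_⟩
      by_contra hfg
      have h5 : f - g ≠ 0 := sub_ne_zero.mpr hfg
      have h6 := (Representation.IsIrreducible.surjective_or_eq_zero (ρ := ρ) (f - g)).resolve_right
        h5
      have h7 : Function.Bijective (f - g) := by
        refine ⟨?_, h6⟩
        have h8 : Module.finrank ℂ (Module.Dual ℂ (Fin n → ℂ)) = Module.finrank ℂ (Fin n → ℂ) :=
          Subspace.dual_finrank_eq
        exact (LinearMap.injective_iff_surjective_of_finrank_eq_finrank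
          (f := (f - g).toLinearMap) h8).mpr h6
      have h8 := Representation.char_iso ((f - g).ofBijective h7)
      obtain ⟨g₀, hg₀⟩ := hne
      apply hg₀
      have h9 := congrFun h8 g₀
      rw [Representation.char_dual, hinv] at h9
      exact Complex.conj_eq_iff_im.mp h9
    exact Module.finrank_zero_of_subsingleton
  rw [h3, Nat.cast_zero] at h1
  exact (mul_eq_zero.mp h1).resolve_left (inv_ne_zero hcard)

section
variable {K : Type} [Field K] [NumberField K]
variable (U : Subgroup (GK K)) [U.Normal] (hU : IsOpen (U : Set (GK K))) [Finite (GK K ⧸ U)]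
  {κ : Type} [Fintype κ] {n : κ → ℕ}
  (ρ : ∀ k, Representation ℂ (GK K) (Fin (n k) → ℂ)) (hρ : ∀ k, ∀ u ∈ U, ρ k u = 1)
  (τ : κ → ℝ) (σ : HeightOneSpectrum (𝓞 K) → GK K) (hσ : ∀ v, IsFrob v (σ v))

include hU hρ hσ in
/-- the mean value of the square of a term that is not self-dual -/
theorem has_half (k : κ) (hirr : (ρ k).IsIrreducible) (hns : NotSelfDual (ρ k) (τ k)) :
    Has (fun v => RR (ρ k) (τ k) σ v ^ 2) (1 / 2) := by
  classical
  let _ : Fintype (GK K ⧸ U) := Fintype.ofFinite _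
  set A := chF U ρ hρ k with hA
  have hsq : A.sq = 1 := sq_one U ρ hρ hirr
  have hRR : ∀ v, A.R (τ k) σ v = RR (ρ k) (τ k) σ v := fun v => rfl
  by_cases ht : τ k = 0
  · obtain h | ⟨g, hg⟩ := hns
    · exact absurd ht h
    have h1 : avC U (A.mul A).f = 0 := by
      unfold avC
      rw [finsum_eq_sum_of_fintype]
      have h2 := sum_sq_char (qrep U (ρ k) (hρ k)) (by
        have hi : IsSimpleOrder (Subrepresentation (ρ k)) := hirr
        let e : Subrepresentation (qrep U (ρ k) (hρ k)) ≃o Subrepresentation (ρ k) :=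
          { toFun := fun S => ⟨S.toSubmodule, fun g v hv => S.apply_mem_toSubmodule
              (QuotientGroup.mk g) hv⟩
            invFun := fun S => ⟨S.toSubmodule, fun g v hv => by
              obtain ⟨g, rfl⟩ := QuotientGroup.mk_surjective g
              exact S.apply_mem_toSubmodule g hv⟩
            left_inv := fun S => rfl
            right_inv := fun S => rfl
            map_rel_iff' := Iff.rfl }
        exact (OrderIso.isSimpleOrder_iff e).2 hi)
        ⟨QuotientGroup.mk g, hg⟩ (fun q => char_inv (qrep U (ρ k) (hρ k)) q)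
      have h3 : ∑ q : GK K ⧸ U, (A.mul A).f q = ∑ q : GK K ⧸ U,
          (qrep U (ρ k) (hρ k)).character q * (qrep U (ρ k) (hρ k)).character q := by
        rw [← Equiv.sum_comp (Equiv.inv (GK K ⧸ U))]
        refine Finset.sum_congr rfl fun q _ => ?_
        change (qrep U (ρ k) (hρ k)).character (q⁻¹)⁻¹ * (qrep U (ρ k) (hρ k)).character (q⁻¹)⁻¹ = _
        rw [inv_inv]
      rw [h3, h2, mul_zero]
    have h4 := (A.mul A).has hU σ hσ 0
    rw [if_pos rfl, h1, Complex.zero_re] at h4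
    refine ((h4.const_mul (1 / 2)).add ((A.has_sq hU σ hσ).const_mul (1 / 2))).congr
      (fun v => ?_) (by rw [hsq]; ring)
    rw [← hRR, sq, ht, A.R_mul A 0 0 σ v, add_zero, sub_zero]
  · refine (A.has_mul_self hU σ hσ ht).congr (fun v => ?_) (by rw [hsq]; ring)
    rw [hRR, sq]

/-- the product of two terms -/
noncomputable def PP (k l : κ) (v : HeightOneSpectrum (𝓞 K)) : ℝ :=
  ((chF U ρ hρ k).mul (chF U ρ hρ l).star).R (τ k - τ l) σ v

/-- the square of the absolute value of the sum -/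
theorem pos_pt (T : ℝ) (c : κ → ℝ) (v : HeightOneSpectrum (𝓞 K)) :
    0 ≤ T ^ 2 + (∑ k, (-2 * c k) * (T * RR (ρ k) (τ k) σ v) +
      ∑ p : κ × κ, (c p.1 * c p.2) * PP U ρ hρ τ σ p.1 p.2 v) := by
  set g : ℂ := ∑ k, (c k : ℂ) *
    ((chF U ρ hρ k).f (QuotientGroup.mk (σ v)) * zz (τ k) v) with hg
  have h1 : g.re = ∑ k, c k * RR (ρ k) (τ k) σ v := by
    rw [hg, Complex.re_sum]
    refine Finset.sum_congr rfl fun k _ => ?_
    rw [Complex.re_ofReal_mul]
    rfl
  have h2 : ‖g‖ ^ 2 = ∑ p : κ × κ, (c p.1 * c p.2) * PP U ρ hρ τ σ p.1 p.2 v := by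
    have h1 : (‖g‖ ^ 2 : ℝ) = (g * conj g).re := by
      rw [Complex.mul_conj, Complex.normSq_eq_norm_sq, Complex.ofReal_re]
    rw [h1, hg, map_sum, Finset.sum_mul_sum, Complex.re_sum,
      Fintype.sum_prod_type (f := fun p : κ × κ => (c p.1 * c p.2) * PP U ρ hρ τ σ p.1 p.2 v)]
    refine Finset.sum_congr rfl fun k _ => ?_
    rw [Complex.re_sum]
    refine Finset.sum_congr rfl fun l _ => ?_
    have h2 : (c k : ℂ) * ((chF U ρ hρ k).f (QuotientGroup.mk (σ v)) * zz (τ k) v) *
        conj ((c l : ℂ) * ((chF U ρ hρ l).f (QuotientGroup.mk (σ v)) * zz (τ l) v)) =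
        ((c k * c l : ℝ) : ℂ) * (((chF U ρ hρ k).f (QuotientGroup.mk (σ v)) *
          conj ((chF U ρ hρ l).f (QuotientGroup.mk (σ v)))) * zz (τ k - τ l) v) := by
      rw [map_mul, map_mul, Complex.conj_ofReal, conj_zz, sub_eq_add_neg, zz_add]
      push_cast
      ring
    rw [h2, Complex.re_ofReal_mul]
    rfl
  have h3 : ∑ k, (-2 * c k) * (T * RR (ρ k) (τ k) σ v) = -2 * T * g.re := by
    rw [h1, Finset.mul_sum]
    exact Finset.sum_congr rfl fun k _ => by ring
  have h4 : ‖(T : ℂ) - g‖ ^ 2 = T ^ 2 - 2 * T * g.re + ‖g‖ ^ 2 := by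
    rw [← Complex.normSq_eq_norm_sq, ← Complex.normSq_eq_norm_sq, Complex.normSq_apply,
      Complex.normSq_apply, Complex.sub_re, Complex.sub_im, Complex.ofReal_re, Complex.ofReal_im]
    ring
  rw [h3, ← h2]
  have h5 := sq_nonneg ‖(T : ℂ) - g‖
  rw [h4] at h5
  linarith

end

section
variable {K : Type} [Field K] [NumberField K] {l : ℕ} {X : Set (MvPolynomial (Fin l) (𝓞 K))}
  {d i N : ℕ}

/-- **The inequality between the sizes.** -/
theorem sizeInequality (hi : i ≤ 2 * d) : SizeInequality X d i N := by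
  classical
  intro B₂ hB₂ κ _ r ρ τ hA hirr hne B hB η hη
  obtain ⟨U, hUn, hU, hρ⟩ := exists_common ρ hA
  have hfin : Finite (GK K ⧸ U) := Subgroup.quotient_finite_of_isOpen U hU
  choose σ hσ using exists_isFrob (F := K)
  have hN : NormSys (nm K) := normSys
  set T : HeightOneSpectrum (𝓞 K) → ℝ := tF X d i N K with hT
  have hTb : ∀ v, |T v| ≤ (N : ℝ) := fun v => bound_tF v
  have hTb2 : ∀ v, |T v ^ 2| ≤ (N : ℝ) ^ 2 := fun v => bound_sq v
  set x : κ → ℝ → ℝ := fun k => size i (τ k) (B k) with hx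
  set D : ℝ → ℝ := squareSize B₂ with hD
  set P : κ → κ → HeightOneSpectrum (𝓞 K) → ℝ := fun k m => PP U ρ hρ τ σ k m with hP
  -- the mean values
  set e1 : κ → ℝ → ℝ := fun k ε =>
    (EP (nm K) ε fun v => T v * RR (ρ k) (τ k) σ v) / lam ε - x k ε with he1
  set e2 : ℝ → ℝ := fun ε => (EP (nm K) ε fun v => T v ^ 2) / lam ε - D ε with he2
  have h1 : ∀ k, Tendsto (e1 k) (𝓝[>] 0) (𝓝 0) := fun k =>
    (tw_size hi U (ρ k) (hρ k) (τ k) (B k) (hB k) σ hσ).2
  have h2 : Tendsto e2 (𝓝[>] 0) (𝓝 0) := (sq_size hi hB₂).2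
  have hPh : ∀ k m, Has (P k m) (if k = m then 1 else 0) := by
    intro k m
    have h3 := ((chF U ρ hρ k).mul (chF U ρ hρ m).star).has hU σ hσ (τ k - τ m)
    refine h3.congr (fun v => rfl) ?_
    by_cases hkm : k = m
    · subst hkm
      rw [sub_self, if_pos rfl, if_pos rfl]
      have h4 := avC_ortho U ρ hρ (hirr k) (hirr k)
      rw [if_pos ⟨Representation.Equiv.refl _⟩] at h4
      have h5 : avC U ((chF U ρ hρ k).mul (chF U ρ hρ k).star).f = 1 := h4
      rw [h5, Complex.one_re]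
    · rw [if_neg hkm]
      by_cases ht : τ k - τ m = 0
      · rw [if_pos ht]
        have h4 := avC_ortho U ρ hρ (hirr k) (hirr m)
        rw [if_neg (by
          rw [not_nonempty_iff]
          exact hne k m hkm (sub_eq_zero.1 ht))] at h4
        have h5 : avC U ((chF U ρ hρ k).mul (chF U ρ hρ m).star).f = 0 := h4
        rw [h5, Complex.zero_re]
      · rw [if_neg ht]
  have hRb : ∀ k, ∀ v, |RR (ρ k) (τ k) σ v| ≤ r k := fun k v =>
    abs_RR_le U (ρ k) (hρ k) _ _ _
  have hTR : ∀ k, ∀ v, |T v * RR (ρ k) (τ k) σ v| ≤ N * r k := by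
    intro k v
    rw [abs_mul]
    exact mul_le_mul (hTb v) (hRb k v) (abs_nonneg _) (Nat.cast_nonneg _)
  -- the sizes are bounded
  have hxb : ∀ᶠ ε : ℝ in 𝓝[>] 0, ∀ k, |x k ε| ≤ (N : ℝ) + 1 := by
    have h3 := ((edgeBessel hi κ r ρ τ hA hirr hne).1 B hB).2 1 one_pos
    filter_upwards [h3] with ε h4 k
    have h5 : x k ε ^ 2 ≤ ∑ k, x k ε ^ 2 :=
      Finset.single_le_sum (f := fun k => x k ε ^ 2) (fun k _ => sq_nonneg _) (Finset.mem_univ k)
    refine abs_le_of_sq_le_sq ?_ (by positivity)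
    have h6 : (0 : ℝ) ≤ N := Nat.cast_nonneg _
    nlinarith
  refine ⟨?_, fun k hns => ?_⟩
  · set e3 : κ × κ → ℝ → ℝ := fun p ε =>
      (EP (nm K) ε (P p.1 p.2)) / lam ε - (if p.1 = p.2 then 1 else 0) with he3
    have h3 : ∀ p, Tendsto (e3 p) (𝓝[>] 0) (𝓝 0) := by
      intro p
      have h4 := (hPh p.1 p.2).2.sub_const (if p.1 = p.2 then 1 else 0)
      rw [sub_self] at h4
      exact h4
    set bnd : ℝ → ℝ := fun ε => |e2 ε| + (∑ k, (2 * ((N : ℝ) + 1)) * |e1 k ε| +
      ∑ p, (((N : ℝ) + 1) * ((N : ℝ) + 1)) * |e3 p ε|) with hbnd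
    have hbl : Tendsto bnd (𝓝[>] 0) (𝓝 0) := by
      have a1 : Tendsto (fun ε => |e2 ε|) (𝓝[>] 0) (𝓝 0) := by
        have := h2.abs
        rwa [abs_zero] at this
      have a2 : Tendsto (fun ε => ∑ k, (2 * ((N : ℝ) + 1)) * |e1 k ε|) (𝓝[>] 0) (𝓝 0) := by
        have h4 := tendsto_finsetSum (Finset.univ : Finset κ) fun k _ =>
          ((h1 k).abs.const_mul (2 * ((N : ℝ) + 1)))
        simp only [abs_zero, mul_zero, Finset.sum_const_zero] at h4
        exact h4
      have a3 : Tendsto (fun ε => ∑ p, (((N : ℝ) + 1) * ((N : ℝ) + 1)) * |e3 p ε|) (𝓝[>] 0)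
          (𝓝 0) := by
        have h4 := tendsto_finsetSum (Finset.univ : Finset (κ × κ)) fun p _ =>
          ((h3 p).abs.const_mul (((N : ℝ) + 1) * ((N : ℝ) + 1)))
        simp only [abs_zero, mul_zero, Finset.sum_const_zero] at h4
        exact h4
      have := a1.add (a2.add a3)
      rw [add_zero, add_zero] at this
      exact this
    filter_upwards [hbl.eventually_lt_const hη, hxb, self_mem_nhdsWithin,
      lam_tendsto.eventually_gt_atTop 0] with ε h4 h5 h6 h7
    have hε : (0 : ℝ) < ε := h6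
    -- positivity
    have h8 : 0 ≤ EP (nm K) ε fun v => T v ^ 2 +
        (∑ k, (-2 * x k ε) * (T v * RR (ρ k) (τ k) σ v) +
          ∑ p : κ × κ, (x p.1 ε * x p.2 ε) * P p.1 p.2 v) :=
      EP_nonneg fun v => pos_pt U ρ hρ τ σ (T v) (fun k => x k ε) v
    choose CP hCP using fun p : κ × κ => (hPh p.1 p.2).1
    have b1 : ∀ k ∈ (Finset.univ : Finset κ), ∀ v,
        |(-2 * x k ε) * (T v * RR (ρ k) (τ k) σ v)| ≤ |-2 * x k ε| * (N * r k) := by
      intro k _ v
      rw [abs_mul]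
      exact mul_le_mul_of_nonneg_left (hTR k v) (abs_nonneg _)
    have b2 : ∀ p ∈ (Finset.univ : Finset (κ × κ)), ∀ v,
        |(x p.1 ε * x p.2 ε) * P p.1 p.2 v| ≤ |x p.1 ε * x p.2 ε| * CP p := by
      intro p _ v
      rw [abs_mul]
      exact mul_le_mul_of_nonneg_left (hCP p v) (abs_nonneg _)
    have b1' : ∀ v, |∑ k, (-2 * x k ε) * (T v * RR (ρ k) (τ k) σ v)| ≤
        ∑ k, |-2 * x k ε| * (N * r k) := fun v =>
      (Finset.abs_sum_le_sum_abs _ _).trans (Finset.sum_le_sum fun k hk => b1 k hk v)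
    have b2' : ∀ v, |∑ p : κ × κ, (x p.1 ε * x p.2 ε) * P p.1 p.2 v| ≤
        ∑ p, |x p.1 ε * x p.2 ε| * CP p := fun v =>
      (Finset.abs_sum_le_sum_abs _ _).trans (Finset.sum_le_sum fun p hp => b2 p hp v)
    rw [EP_add hN hε hTb2 (fun v => (abs_add_le _ _).trans (add_le_add (b1' v) (b2' v))),
      EP_add hN hε b1' b2', EP_sum hN hε _ _ _ b1, EP_sum hN hε _ _ _ b2] at h8
    simp only [EP_const_mul] at h8
    have h9 := div_nonneg h8 h7.le
    have c1 : ∀ k, EP (nm K) ε (fun v => T v * RR (ρ k) (τ k) σ v) / lam ε = x k ε + e1 k ε := by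
      intro k
      simp only [he1]
      ring
    have c2 : (EP (nm K) ε fun v => T v ^ 2) / lam ε = D ε + e2 ε := by
      simp only [he2]
      ring
    have c3 : ∀ p : κ × κ, EP (nm K) ε (P p.1 p.2) / lam ε =
        (if p.1 = p.2 then 1 else 0) + e3 p ε := by
      intro p
      simp only [he3]
      ring
    have h10 : (EP (nm K) ε (fun v => T v ^ 2) +
        (∑ k, -2 * x k ε * EP (nm K) ε (fun v => T v * RR (ρ k) (τ k) σ v) +
          ∑ p : κ × κ, x p.1 ε * x p.2 ε * EP (nm K) ε (P p.1 p.2))) / lam ε =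
        (D ε + e2 ε) + (∑ k, -2 * x k ε * (x k ε + e1 k ε) +
          ∑ p : κ × κ, x p.1 ε * x p.2 ε * ((if p.1 = p.2 then 1 else 0) + e3 p ε)) := by
      rw [add_div, add_div, Finset.sum_div, Finset.sum_div, c2]
      congr 2
      · refine Finset.sum_congr rfl fun k _ => ?_
        rw [mul_div_assoc, c1]
      · refine Finset.sum_congr rfl fun p _ => ?_
        rw [mul_div_assoc, c3]
    rw [h10] at h9
    have h11 : ∑ p : κ × κ, x p.1 ε * x p.2 ε * ((if p.1 = p.2 then 1 else 0) + e3 p ε) =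
        ∑ k, x k ε ^ 2 + ∑ p : κ × κ, x p.1 ε * x p.2 ε * e3 p ε := by
      simp only [mul_add]
      rw [Finset.sum_add_distrib]
      congr 1
      rw [Fintype.sum_prod_type]
      refine Finset.sum_congr rfl fun k _ => ?_
      simp only [mul_ite, mul_one, mul_zero]
      rw [Finset.sum_ite_eq, if_pos (Finset.mem_univ _)]
      ring
    have h12 : ∑ k, -2 * x k ε * (x k ε + e1 k ε) =
        -2 * ∑ k, x k ε ^ 2 + ∑ k, -2 * x k ε * e1 k ε := by
      rw [Finset.mul_sum, ← Finset.sum_add_distrib]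
      exact Finset.sum_congr rfl fun k _ => by ring
    rw [h11, h12] at h9
    have h13 : ∑ k, -2 * x k ε * e1 k ε ≤ ∑ k, (2 * ((N : ℝ) + 1)) * |e1 k ε| := by
      refine Finset.sum_le_sum fun k _ => ?_
      refine (le_abs_self _).trans ?_
      rw [abs_mul, abs_mul, abs_neg, abs_two]
      exact mul_le_mul_of_nonneg_right (mul_le_mul_of_nonneg_left (h5 k) (by norm_num))
        (abs_nonneg _)
    have h14 : ∑ p : κ × κ, x p.1 ε * x p.2 ε * e3 p ε ≤
        ∑ p, (((N : ℝ) + 1) * ((N : ℝ) + 1)) * |e3 p ε| := by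
      refine Finset.sum_le_sum fun p _ => ?_
      refine (le_abs_self _).trans ?_
      rw [abs_mul, abs_mul]
      exact mul_le_mul_of_nonneg_right (mul_le_mul (h5 p.1) (h5 p.2) (abs_nonneg _)
        (by positivity)) (abs_nonneg _)
    have h15 := le_abs_self (e2 ε)
    simp only [hbnd] at h4
    linarith
  · -- a term that is not self-dual
    have h3 := has_half U hU ρ hρ τ σ hσ k (hirr k) hns
    set e3 : ℝ → ℝ := fun ε =>
      (EP (nm K) ε fun v => RR (ρ k) (τ k) σ v ^ 2) / lam ε - 1 / 2 with he3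
    have h3' : Tendsto e3 (𝓝[>] 0) (𝓝 0) := by
      have h4 := h3.2.sub_const (1 / 2)
      rw [sub_self] at h4
      exact h4
    obtain ⟨CR, hCR⟩ := h3.1
    set bnd : ℝ → ℝ := fun ε => |e2 ε| + ((4 * ((N : ℝ) + 1)) * |e1 k ε| +
      (4 * (((N : ℝ) + 1) * ((N : ℝ) + 1))) * |e3 ε|) with hbnd
    have hbl : Tendsto bnd (𝓝[>] 0) (𝓝 0) := by
      have h4 := h2.abs.add ((((h1 k).abs.const_mul (4 * ((N : ℝ) + 1)))).add
        (h3'.abs.const_mul (4 * (((N : ℝ) + 1) * ((N : ℝ) + 1)))))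
      rw [abs_zero, mul_zero, mul_zero, add_zero, add_zero] at h4
      exact h4
    filter_upwards [hbl.eventually_lt_const hη, hxb, self_mem_nhdsWithin,
      lam_tendsto.eventually_gt_atTop 0] with ε h4 h5 h6 h7
    have hε : (0 : ℝ) < ε := h6
    have h8 : 0 ≤ EP (nm K) ε fun v => T v ^ 2 +
        ((-4 * x k ε) * (T v * RR (ρ k) (τ k) σ v) +
          (4 * x k ε ^ 2) * RR (ρ k) (τ k) σ v ^ 2) := by
      refine EP_nonneg fun v => ?_
      have h9 : T v ^ 2 + ((-4 * x k ε) * (T v * RR (ρ k) (τ k) σ v) +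
          (4 * x k ε ^ 2) * RR (ρ k) (τ k) σ v ^ 2) =
          (T v - 2 * x k ε * RR (ρ k) (τ k) σ v) ^ 2 := by ring
      rw [h9]
      exact sq_nonneg _
    have b1 : ∀ v, |(-4 * x k ε) * (T v * RR (ρ k) (τ k) σ v)| ≤ |-4 * x k ε| * (N * r k) := by
      intro v
      rw [abs_mul]
      exact mul_le_mul_of_nonneg_left (hTR k v) (abs_nonneg _)
    have b2 : ∀ v, |(4 * x k ε ^ 2) * RR (ρ k) (τ k) σ v ^ 2| ≤ |4 * x k ε ^ 2| * CR := by
      intro v
      rw [abs_mul]
      exact mul_le_mul_of_nonneg_left (hCR v) (abs_nonneg _)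
    rw [EP_add hN hε hTb2 (fun v => (abs_add_le _ _).trans (add_le_add (b1 v) (b2 v))),
      EP_add hN hε b1 b2, EP_const_mul, EP_const_mul] at h8
    have h9 := div_nonneg h8 h7.le
    have c1 : EP (nm K) ε (fun v => T v * RR (ρ k) (τ k) σ v) / lam ε = x k ε + e1 k ε := by
      simp only [he1]
      ring
    have c2 : (EP (nm K) ε fun v => T v ^ 2) / lam ε = D ε + e2 ε := by
      simp only [he2]
      ring
    have c3 : (EP (nm K) ε fun v => RR (ρ k) (τ k) σ v ^ 2) / lam ε = 1 / 2 + e3 ε := by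
      simp only [he3]
      ring
    rw [add_div, add_div, mul_div_assoc, mul_div_assoc, c1, c2, c3] at h9
    have h13 : -4 * x k ε * e1 k ε ≤ (4 * ((N : ℝ) + 1)) * |e1 k ε| := by
      refine (le_abs_self _).trans ?_
      rw [abs_mul, abs_mul]
      have h14 : |(-4 : ℝ)| = 4 := by norm_num
      rw [h14]
      exact mul_le_mul_of_nonneg_right (mul_le_mul_of_nonneg_left (h5 k) (by norm_num))
        (abs_nonneg _)
    have h14 : 4 * x k ε ^ 2 * e3 ε ≤ (4 * (((N : ℝ) + 1) * ((N : ℝ) + 1))) * |e3 ε| := by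
      refine (le_abs_self _).trans ?_
      rw [abs_mul, abs_mul]
      have h15 : |(4 : ℝ)| = 4 := by norm_num
      rw [h15, sq, abs_mul]
      exact mul_le_mul_of_nonneg_right (mul_le_mul_of_nonneg_left (mul_le_mul (h5 k) (h5 k)
        (abs_nonneg _) (by positivity)) (by norm_num)) (abs_nonneg _)
    have h15 := le_abs_self (e2 ε)
    simp only [hbnd] at h4
    nlinarith

/-- **The inequality between the orders.** -/
theorem orderInequality (hi : i ≤ 2 * d) {n : ℤ} (hn : SquarePole X d i N n) :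
    OrderInequality X d i N n := by
  classical
  obtain ⟨B₂, hB₂, hn⟩ := hn
  intro κ _ r ρ τ hA hirr hne m hm
  choose B hB hm using hm
  obtain ⟨U, hUn, hU, hρ⟩ := exists_common ρ hA
  have hfin : Finite (GK K ⧸ U) := Subgroup.quotient_finite_of_isOpen U hU
  have h1 := sizeInequality hi B₂ hB₂ κ r ρ τ hA hirr hne B hB
  have h2 : Tendsto (squareSize B₂) (𝓝[>] 0) (𝓝 (n : ℝ)) := sq_lim hi hB₂ hn
  have h3 : ∀ k, Tendsto (size i (τ k) (B k)) (𝓝[>] 0) (𝓝 (-(m k : ℝ))) := fun k =>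
    tw_lim hi U (ρ k) (hρ k) (τ k) (B k) (hB k) (hm k)
  constructor
  · have h4 : ∑ k, (-(m k : ℝ)) ^ 2 ≤ n := by
      refine le_of_forall_pos_le_add fun η hη => ?_
      exact le_of_tendsto_of_tendsto (tendsto_finsetSum Finset.univ fun k _ => (h3 k).pow 2)
        (h2.add_const η) (h1 η hη).1
    have h5 : ∑ k, (-(m k : ℝ)) ^ 2 = ((∑ k, m k ^ 2 : ℤ) : ℝ) := by
      push_cast
      exact Finset.sum_congr rfl fun k _ => by ring
    rw [h5] at h4
    exact_mod_cast h4
  · intro k hns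
    have h4 : 2 * (-(m k : ℝ)) ^ 2 ≤ n := by
      refine le_of_forall_pos_le_add fun η hη => ?_
      exact le_of_tendsto_of_tendsto (((h3 k).pow 2).const_mul 2)
        (h2.add_const η) ((h1 η hη).2 k hns)
    have h5 : 2 * (-(m k : ℝ)) ^ 2 = ((2 * m k ^ 2 : ℤ) : ℝ) := by
      push_cast
      ring
    rw [h5] at h4
    exact_mod_cast h4

end

end Pool.Agent.TH129.RS
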