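import Pool.Agent.TH129.RS.Cont
import Pool.Agent.TH129.RS.Conc

/-!
# Simple poles
-/

set_option autoImplicit false

namespace Pool.Agent.TH129.RS

open Filter Topology NumberField IsDedekindDomain Polynomial
open Pool.Agent.W353.EF (IsFrobenius OrderOver)
open Pool.Agent.W353.AT (IsArtin IsTwistedSystem TwistOrder)

section
variable {K : Type} [Field K] [NumberField K] {l : ℕ} {X : Set (MvPolynomial (Fin l) (𝓞 K))}
  {d i N : ℕ}

/-- **At most one zero or pole.** -/
theorem atMostOne (hi : i ≤ 2 * d) (hn : SquarePole X d i N 1) : AtMostOne X d i N := by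
  classical
  intro r ρ τ m hA hirr hm hm0
  have h1 := orderInequality hi hn Unit (fun _ => r) (fun _ => ρ) (fun _ => τ) (fun _ => hA)
    (fun _ => hirr) (fun k l hkl => absurd rfl hkl) (fun _ => m) (fun _ => hm)
  obtain ⟨h2, h3⟩ := h1
  have h2' : m ^ 2 ≤ 1 := by simpa using h2
  have h4 : m = 1 ∨ m = -1 := by
    have h5 : -1 ≤ m := by nlinarith
    have h6 : m ≤ 1 := by nlinarith
    omega
  have hm2 : m ^ 2 = 1 := by
    rcases h4 with h | h <;> rw [h] <;> norm_num
  have h5 : ¬ NotSelfDual ρ τ := by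
    intro h
    have h6 := h3 () h
    rw [hm2] at h6
    omega
  unfold NotSelfDual at h5
  push Not at h5
  obtain ⟨hτ, hreal⟩ := h5
  obtain ⟨hdim, hrig⟩ := rigidity hi hn r ρ τ m hA hirr hm hm2
  have hr : r ≤ N := by
    have h7 : |m| = 1 := by
      rcases h4 with h | h <;> rw [h] <;> norm_num
    rw [h7, one_mul] at hdim
    exact_mod_cast hdim
  refine ⟨h4, hτ, hreal, hr, fun r' ψ τ' m' hA' hm' => ?_⟩
  have h6 := hrig r' ψ τ' m' hA' hm'
  rw [h6, hτ]
  by_cases ht : τ' = 0
  · rw [if_pos ht, if_pos ht.symm]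
  · rw [if_neg ht, if_neg fun h => ht h.symm]

/-- the trivial representation -/
theorem isArtin_trivial : IsArtin (K := K)
    (Representation.trivial ℂ Gal(AlgebraicClosure K/K) (Fin 1 → ℂ)) :=
  ⟨⊤, isOpen_univ, fun _ _ => rfl⟩

theorem twist_trivial {m : ℤ} (h : OrderOver X d i N K m) :
    TwistOrder X d i N (Representation.trivial ℂ Gal(AlgebraicClosure K/K) (Fin 1 → ℂ)) 0 m := by
  obtain ⟨_, B, hB, Λ, h1, h2, h3⟩ := h
  have he : Pool.Agent.W353.EH.edgePoint i 0 = (i : ℂ) / 2 + 1 := by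
    unfold Pool.Agent.W353.EH.edgePoint
    push_cast
    ring
  have hdet : ∀ c : ℂ, LinearMap.det ((1 : Module.End ℂ (Fin 1 → ℂ)) -
      c • (1 : Module.End ℂ (Fin 1 → ℂ))) = 1 - c := by
    intro c
    have h3 : ((1 : Module.End ℂ (Fin 1 → ℂ)) - c • (1 : Module.End ℂ (Fin 1 → ℂ))) =
        (1 - c) • (LinearMap.id : (Fin 1 → ℂ) →ₗ[ℂ] (Fin 1 → ℂ)) := by
      refine LinearMap.ext fun x => ?_
      rw [LinearMap.sub_apply, LinearMap.smul_apply, LinearMap.smul_apply, Module.End.one_apply,
        LinearMap.id_apply, sub_smul, one_smul]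
    rw [h3, LinearMap.det_smul, LinearMap.det_id]
    simp
  refine ⟨B, ⟨hB.1.mono fun v hv => ?_, fun v => ?_⟩, Λ, ?_, ?_, ?_⟩
  · obtain ⟨α, h4, h5⟩ := hv
    refine ⟨α, h4, fun σ _ z => ?_⟩
    rw [h5 z]
    exact Finset.prod_congr rfl fun j _ => (hdet _).symm
  · rw [he]
    exact hB.2 v
  · rw [he]
    exact h1
  · rw [he]
    exact h2
  · rw [he]
    exact h3

/-- **Non-vanishing.** -/
theorem nonVanishing (hi : i ≤ 2 * d) (hn : SquarePole X d i N 1) : NonVanishing X d i N := by
  classical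
  intro m hm
  have h1 := fieldInequality hi hn m hm
  have hK := gramInequality hi hn Unit (fun _ => 1)
    (fun _ => Representation.trivial ℂ Gal(AlgebraicClosure K/K) (Fin 1 → ℂ)) (fun _ => 0)
    (fun _ => isArtin_trivial) (fun _ => m) (fun _ => twist_trivial hm)
  have hone : Module.finrank ℂ (Representation.IntertwiningMap
      (Representation.trivial ℂ Gal(AlgebraicClosure K/K) (Fin 1 → ℂ))
      (Representation.trivial ℂ Gal(AlgebraicClosure K/K) (Fin 1 → ℂ))) ≤ 1 := by
    let f : Representation.IntertwiningMap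
        (Representation.trivial ℂ Gal(AlgebraicClosure K/K) (Fin 1 → ℂ))
        (Representation.trivial ℂ Gal(AlgebraicClosure K/K) (Fin 1 → ℂ)) →ₗ[ℂ]
        ((Fin 1 → ℂ) →ₗ[ℂ] (Fin 1 → ℂ)) :=
      { toFun := fun f => f.toLinearMap
        map_add' := fun _ _ => rfl
        map_smul' := fun _ _ => rfl }
    have hf : Function.Injective f := fun a b h => by
      cases a
      cases b
      congr
    refine (LinearMap.finrank_le_finrank_of_injective hf).trans ?_
    rw [Module.finrank_linearMap]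
    simp
  have hm2 : m ^ 2 ≤ 1 := by
    have h2 := hK fun _ => 1
    simp only [Finset.univ_unique, Finset.sum_singleton, one_mul, if_true, Int.cast_one] at h2
    have h3 : ((Module.finrank ℂ (Representation.IntertwiningMap
      (Representation.trivial ℂ Gal(AlgebraicClosure K/K) (Fin 1 → ℂ))
      (Representation.trivial ℂ Gal(AlgebraicClosure K/K) (Fin 1 → ℂ))) : ℕ) : ℝ) ≤ 1 := by
      exact_mod_cast hone
    have h4 := h2.trans h3
    exact_mod_cast h4
  have hneg : -1 ≤ m := by nlinarith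
  have hpos : m ≤ 1 := by nlinarith
  have hsq : ¬ m ≤ 0 → m = 1 := fun h => by omega
  refine ⟨abs_le.mpr ⟨hneg, hpos⟩, fun F _ _ k hk hk1 => ?_, fun r ρ τ k hA hirr hnt hk hk0 => ?_,
    fun α hα h => ?_⟩
  · by_contra h0
    have hm1 := hsq h0
    have h2 := h1 F k hk
    rw [hm1] at h2
    norm_num at h2
    have h3 : k - 1 = 0 := by nlinarith [sq_nonneg (k - 1)]
    omega
  · obtain ⟨-, -, -, -, h2⟩ := atMostOne hi hn r ρ τ k hA hirr hk hk0
    have h3 := h2 1 _ 0 m isArtin_trivial (twist_trivial hm)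
    rw [if_pos rfl] at h3
    have h4 : Subsingleton (Representation.IntertwiningMap ρ
        (Representation.trivial ℂ Gal(AlgebraicClosure K/K) (Fin 1 → ℂ))) := by
      refine ⟨fun f g => ?_⟩
      by_contra hfg
      have h5 : f - g ≠ 0 := sub_ne_zero.mpr hfg
      have h6 := (Representation.IsIrreducible.injective_or_eq_zero (ρ := ρ) (f - g)).resolve_right
        h5
      obtain ⟨γ, hγ⟩ := hnt
      apply hγ
      refine LinearMap.ext fun x => h6 ?_
      have h7 := LinearMap.congr_fun ((f - g).isIntertwining' γ) x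
      exact h7
    rw [Module.finrank_zero_of_subsingleton, Nat.cast_zero, mul_zero] at h3
    exact h3
  · by_contra h0
    have hm1 := hsq h0
    obtain ⟨S, δ, hδ, -, h2, -⟩ := equality_case hi hn hm (by rw [hm1]; norm_num) hα
    refine h S δ hδ ?_
    rw [hm1] at h2
    simpa using h2

/-- **No zeros and no poles.** -/
theorem noZeros (hi : i ≤ 2 * d) (hn : SquarePole X d i N 1) : NoZeros X d i N := by
  classical
  intro α hα hA r ρ τ m hart hirr hm
  by_contra hm0
  obtain ⟨h1, hτ, hreal, -, -⟩ := atMostOne hi hn r ρ τ m hart hirr hm hm0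
  have hm2 : m ^ 2 = 1 := by
    rcases h1 with h | h <;> rw [h] <;> norm_num
  obtain ⟨V, hVn, hV, hρV⟩ := Pool.Agent.W353.AT.exists_common (κ := Unit) (n := fun _ => r)
    (fun _ => ρ) fun _ => hart
  have hfin : Finite (Gal(AlgebraicClosure K/K) ⧸ V) := Subgroup.quotient_finite_of_isOpen V hV
  have hval : (Set.range fun g : Gal(AlgebraicClosure K/K) => -(m : ℝ) * (ρ.character g).re).Finite := by
    refine (Set.finite_range fun q : Gal(AlgebraicClosure K/K) ⧸ V =>
      -(m : ℝ) * (ρ.character q.out).re).subset ?_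
    rintro _ ⟨g, rfl⟩
    refine ⟨QuotientGroup.mk g, ?_⟩
    obtain ⟨h, hh⟩ := QuotientGroup.mk_out_eq_mul V g
    have h2 : ρ ((QuotientGroup.mk g : Gal(AlgebraicClosure K/K) ⧸ V).out) = ρ g := by
      rw [hh, map_mul, hρV () h.1 h.2, mul_one]
    simp only
    unfold Representation.character
    rw [h2]
  obtain ⟨η, hη, hne⟩ := hA hval.toFinset
  choose σ hσ using Pool.Agent.W540.BE.exists_isFrob (F := K)
  have h3 := concentration hi hn Unit (fun _ => r) (fun _ => ρ) (fun _ => τ) (fun _ => hart)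
    (fun _ => hirr) (fun k l hkl => absurd rfl hkl) (fun _ => m) (fun _ => hm)
    (by simpa using hm2) α hα σ hσ η hη
  refine hne (DensityZero.mono h3 fun v hv => ?_)
  have h4 := hv (-(m : ℝ) * (ρ.character (σ v)⁻¹).re) (by
    rw [Set.Finite.mem_toFinset]
    exact ⟨(σ v)⁻¹, rfl⟩)
  show η ≤ ‖_‖
  have h5 : |(∑ j, Pool.Agent.TH129.ST.unit i α v j).re - -(m : ℝ) * (ρ.character (σ v)⁻¹).re| =
      |(∑ j, Pool.Agent.TH129.ST.unit i α v j + ∑ _k : Unit, (m : ℂ) *
        (ρ.character (σ v)⁻¹ * (Ideal.absNorm v.asIdeal : ℂ) ^ (-(τ * Complex.I)))).re| := by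
    rw [hτ]
    simp only [Finset.univ_unique, Finset.sum_singleton, Complex.add_re, Complex.ofReal_zero,
      zero_mul, neg_zero, Complex.cpow_zero, mul_one, Complex.mul_re, Complex.intCast_re,
      Complex.intCast_im]
    congr 1
    ring
  rw [h5] at h4
  exact h4.trans (Complex.abs_re_le_norm _)

/-- **The equality case.** -/
theorem equalityCase (hi : i ≤ 2 * d) {n : ℤ} (hn : SquarePole X d i N n) : EqualityCase X d i N n :=
  fun _ hm hmn _ hα => equality_case hi hn hm hmn hα

end

end Pool.Agent.TH129.RS
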