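import Pool.Agent.TH129.RS.Ana

/-!
# The logarithm of an Euler product over unit numbers as a sum over prime powers
-/

set_option autoImplicit false

namespace Pool.Agent.TH129.RS

open Filter Topology NumberField IsDedekindDomain Polynomial
open Pool.Agent.H921R2.TatePole (nm two_le_nm)
open Pool.Agent.TH129.ST (eulerProduct HasPoleOrder IsUnitSystem unit_edge)
open Pool.Agent.TH129.EM (nq nq_places Edge)

section
variable {K : Type} [Field K] [NumberField K]

open Classical in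
/-- the coefficients: the real parts of the power sums, divided by the exponent, outside `S` -/
noncomputable def cw (S : Finset (HeightOneSpectrum (𝓞 K))) {N : ℕ}
    (w : HeightOneSpectrum (𝓞 K) → Fin N → ℂ) (p : HeightOneSpectrum (𝓞 K) × ℕ) : ℝ :=
  if p.1 ∈ S then 0 else (∑ j, w p.1 j ^ (p.2 + 1)).re / ((p.2 : ℝ) + 1)

theorem abs_cw_le {S : Finset (HeightOneSpectrum (𝓞 K))} {N : ℕ}
    {w : HeightOneSpectrum (𝓞 K) → Fin N → ℂ} (hw : ∀ v ∉ S, ∀ j, ‖w v j‖ = 1)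
    (p : HeightOneSpectrum (𝓞 K) × ℕ) : |cw S w p| ≤ N := by
  classical
  unfold cw
  split_ifs with h
  · rw [abs_zero]
    exact Nat.cast_nonneg _
  · have h1 : (1 : ℝ) ≤ (p.2 : ℝ) + 1 := by
      have : (0 : ℝ) ≤ p.2 := Nat.cast_nonneg _
      linarith
    rw [abs_div, abs_of_pos (show (0 : ℝ) < (p.2 : ℝ) + 1 by linarith)]
    refine (div_le_self (abs_nonneg _) h1).trans ?_
    refine (Complex.abs_re_le_norm _).trans ((norm_sum_le _ _).trans ?_)
    refine (Finset.sum_le_sum fun j _ => (show ‖w p.1 j ^ (p.2 + 1)‖ ≤ 1 from ?_)).trans ?_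
    · rw [norm_pow, hw p.1 h j, one_pow]
    · simp

theorem cpow_real (v : HeightOneSpectrum (𝓞 K)) (σ : ℝ) :
    (Ideal.absNorm v.asIdeal : ℂ) ^ (-(σ : ℂ)) = (((nm v : ℝ) ^ (-σ) : ℝ) : ℂ) := by
  rw [Complex.ofReal_cpow (Nat.cast_nonneg _)]
  push_cast
  rfl

open Classical in
/-- the sum over the exponents -/
theorem cw_fiber {S : Finset (HeightOneSpectrum (𝓞 K))} {N : ℕ}
    {w : HeightOneSpectrum (𝓞 K) → Fin N → ℂ} (hw : ∀ v ∉ S, ∀ j, ‖w v j‖ = 1) {σ : ℝ}
    (hσ : 1 < σ) : HasSum (fun v => if v ∈ S then 0 else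
      Real.log ‖∏ j, (1 - w v j * (Ideal.absNorm v.asIdeal : ℂ) ^ (-(σ : ℂ)))‖⁻¹)
      (∑' p, cw S w p * Real.exp (-(σ * Lq p))) := by
  have h1 : Summable fun p => cw S w p * Real.exp (-(σ * Lq p)) := by
    refine Summable.of_norm ?_
    refine (summ_bdd (abs_cw_le hw) hσ).congr fun p => ?_
    rw [norm_mul, Real.norm_eq_abs, Real.norm_of_nonneg (Real.exp_pos _).le]
  refine h1.hasSum.prod_fiberwise fun v => ?_
  by_cases hv : v ∈ S
  · rw [if_pos hv]
    have e : (fun k : ℕ => cw S w (v, k) * Real.exp (-(σ * Lq (v, k)))) = fun _ => 0 := by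
      funext k
      unfold cw
      rw [if_pos hv, zero_mul]
    rw [e]
    exact hasSum_zero
  · rw [if_neg hv, cpow_real]
    have e : (fun k : ℕ => cw S w (v, k) * Real.exp (-(σ * Lq (v, k)))) =
        fun k : ℕ => (∑ j, w v j ^ (k + 1)).re / ((k : ℝ) + 1) * ((nm v : ℝ) ^ (-σ)) ^ (k + 1) := by
      funext k
      rw [exp_Lq]
      unfold cw
      rw [if_neg hv]
    rw [e]
    exact log_prod (hw v hv) (pow_pos' v σ) (pow_le_half v hσ.le)

/-- removing finitely many primes -/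
theorem hasSum_drop {S : Finset (HeightOneSpectrum (𝓞 K))} {a b : HeightOneSpectrum (𝓞 K) → ℝ}
    {A B : ℝ} (ha : HasSum a A) (hb : HasSum b B) (h : ∀ v ∉ S, b v = a v) (h0 : ∀ v ∈ S, b v = 0) :
    B = A - ∑ v ∈ S, a v := by
  have h1 := ha.sub hb
  have h2 : HasSum (fun v => a v - b v) (∑ v ∈ S, (a v - b v)) :=
    hasSum_sum_of_ne_finset_zero fun v hv => by rw [h v hv, sub_self]
  have h3 := h1.unique h2
  have h4 : ∑ v ∈ S, (a v - b v) = ∑ v ∈ S, a v :=
    Finset.sum_congr rfl fun v hv => by rw [h0 v hv, sub_zero]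
  rw [h4] at h3
  linarith

/-- **The logarithm of a product with a continuation.** -/
theorem AL_unit {S : Finset (HeightOneSpectrum (𝓞 K))} {N : ℕ}
    {w : HeightOneSpectrum (𝓞 K) → Fin N → ℂ} {B : HeightOneSpectrum (𝓞 K) → ℂ[X]}
    (hw : ∀ v ∉ S, (∀ j, ‖w v j‖ = 1) ∧ (∑ j, w v j).im = 0 ∧
      ∀ z : ℂ, (B v).eval z = ∏ j, (1 - w v j * z))
    (hne : ∀ v, (B v).eval ((Ideal.absNorm v.asIdeal : ℂ) ^ (-(1 : ℂ))) ≠ 0) {k : ℤ}
    (hk : HasPoleOrder B k) :
    AL (fun σ => ∑' p, cw S w p * Real.exp (-(σ * Lq p))) k := by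
  classical
  set t : HeightOneSpectrum (𝓞 K) → ℝ := fun v => if v ∈ S then 0 else (∑ j, w v j).re with ht
  have htb : ∀ v, |t v| ≤ (N : ℝ) := by
    intro v
    simp only [ht]
    split_ifs with h
    · rw [abs_zero]
      exact Nat.cast_nonneg _
    · refine (Complex.abs_re_le_norm _).trans ((norm_sum_le _ _).trans ?_)
      refine (Finset.sum_le_sum fun j _ => ((hw v h).1 j).le).trans ?_
      simp
  have hcof : ∀ᶠ v in cofinite, v ∉ S := by
    rw [Filter.eventually_cofinite]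
    simpa using S.finite_toSet
  have hus : IsUnitSystem N B t := by
    refine ⟨hcof.mono fun v hv => ⟨w v, (hw v hv).1, ?_, (hw v hv).2.2⟩, hne⟩
    simp only [ht]
    rw [if_neg hv]
    refine Complex.ext ?_ ?_
    · rw [Complex.ofReal_re]
    · rw [Complex.ofReal_im, (hw v hv).2.1]
  have hedge := unit_edge htb (Nat.cast_nonneg N) hus
  obtain ⟨D, hD, hr⟩ := hedge.rest
  have hshift : Tendsto (fun σ : ℝ => σ - 1) (𝓝[>] 1) (𝓝[>] 0) := by
    rw [tendsto_nhdsWithin_iff]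
    constructor
    · have h1 : Continuous fun σ : ℝ => σ - 1 := by fun_prop
      have h2 := h1.tendsto 1
      simp only [sub_self] at h2
      exact tendsto_nhdsWithin_of_tendsto_nhds h2
    · filter_upwards [self_mem_nhdsWithin] with σ hσ
      have hσ1 : (1 : ℝ) < σ := hσ
      show (0 : ℝ) < σ - 1
      linarith
  have h1 : AL (fun σ => Real.log ‖eulerProduct B (σ : ℂ)‖ + (-1) *
      ∑ v ∈ S, Real.log ‖(B v).eval ((Ideal.absNorm v.asIdeal : ℂ) ^ (-(σ : ℂ)))‖⁻¹) k := by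
    have h2 := (AL.sum S fun v _ => AL_local v (hne v)).const_mul (-1)
    have h3 := (AL_pole hk).add h2
    rw [mul_zero, add_zero] at h3
    exact h3
  refine h1.congr ?_
  filter_upwards [hshift.eventually hr, hshift.eventually hedge.prod, self_mem_nhdsWithin] with σ
    h2 h3 hσ
  have hσ1 : (1 : ℝ) < σ := hσ
  have e1 : (1 : ℂ) + ((σ - 1 : ℝ) : ℂ) = σ := by push_cast; ring
  simp only [e1] at h2 h3
  have h4 : Summable fun v => Real.log ‖(B v).eval ((Ideal.absNorm v.asIdeal : ℂ) ^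
      (-(σ : ℂ)))‖⁻¹ := by
    have h5 : Summable fun v : HeightOneSpectrum (𝓞 K) => Real.log ‖(B v).eval
        ((Ideal.absNorm v.asIdeal : ℂ) ^ (-(σ : ℂ)))‖⁻¹ - t v / nq v * (nq v : ℝ) ^ (-(σ - 1)) :=
      Summable.of_norm_bounded hD fun v => (h2 v).2
    refine (h5.add (hedge.c_summable (show (0 : ℝ) < σ - 1 by linarith))).congr fun v => ?_
    ring
  have h5 := h4.hasSum.rexp
  have h6 : (fun v : HeightOneSpectrum (𝓞 K) => ‖(B v).eval ((Ideal.absNorm v.asIdeal : ℂ) ^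
      (-(σ : ℂ)))‖⁻¹) = Real.exp ∘ fun v => Real.log ‖(B v).eval
        ((Ideal.absNorm v.asIdeal : ℂ) ^ (-(σ : ℂ)))‖⁻¹ := by
    funext v
    exact (Real.exp_log (h2 v).1).symm
  rw [h6] at h3
  have h7 := h3.unique h5
  have h8 : HasSum (fun v => Real.log ‖(B v).eval ((Ideal.absNorm v.asIdeal : ℂ) ^
      (-(σ : ℂ)))‖⁻¹) (Real.log ‖eulerProduct B (σ : ℂ)‖) := by
    rw [h7, Real.log_exp]
    exact h4.hasSum
  have h9 := hasSum_drop (S := S) h8 (cw_fiber (fun v hv => (hw v hv).1) hσ1) (fun v hv => by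
    rw [if_neg hv, (hw v hv).2.2]) (fun v hv => by rw [if_pos hv])
  rw [h9]
  ring

/-- **The logarithm of the zeta function.** -/
theorem AL_zeta_drop (S : Finset (HeightOneSpectrum (𝓞 K))) :
    AL (fun σ => ∑' p, cw S (fun _ (_ : Fin 1) => 1) p * Real.exp (-(σ * Lq p))) 1 := by
  classical
  have hP : ∀ v : HeightOneSpectrum (𝓞 K), ((1 : ℂ[X]) - X).eval
      ((Ideal.absNorm v.asIdeal : ℂ) ^ (-(1 : ℂ))) ≠ 0 := by
    intro v h
    rw [eval_sub, eval_one, eval_X, sub_eq_zero] at h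
    have h1 := cpow_real v 1
    rw [Complex.ofReal_one] at h1
    rw [h1] at h
    have h2 : (1 : ℝ) = (nm v : ℝ) ^ (-(1 : ℝ)) := by exact_mod_cast h
    have h3 := pow_le_half v le_rfl
    linarith
  have h1 : AL (fun σ => Phr K σ + (-1) *
      ∑ v ∈ S, Real.log ‖((1 : ℂ[X]) - X).eval ((Ideal.absNorm v.asIdeal : ℂ) ^ (-(σ : ℂ)))‖⁻¹) 1 := by
    have h2 := (AL.sum S fun v _ => AL_local v (hP v)).const_mul (-1)
    have h3 := (AL_zeta (K := K)).add h2
    rw [mul_zero, add_zero] at h3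
    exact h3
  refine h1.congr ?_
  filter_upwards [self_mem_nhdsWithin] with σ hσ
  have hσ1 : (1 : ℝ) < σ := hσ
  have h2 := cw_fiber (K := K) (S := ∅) (w := fun _ (_ : Fin 1) => 1)
    (fun v _ j => norm_one) hσ1
  have h3 := cw_fiber (K := K) (S := S) (w := fun _ (_ : Fin 1) => 1)
    (fun v _ j => norm_one) hσ1
  have h4 : ∑' p, cw (∅ : Finset (HeightOneSpectrum (𝓞 K))) (fun _ (_ : Fin 1) => 1) p *
      Real.exp (-(σ * Lq p)) = Phr K σ := by
    unfold Phr
    refine tsum_congr fun p => ?_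
    unfold cw cz
    simp
  rw [h4] at h2
  have h5 := hasSum_drop (S := S) h2 h3 (fun v hv => by
    rw [if_neg hv, if_neg (Finset.notMem_empty v)]) (fun v hv => by rw [if_pos hv])
  rw [h5]
  have h6 : ∀ v, (if v ∈ (∅ : Finset (HeightOneSpectrum (𝓞 K))) then (0 : ℝ) else
      Real.log ‖∏ _j : Fin 1, (1 - 1 * (Ideal.absNorm v.asIdeal : ℂ) ^ (-(σ : ℂ)))‖⁻¹) =
      Real.log ‖((1 : ℂ[X]) - X).eval ((Ideal.absNorm v.asIdeal : ℂ) ^ (-(σ : ℂ)))‖⁻¹ := by
    intro v
    rw [if_neg (Finset.notMem_empty v)]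
    simp
  simp only [h6]
  ring

end

end Pool.Agent.TH129.RS
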