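import Pool.Agent.W189.TP.Land
import Pool.Agent.H484R2.Zeta
import Pool.Agent.H332R2.PIT.Analytic

/-!
# The logarithm of the Dedekind zeta function
-/

set_option autoImplicit false

namespace Pool.Agent.TH129.RS

open Filter Topology NumberField IsDedekindDomain Complex
open Pool.Agent.H921R2.TatePole (nm two_le_nm nm_summable ZK ZK_tendsto dedekindZeta_real)
open Pool.Agent.W189.TP (DS DS_diff DS_real summ_cplx norm_term)

section
variable {K : Type} [Field K] [NumberField K]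

theorem countable_pr : Countable (HeightOneSpectrum (𝓞 K)) := by
  have h1 : Set.univ = ⋃ n : ℕ, {v : HeightOneSpectrum (𝓞 K) | nm v ≤ n} := by
    ext v
    simp only [Set.mem_univ, Set.mem_iUnion, Set.mem_ofPred_eq, true_iff]
    exact ⟨nm v, le_rfl⟩
  refine Set.countable_univ_iff.mp ?_
  rw [h1]
  refine Set.countable_iUnion fun n => ?_
  have h2 : {v : HeightOneSpectrum (𝓞 K) | nm v ≤ n} = ((H332.PIT.prLE K n : Finset _) : Set _) := by
    ext v
    rw [Finset.mem_coe, H332.PIT.mem_prLE]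
    rfl
  rw [h2]
  exact (H332.PIT.prLE K n).finite_toSet.countable

/-- the logarithms of the norms of the prime powers -/
noncomputable def Lq (p : HeightOneSpectrum (𝓞 K) × ℕ) : ℝ := ((p.2 : ℝ) + 1) * Real.log (nm p.1)

theorem log_pos (v : HeightOneSpectrum (𝓞 K)) : 0 < Real.log (nm v) :=
  Real.log_pos (by exact_mod_cast (by have := two_le_nm v; omega : 1 < nm v))

theorem Lq_nonneg (p : HeightOneSpectrum (𝓞 K) × ℕ) : 0 ≤ Lq p := by
  unfold Lq
  have := log_pos p.1
  positivity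

theorem exp_Lq (t : ℝ) (v : HeightOneSpectrum (𝓞 K)) (k : ℕ) :
    Real.exp (-(t * Lq (v, k))) = ((nm v : ℝ) ^ (-t)) ^ (k + 1) := by
  have h0 : (0 : ℝ) < nm v := by exact_mod_cast (by have := two_le_nm v; omega : 0 < nm v)
  rw [Real.rpow_def_of_pos h0, ← Real.exp_nat_mul]
  congr 1
  unfold Lq
  push_cast
  ring

theorem pow_le_half (v : HeightOneSpectrum (𝓞 K)) {t : ℝ} (ht : 1 ≤ t) :
    (nm v : ℝ) ^ (-t) ≤ 1 / 2 := by
  have hq : (2 : ℝ) ≤ nm v := by exact_mod_cast two_le_nm v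
  have h5 : (nm v : ℝ) ^ (-t) ≤ (nm v : ℝ) ^ (-1 : ℝ) :=
    Real.rpow_le_rpow_of_exponent_le (by linarith) (by linarith)
  refine h5.trans ?_
  rw [Real.rpow_neg_one, one_div]
  exact inv_anti₀ (by norm_num) hq

theorem pow_pos' (v : HeightOneSpectrum (𝓞 K)) (t : ℝ) : 0 < (nm v : ℝ) ^ (-t) :=
  Real.rpow_pos_of_pos (by exact_mod_cast (by have := two_le_nm v; omega : 0 < nm v)) _

/-- the series over the prime powers converge for `t > 1` -/
theorem summ_pow {t : ℝ} (ht : 1 < t) :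
    Summable fun p : HeightOneSpectrum (𝓞 K) × ℕ => Real.exp (-(t * Lq p)) := by
  have h1 : ∀ v : HeightOneSpectrum (𝓞 K), HasSum (fun k : ℕ => Real.exp (-(t * Lq (v, k))))
      ((nm v : ℝ) ^ (-t) * (1 - (nm v : ℝ) ^ (-t))⁻¹) := by
    intro v
    have h2 := (hasSum_geometric_of_lt_one (pow_pos' v t).le
      (lt_of_le_of_lt (pow_le_half v ht.le) (by norm_num))).mul_left ((nm v : ℝ) ^ (-t))
    have e : (fun k : ℕ => Real.exp (-(t * Lq (v, k)))) =
        fun k : ℕ => (nm v : ℝ) ^ (-t) * ((nm v : ℝ) ^ (-t)) ^ k := by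
      funext k
      rw [exp_Lq, pow_succ, mul_comm]
    rw [e]
    exact h2
  rw [summable_prod_of_nonneg (fun p => (Real.exp_pos _).le)]
  refine ⟨fun v => (h1 v).summable, ?_⟩
  have h3 : Summable fun v : HeightOneSpectrum (𝓞 K) => 2 * (nm v : ℝ) ^ (-t) :=
    (nm_summable (K := K) ht).mul_left 2
  refine Summable.of_nonneg_of_le (fun v => ?_) (fun v => ?_) h3
  · rw [(h1 v).tsum_eq]
    have h4 := pow_pos' v t
    have h5 := pow_le_half v ht.le
    have : 0 < 1 - (nm v : ℝ) ^ (-t) := by linarith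
    positivity
  · rw [(h1 v).tsum_eq]
    have h4 := pow_pos' v t
    have h5 := pow_le_half v ht.le
    have h6 : (1 - (nm v : ℝ) ^ (-t))⁻¹ ≤ 2 := by
      rw [inv_le_comm₀ (by linarith) (by norm_num)]
      linarith
    nlinarith

/-- bounded coefficients -/
theorem summ_bdd {d : HeightOneSpectrum (𝓞 K) × ℕ → ℝ} {C : ℝ} (hd : ∀ p, |d p| ≤ C) {t : ℝ}
    (ht : 1 < t) : Summable fun p : HeightOneSpectrum (𝓞 K) × ℕ =>
      |d p| * Real.exp (-(t * Lq p)) := by
  refine Summable.of_nonneg_of_le (fun p => by positivity) (fun p => ?_) ((summ_pow ht).mul_left C)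
  exact mul_le_mul_of_nonneg_right (hd p) (Real.exp_pos _).le

/-- the coefficients of the logarithm of the zeta function -/
noncomputable def cz (p : HeightOneSpectrum (𝓞 K) × ℕ) : ℝ := 1 / ((p.2 : ℝ) + 1)

theorem cz_nonneg (p : HeightOneSpectrum (𝓞 K) × ℕ) : 0 ≤ cz p := by
  unfold cz
  positivity

theorem abs_cz_le (p : HeightOneSpectrum (𝓞 K) × ℕ) : |cz p| ≤ 1 := by
  rw [abs_of_nonneg (cz_nonneg p)]
  unfold cz
  rw [div_le_one (by positivity)]
  have : (0 : ℝ) ≤ p.2 := Nat.cast_nonneg _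
  linarith

variable (K) in
/-- `∑ q_v^{-ks} / k` -/
noncomputable def Ph (s : ℂ) : ℂ := DS (cz (K := K)) Lq s

theorem isOpen_hp : IsOpen {s : ℂ | 1 < s.re} := isOpen_lt continuous_const Complex.continuous_re

theorem Ph_diff : DifferentiableOn ℂ (Ph K) {s : ℂ | 1 < s.re} :=
  DS_diff Lq_nonneg fun _ ht => summ_bdd abs_cz_le ht

/-- the prime powers of norm `n` -/
noncomputable def fib (K : Type) [Field K] [NumberField K] (n : ℕ) :
    Finset (HeightOneSpectrum (𝓞 K) × ℕ) := by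
  classical
  exact ((H332.PIT.prLE K n) ×ˢ Finset.range n).filter fun p => nm p.1 ^ (p.2 + 1) = n

theorem mem_fib (n : ℕ) (p : HeightOneSpectrum (𝓞 K) × ℕ) :
    p ∈ fib K n ↔ nm p.1 ^ (p.2 + 1) = n := by
  classical
  unfold fib
  rw [Finset.mem_filter, Finset.mem_product, H332.PIT.mem_prLE, Finset.mem_range]
  constructor
  · exact fun h => h.2
  · intro h
    have h2 := two_le_nm p.1
    have h3 : nm p.1 ≤ nm p.1 ^ (p.2 + 1) := Nat.le_self_pow (by omega) _
    have h4 : p.2 + 1 < 2 ^ (p.2 + 1) := Nat.lt_two_pow_self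
    have h5 : 2 ^ (p.2 + 1) ≤ nm p.1 ^ (p.2 + 1) := Nat.pow_le_pow_left h2 _
    exact ⟨⟨by omega, by omega⟩, h⟩

theorem LamK_eq (n : ℕ) : H332.PIT.LamK K n = ∑ p ∈ fib K n, Real.log (nm p.1) := by
  classical
  unfold H332.PIT.LamK fib
  rw [Finset.sum_filter, Finset.sum_product]
  refine Finset.sum_congr rfl fun v _ => ?_
  have h1 : Finset.Icc 1 n = (Finset.range n).image (fun k => k + 1) := by
    ext k
    simp only [Finset.mem_Icc, Finset.mem_image, Finset.mem_range]
    constructor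
    · rintro ⟨h1, h2⟩
      exact ⟨k - 1, by omega, by omega⟩
    · rintro ⟨j, h1, h2⟩
      omega
  rw [h1, Finset.sum_image fun a _ b _ h => by simpa using h]

/-- the series of the logarithmic derivative -/
theorem LL_eq {s : ℂ} (hs : 1 < s.re)
    (hsum : Summable fun p : HeightOneSpectrum (𝓞 K) × ℕ =>
      (Real.log (nm p.1) : ℂ) * Complex.exp (-(s * Lq p))) :
    H332.PIT.LL K s = ∑' p : HeightOneSpectrum (𝓞 K) × ℕ,
      (Real.log (nm p.1) : ℂ) * Complex.exp (-(s * Lq p)) := by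
  classical
  have h1 := hsum.hasSum.tsum_fiberwise fun p : HeightOneSpectrum (𝓞 K) × ℕ => nm p.1 ^ (p.2 + 1)
  rw [← h1.tsum_eq]
  unfold H332.PIT.LL LSeries
  refine tsum_congr fun n => ?_
  have hset : (fun p : HeightOneSpectrum (𝓞 K) × ℕ => nm p.1 ^ (p.2 + 1)) ⁻¹' {n} =
      ((fib K n : Finset _) : Set (HeightOneSpectrum (𝓞 K) × ℕ)) := by
    ext p
    rw [Finset.mem_coe, mem_fib]
    rfl
  rw [hset, Finset.tsum_subtype' (fib K n) fun p : HeightOneSpectrum (𝓞 K) × ℕ =>
    (Real.log (nm p.1) : ℂ) * Complex.exp (-(s * Lq p))]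
  rcases Nat.eq_zero_or_pos n with hn | hn
  · subst hn
    rw [LSeries.term_zero]
    symm
    refine Finset.sum_eq_zero fun p hp => ?_
    rw [mem_fib] at hp
    have h2 := two_le_nm p.1
    exact absurd hp (pow_ne_zero _ (by omega))
  · rw [LSeries.term_of_ne_zero hn.ne', LamK_eq, Complex.ofReal_sum, Finset.sum_div]
    refine Finset.sum_congr rfl fun p hp => ?_
    rw [mem_fib] at hp
    rw [div_eq_mul_inv]
    congr 1
    have hn0 : (n : ℂ) ≠ 0 := by exact_mod_cast hn.ne'
    rw [← Complex.cpow_neg, Complex.cpow_def_of_ne_zero hn0, ← Complex.natCast_log, ← hp]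
    congr 1
    unfold Lq
    push_cast
    rw [Real.log_pow]
    push_cast
    ring

theorem log_term_summable {s : ℂ} (hs : 1 < s.re) :
    Summable fun p : HeightOneSpectrum (𝓞 K) × ℕ =>
      (Real.log (nm p.1) : ℂ) * Complex.exp (-(s * Lq p)) := by
  set t : ℝ := (1 + s.re) / 2 with ht
  have ht1 : 1 < t := by rw [ht]; linarith
  have hr : 0 < s.re - t := by rw [ht]; linarith
  refine Summable.of_norm_bounded (g := fun p => (1 / (s.re - t)) * Real.exp (-(t * Lq p)))
    ((summ_pow ht1).mul_left _) fun p => ?_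
  have h1 := norm_term (fun p : HeightOneSpectrum (𝓞 K) × ℕ => Real.log (nm p.1)) Lq s p
  rw [h1, abs_of_pos (log_pos p.1)]
  have h2 : Real.log (nm p.1) ≤ Lq p := by
    unfold Lq
    have := log_pos p.1
    have h3 : (0 : ℝ) ≤ p.2 := Nat.cast_nonneg _
    nlinarith
  have h3 : Real.exp (-(s.re * Lq p)) = Real.exp (-((s.re - t) * Lq p)) * Real.exp (-(t * Lq p)) := by
    rw [← Real.exp_add]
    congr 1
    ring
  rw [h3, ← mul_assoc]
  refine mul_le_mul_of_nonneg_right ?_ (Real.exp_pos _).le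
  have h4 : (s.re - t) * Lq p ≤ Real.exp ((s.re - t) * Lq p) := by
    have := Real.add_one_le_exp ((s.re - t) * Lq p)
    linarith
  have h5 : Lq p ≤ (1 / (s.re - t)) * Real.exp ((s.re - t) * Lq p) := by
    rw [one_div, inv_mul_eq_div, le_div_iff₀ hr, mul_comm]
    exact h4
  calc Real.log (nm p.1) * Real.exp (-((s.re - t) * Lq p))
      ≤ ((1 / (s.re - t)) * Real.exp ((s.re - t) * Lq p)) * Real.exp (-((s.re - t) * Lq p)) :=
        mul_le_mul_of_nonneg_right (h2.trans h5) (Real.exp_pos _).le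
    _ = 1 / (s.re - t) := by
        rw [mul_assoc, ← Real.exp_add, add_neg_cancel, Real.exp_zero, mul_one]

/-- the derivative -/
theorem Ph_deriv {s : ℂ} (hs : 1 < s.re) : deriv (Ph K) s = -H332.PIT.LL K s := by
  set t : ℝ := (1 + s.re) / 2 with ht
  have ht1 : 1 < t := by rw [ht]; linarith
  have hs' : s ∈ {w : ℂ | t < w.re} := by
    show t < s.re
    rw [ht]
    linarith
  have h1 := Complex.hasSum_deriv_of_summable_norm (U := {w : ℂ | t < w.re})
    (F := fun (p : HeightOneSpectrum (𝓞 K) × ℕ) (w : ℂ) => (cz p : ℂ) * Complex.exp (-(w * Lq p)))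
    (u := fun p => |cz p| * Real.exp (-(t * Lq p))) (summ_bdd abs_cz_le ht1)
    (fun p => by fun_prop) (isOpen_lt continuous_const Complex.continuous_re)
    (fun p w hw => by
      rw [norm_term]
      have := Lq_nonneg p
      have hw' : t < w.re := hw
      gcongr) hs'
  have h2 : (fun w => ∑' p : HeightOneSpectrum (𝓞 K) × ℕ, (cz p : ℂ) *
      Complex.exp (-(w * Lq p))) = Ph K := rfl
  rw [h2] at h1
  rw [← h1.tsum_eq, LL_eq hs (log_term_summable hs), ← tsum_neg]
  refine tsum_congr fun p => ?_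
  have h3 : HasDerivAt (fun w : ℂ => (cz p : ℂ) * Complex.exp (-(w * Lq p)))
      ((cz p : ℂ) * (Complex.exp (-(s * Lq p)) * (-(1 * (Lq p : ℂ))))) s :=
    ((((hasDerivAt_id s).mul_const (Lq p : ℂ)).neg).cexp).const_mul _
  rw [h3.deriv]
  have h4 : cz p * Lq p = Real.log (nm p.1) := by
    unfold cz Lq
    have : (p.2 : ℝ) + 1 ≠ 0 := by positivity
    field_simp
  have h5 : (cz p : ℂ) * (Lq p : ℂ) = (Real.log (nm p.1) : ℂ) := by exact_mod_cast h4
  linear_combination (-Complex.exp (-(s * Lq p))) * h5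

/-- **The zeta function as an exponential.** -/
theorem zeta_eq : ∃ C : ℂ, C ≠ 0 ∧ ∀ s : ℂ, 1 < s.re →
    dedekindZeta K s = C * Complex.exp (Ph K s) := by
  set f : ℂ → ℂ := fun s => dedekindZeta K s * Complex.exp (-Ph K s) with hf
  have hz : DifferentiableOn ℂ (dedekindZeta K) {s : ℂ | 1 < s.re} := fun z hz =>
    (H332.PIT.zeta_diffAt hz).differentiableWithinAt
  have hfd : DifferentiableOn ℂ f {s : ℂ | 1 < s.re} := hz.mul (Ph_diff.neg.cexp)
  have hder : Set.EqOn (deriv f) 0 {s : ℂ | 1 < s.re} := by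
    intro s hs
    have h1 : HasDerivAt (dedekindZeta K) (deriv (dedekindZeta K) s) s :=
      (H332.PIT.zeta_diffAt hs).hasDerivAt
    have h2 : HasDerivAt (Ph K) (deriv (Ph K) s) s :=
      (Ph_diff.differentiableAt (isOpen_hp.mem_nhds hs)).hasDerivAt
    have h3 := (h1.mul h2.neg.cexp).deriv
    change deriv f s = 0
    have h4 : deriv f s = deriv (dedekindZeta K) s * Complex.exp (-Ph K s) +
        dedekindZeta K s * (Complex.exp (-Ph K s) * -deriv (Ph K) s) := h3
    rw [h4, H332.PIT.deriv_zeta hs, Ph_deriv hs]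
    ring
  refine ⟨f 2, ?_, fun s hs => ?_⟩
  · rw [hf]
    exact mul_ne_zero (H332.PIT.zeta_ne_zero (by norm_num)) (Complex.exp_ne_zero _)
  · have h1 := isOpen_hp.is_const_of_deriv_eq_zero (convex_halfSpace_re_gt 1).isPreconnected hfd hder
      hs (show (2 : ℂ) ∈ {s : ℂ | 1 < s.re} by norm_num)
    rw [← h1, hf]
    simp only
    rw [mul_assoc, ← Complex.exp_add, neg_add_cancel, Complex.exp_zero, mul_one]

end

end Pool.Agent.TH129.RS
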